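import Mathlib
import Pool.Agent.H524.EvenC
import Pool.Agent.H524.Sign

/-!
Odd characteristic: the parity obstruction.
-/

namespace Pool.Agent.H524

set_option linter.unusedSectionVars false

open Polynomial

lemma sign_tri_four (k : ℕ) :
    (-1 : ℤ) ^ ((4 * k + 1) + (4 * k + 1) * (4 * k + 1 - 1) / 2) = -1 ∧
    (-1 : ℤ) ^ ((4 * k + 3) + (4 * k + 3) * (4 * k + 3 - 1) / 2) = 1 := by
  refine ⟨?_, ?_⟩
  · have h : (4 * k + 1) * (4 * k + 1 - 1) / 2 = 8 * k * k + 2 * k := by
      have : (4 * k + 1) * (4 * k + 1 - 1) = 2 * (8 * k * k + 2 * k) := by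
        rw [Nat.add_sub_cancel]; ring
      omega
    rw [h]
    apply Odd.neg_one_pow
    exact ⟨4 * k * k + 3 * k, by ring⟩
  · have h : (4 * k + 3) * (4 * k + 3 - 1) / 2 = 8 * k * k + 10 * k + 3 := by
      have : (4 * k + 3) * (4 * k + 3 - 1) = 2 * (8 * k * k + 10 * k + 3) := by
        have e : 4 * k + 3 - 1 = 4 * k + 2 := by omega
        rw [e]; ring
      omega
    rw [h]
    apply Even.neg_one_pow
    exact ⟨4 * k * k + 7 * k + 3, by ring⟩

section odd

variable {K : Type*} [Field K] [Fintype K]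

/-- The parity obstruction in odd characteristic. -/
theorem odd_core (p : ℕ) [hp : Fact p.Prime] [CharP K p] (hp2 : p ≠ 2) (g H : K[X])
    (hg : g.Monic) (hH : H.Monic) (d s n : ℕ) (hd : H.natDegree = d) (hd1 : 1 ≤ d) (hs : 1 ≤ s)
    (hn : n = s + p * g.natDegree) (hlt : d < n) (hn2 : 2 ≤ n)
    (hdiv : ∀ B : K[X], B ≠ 0 → B.natDegree ≤ d / 2 → B ∣ g)
    (hA : (euler H - C (s : K) * H) ∣ g)
    (hr : (n - d) % (4 * p) = 1 ∨ (n - d) % (4 * p) = 4 * p - 1) :
    ¬ Irreducible (X ^ s * g ^ p + H) := by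
  intro hF
  have hp3 : 3 ≤ p := by
    have := hp.out.two_le
    omega
  have hfd : (X ^ s * g ^ p).natDegree = n := by
    rw [(monic_X_pow s).natDegree_mul (hg.pow p), natDegree_X_pow, hg.natDegree_pow, hn]
  have hFd : (X ^ s * g ^ p + H).natDegree = n := by
    rw [natDegree_add_eq_left_of_natDegree_lt (by rw [hfd, hd]; exact hlt), hfd]
  have hFm : (X ^ s * g ^ p + H).Monic := by
    apply ((monic_X_pow s).mul (hg.pow p)).add_of_left
    rw [degree_eq_natDegree ((monic_X_pow s).mul (hg.pow p)).ne_zero,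
      degree_eq_natDegree hH.ne_zero, hfd, hd]
    exact_mod_cast hlt
  have hHirr : Irreducible H := by
    refine irreducible_of_add hH hd hd1 ?_ ?_ hF
    · intro B hB hBd
      exact dvd_mul_of_dvd_right (dvd_pow (hdiv B hB hBd) (by omega)) _
    · rw [hFd]; omega
  have hH0 : H.eval 0 ≠ 0 := by
    intro h
    have h1 : (X ^ s * g ^ p + H).IsRoot 0 := by
      show (X ^ s * g ^ p + H).eval 0 = 0
      rw [eval_add, eval_mul, eval_pow, eval_X, zero_pow (by omega), zero_mul, zero_add, h]
    have h2 := degree_eq_one_of_irreducible_of_root hF h1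
    rw [degree_eq_natDegree hF.ne_zero, hFd] at h2
    have h3 : n = 1 := by exact_mod_cast h2
    omega
  obtain ⟨r, hr'⟩ : ∃ r, n = d + r := ⟨n - d, by omega⟩
  have hpK : (p : K) = 0 := CharP.cast_eq_zero K p
  have hsn : (s : K) = (n : K) := by
    rw [hn]; push_cast; rw [hpK]; ring
  have hds : (d : K) - (s : K) = -(r : K) := by
    rw [hsn, hr']; push_cast; ring
  subst hr'
  rw [Nat.add_sub_cancel_left] at hr
  -- the residues of `r`
  have hr4p : r % p = 1 ∧ r % 4 = (4 * p + 1) % 4 ∨ r % p = p - 1 ∧ r % 4 = 3 := by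
    have h1 : r % p = r % (4 * p) % p := (Nat.mod_mod_of_dvd r (Dvd.intro_left 4 rfl)).symm
    have h2 : r % 4 = r % (4 * p) % 4 := (Nat.mod_mod_of_dvd r (Dvd.intro p rfl)).symm
    rcases hr with h | h
    · left
      rw [h] at h1 h2
      refine ⟨by rw [h1]; exact Nat.mod_eq_of_lt (by omega), by omega⟩
    · right
      rw [h] at h1 h2
      refine ⟨?_, by omega⟩
      rw [h1]
      have : 4 * p - 1 = (p - 1) + p * 3 := by omega
      rw [this, Nat.add_mul_mod_self_left]
      exact Nat.mod_eq_of_lt (by omega)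
  have hrK : (r : K) = ((r % p : ℕ) : K) := by
    have h1 : r = p * (r / p) + r % p := (Nat.div_add_mod r p).symm
    have h2 : (r : K) = ((p * (r / p) + r % p : ℕ) : K) := by rw [← h1]
    rw [h2]
    push_cast
    rw [hpK]; ring
  have hds0 : (d : K) - (s : K) ≠ 0 := by
    rw [hds, neg_ne_zero, hrK]
    intro h
    rw [CharP.cast_eq_zero_iff K p] at h
    have h5 : r % p < p := Nat.mod_lt _ (by omega)
    have h6 := Nat.eq_zero_of_dvd_of_lt h h5
    rcases hr4p with h7 | h7 <;> omega
  -- the cofactor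
  obtain ⟨k, hk⟩ := hA
  generalize hAdef : euler H - C (s : K) * H = A at hk
  have hAd : A.natDegree ≤ d := by rw [← hAdef]; exact twist_natDegree H d _ hd
  have hAc : A.coeff d = (d : K) - s := by rw [← hAdef]; exact twist_coeff H hH d _ hd
  have hAd' : A.natDegree = d := le_antisymm hAd (le_natDegree_of_ne_zero (by rw [hAc]; exact hds0))
  have hA0 : A ≠ 0 := by
    intro h
    rw [h, coeff_zero] at hAc
    exact hds0 hAc.symm
  obtain ⟨q, hq⟩ : ∃ q, p = q + 1 := ⟨p - 1, by omega⟩
  have hfw : X ^ s * g ^ p = A * (X ^ s * A ^ q * k ^ p) := by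
    have : g ^ p = A ^ (q + 1) * k ^ p := by rw [hk, mul_pow, ← hq]
    rw [this]; ring
  have hw0 : X ^ s * A ^ q * k ^ p ≠ 0 := by
    intro h
    rw [h, mul_zero] at hfw
    exact ((monic_X_pow s).mul (hg.pow p)).ne_zero hfw
  have hwd : (X ^ s * A ^ q * k ^ p).natDegree + d = d + r := by
    have h1 := congrArg natDegree hfw
    rw [hfd, natDegree_mul hA0 hw0, hAd'] at h1
    omega
  generalize hw : X ^ s * A ^ q * k ^ p = w at hfw hw0 hwd
  -- the Euler identity
  have heul : X * derivative (X ^ s * g ^ p + H) =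
      C (s : K) * ((X ^ s * g ^ p + H) - H) + X * derivative H := by
    have h1 : derivative (g ^ p) = 0 := by
      rw [derivative_pow]
      have : ((p : ℕ) : K[X]) = 0 := by
        have h2 : ((p : ℕ) : K[X]) = C ((p : ℕ) : K) := by simp
        rw [h2, hpK, C_0]
      simp [hpK]
    rw [derivative_add, derivative_mul, h1, derivative_X_pow]
    obtain ⟨t, rfl⟩ : ∃ t, s = t + 1 := ⟨s - 1, by omega⟩
    rw [Nat.add_sub_cancel]
    ring
  have hFHw : X ^ s * g ^ p + H = H + (X * derivative H - C (s : K) * H) * w := by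
    rw [hfw, ← hAdef, euler]; ring
  have hF00 : (X ^ s * g ^ p + H).eval 0 = H.eval 0 := by
    rw [eval_add, eval_mul, eval_pow, eval_X, zero_pow (by omega), zero_mul, zero_add]
  generalize X ^ s * g ^ p + H = F at hF hFd hFm heul hFHw hF00
  -- pass to the algebraic closure
  obtain ⟨ι, hιdef⟩ : ∃ ι : K →+* AC K, ι = algebraMap K (AC K) := ⟨_, rfl⟩
  have hroot : ∀ {P : K[X]}, Irreducible P → ∃ a : (AC K), (P.map ι).eval a = 0 := by
    intro P hP
    obtain ⟨a, ha⟩ := IsAlgClosed.exists_aeval_eq_zero (AC K) P (by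
      rw [degree_eq_natDegree hP.ne_zero]
      exact_mod_cast hP.natDegree_pos.ne')
    exact ⟨a, by rw [hιdef, eval_map_algebraMap]; exact ha⟩
  obtain ⟨a, ha⟩ := hroot hF
  obtain ⟨b, hb⟩ := hroot hHirr
  obtain ⟨σ, hσdef⟩ : ∃ σ : (AC K) →+* (AC K),
    σ = (FiniteField.frobeniusAlgHom K (AC K)).toRingHom := ⟨_, rfl⟩
  have hσι : σ.comp ι = ι := by
    rw [hσdef, hιdef]
    exact RingHom.ext (fun x => (FiniteField.frobeniusAlgHom K (AC K)).commutes x)
  have hσc : ∀ x, (RingHom.id (AC K)) (σ x) = (RingHom.id (AC K)) x ^ Fintype.card K := by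
    intro x
    rw [hσdef]
    rfl
  obtain ⟨v, hv1, hv2, hv3⟩ := exists_cycle' σ (RingHom.id (AC K)) hσc hF hFd
    (F.map ι) (hFm.map _) (by rw [Polynomial.map_map, hσι])
    (by rw [Polynomial.map_id, hιdef]) a ha
  obtain ⟨u, hu1, hu2, hu3⟩ := exists_cycle' σ (RingHom.id (AC K)) hσc hHirr hd
    (H.map ι) (hH.map _) (by rw [Polynomial.map_map, hσι])
    (by rw [Polynomial.map_id, hιdef]) b hb
  have hι0 : ∀ P : K[X], (P.map ι).eval 0 = ι (P.eval 0) := by
    intro P
    have := eval_map_apply (f := ι) (p := P) (x := (0 : K))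
    rw [map_zero] at this
    exact this
  have key := vdm_compare_twist (le_of_lt hlt) v u (w.map ι) (s : (AC K))
    (F.map ι) (H.map ι) hv1 hu1
    (by
      have h1 := congrArg (Polynomial.map ι) hFHw
      rw [Polynomial.map_add, Polynomial.map_mul, Polynomial.map_sub, Polynomial.map_mul,
        Polynomial.map_mul, map_X, map_C, map_natCast, ← derivative_map] at h1
      exact h1)
    (by
      have := natDegree_map_le (f := ι) (p := w)
      omega)
    (by
      have h1 := congrArg (Polynomial.map ι) heul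
      rw [Polynomial.map_add, Polynomial.map_mul, Polynomial.map_mul, Polynomial.map_sub,
        Polynomial.map_mul, map_X, map_C, map_natCast, ← derivative_map, ← derivative_map] at h1
      exact h1)
    (by rw [hι0, hι0, hF00])
    (by
      rw [hι0]
      exact (IsUnit.mk0 _ hH0).map ι)
  have hpE : (p : (AC K)) = 0 := by
    have := congrArg ι hpK
    rwa [map_natCast, map_zero] at this
  have hdsE : (d : (AC K)) - (s : (AC K)) = -((r % p : ℕ) : (AC K)) := by
    have h1 := congrArg ι hds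
    rw [hrK] at h1
    simpa using h1
  rw [hdsE] at key
  have hst := sign_total d r
  rw [Nat.add_sub_cancel_left] at key
  -- reduce to equality of squares
  have hsq : vdm v ^ 2 = vdm u ^ 2 := by
    have hstE : (((-1 : ℤ) ^ ((d + r) + (d + r) * (d + r - 1) / 2) *
        ((-1) ^ ((d + r) * d + d * d) * (-1) ^ (d + d * (d - 1) / 2)) : ℤ) : (AC K)) =
        (((-1 : ℤ) ^ (r + r * (r - 1) / 2) : ℤ) : (AC K)) := by rw [hst]
    push_cast at hstE
    have hε : ((-1 : (AC K)) ^ (d + r + (d + r) * (d + r - 1) / 2)) ^ 2 = 1 := by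
      rw [← pow_mul, mul_comm, pow_mul]
      simp
    have h1 : vdm v ^ 2 = ((-1 : (AC K)) ^ (r + r * (r - 1) / 2)) * (-((r % p : ℕ) : (AC K))) ^ r *
        vdm u ^ 2 := by
      rw [← hstE]
      linear_combination ((-1 : (AC K)) ^ (d + r + (d + r) * (d + r - 1) / 2)) * key -
        vdm v ^ 2 * hε
    rw [h1]
    have hrodd : Odd r := by
      rcases hr4p with h | h
      · exact Nat.odd_iff.mpr (by omega)
      · exact Nat.odd_iff.mpr (by omega)
    rcases hr4p with ⟨h2, h3⟩ | ⟨h2, h3⟩
    · have h4 := (sign_tri_four (r / 4)).1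
      have h5 : 4 * (r / 4) + 1 = r := by omega
      rw [h5] at h4
      have h6 : (((-1 : ℤ) ^ (r + r * (r - 1) / 2) : ℤ) : (AC K)) = ((-1 : ℤ) : (AC K)) := by rw [h4]
      push_cast at h6
      rw [h6, h2, Nat.cast_one, hrodd.neg_one_pow]
      ring
    · have h4 := (sign_tri_four (r / 4)).2
      have h5 : 4 * (r / 4) + 3 = r := by omega
      rw [h5] at h4
      have h6 : (((-1 : ℤ) ^ (r + r * (r - 1) / 2) : ℤ) : (AC K)) = ((1 : ℤ) : (AC K)) := by rw [h4]
      push_cast at h6
      have h7 : -((p - 1 : ℕ) : (AC K)) = 1 := by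
        rw [Nat.cast_sub (by omega), hpE]; simp
      rw [h6, h2, h7, one_pow]
      ring
  have hσv : ∀ {m : ℕ} (f : Fin m → (AC K)), (∀ i, σ (f i) = f (finRotate _ i)) →
      σ (vdm f) = (-1) ^ (m - 1) * vdm f := by
    intro m f hf
    rw [map_vdm, ← vdm_rotate]
    congr 1
    funext i
    exact hf i
  have hsv := hσv v hv2
  have hsu := hσv u hu2
  have h2E : (2 : (AC K)) ≠ 0 := by
    intro h
    have h1 : ((2 : ℕ) : K) = 0 := by
      have h3 : ι ((2 : ℕ) : K) = 0 := by rw [map_natCast]; exact_mod_cast h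
      exact (map_eq_zero ι).mp h3
    rw [CharP.cast_eq_zero_iff K p] at h1
    have := Nat.le_of_dvd (by norm_num) h1
    omega
  have hu0 : vdm u ≠ 0 := hu3
  have hcontra : vdm u = -vdm u → False := by
    intro h
    have : (2 : (AC K)) * vdm u = 0 := by linear_combination h
    rcases mul_eq_zero.mp this with h | h
    · exact h2E h
    · exact hu0 h
  have hrodd : r % 2 = 1 := by
    rcases hr4p with h | h <;> omega
  rcases sq_eq_sq_iff_eq_or_eq_neg.mp hsq with h | h
  · rw [h, hsu] at hsv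
    rcases Nat.even_or_odd (d - 1) with hd2 | hd2
    · have hn3 : Odd (d + r - 1) := by
        rcases hd2 with ⟨m, hm⟩
        exact ⟨m + r / 2, by omega⟩
      rw [hd2.neg_one_pow, hn3.neg_one_pow] at hsv
      exact hcontra (by linear_combination hsv)
    · have hn3 : Even (d + r - 1) := by
        rcases hd2 with ⟨m, hm⟩
        exact ⟨m + r / 2 + 1, by omega⟩
      rw [hd2.neg_one_pow, hn3.neg_one_pow] at hsv
      exact hcontra (by linear_combination -hsv)
  · rw [h, map_neg, hsu] at hsv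
    rcases Nat.even_or_odd (d - 1) with hd2 | hd2
    · have hn3 : Odd (d + r - 1) := by
        rcases hd2 with ⟨m, hm⟩
        exact ⟨m + r / 2, by omega⟩
      rw [hd2.neg_one_pow, hn3.neg_one_pow] at hsv
      exact hcontra (by linear_combination -hsv)
    · have hn3 : Even (d + r - 1) := by
        rcases hd2 with ⟨m, hm⟩
        exact ⟨m + r / 2 + 1, by omega⟩
      rw [hd2.neg_one_pow, hn3.neg_one_pow] at hsv
      exact hcontra (by linear_combination hsv)

end odd

end Pool.Agent.H524
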