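import Mathlib
import Pool.Agent.H524.OddA

/-!
Odd characteristic: prime-free intervals.
-/

namespace Pool.Agent.H524

set_option linter.unusedSectionVars false

open Polynomial

section odd

variable {K : Type*} [Field K] [Fintype K]

/-- The indices not congruent to `n`. -/
def idx (p d n : ℕ) : Finset ℕ := (Finset.range d).filter (fun i => i % p ≠ n % p)

lemma mem_idx {p d n i : ℕ} : i ∈ idx p d n ↔ i < d ∧ i % p ≠ n % p := by
  rw [idx, Finset.mem_filter, Finset.mem_range]

lemma card_idx (p d n : ℕ) (hp : 0 < p) : p * (idx p d n).card ≤ (p - 1) * (d + 1) := by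
  have h1 : (idx p d n).card + ((Finset.range d).filter (fun i => i % p = n % p)).card = d := by
    have := Finset.card_filter_add_card_filter_not (s := Finset.range d)
      (fun i => i % p ≠ n % p)
    simp only [not_not, Finset.card_range] at this
    rw [idx]
    exact this
  have h2 : d / p ≤ ((Finset.range d).filter (fun i => i % p = n % p)).card := by
    have h3 := Nat.count_modEq_card d hp n
    rw [Nat.count_eq_card_filter_range] at h3
    have h4 : ((Finset.range d).filter (fun i => i % p = n % p)).card =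
        ((Finset.range d).filter (fun i => i ≡ n [MOD p])).card := rfl
    rw [h4, h3]
    exact Nat.le_add_right _ _
  have h3 : d = p * (d / p) + d % p := (Nat.div_add_mod d p).symm
  have h4 : d % p < p := Nat.mod_lt _ hp
  have h5 : (idx p d n).card ≤ d - d / p := by omega
  obtain ⟨m, rfl⟩ : ∃ m, p = m + 1 := ⟨p - 1, by omega⟩
  have h6 : d / (m + 1) ≤ d := Nat.div_le_self _ _
  calc (m + 1) * (idx (m + 1) d n).card ≤ (m + 1) * (d - d / (m + 1)) :=
        Nat.mul_le_mul_left _ h5
    _ = (m + 1) * d - (m + 1) * (d / (m + 1)) := Nat.mul_sub _ _ _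
    _ ≤ (m + 1 - 1) * (d + 1) := by
      rw [Nat.add_sub_cancel, Nat.sub_le_iff_le_add]
      have : (m + 1) * d = m * d + d := by ring
      rw [this]
      have : m * (d + 1) = m * d + m := by ring
      omega

/-- The general twisted derivative, normalised. -/
noncomputable def twistPoly (K : Type*) [Field K] (p d n : ℕ) (c : idx p d n → K) : K[X] :=
  X ^ d + ∑ i : idx p d n, C (c i) * X ^ (i : ℕ)

lemma twistPoly_degree_aux (p d n : ℕ) (c : idx p d n → K) :
    (∑ i : idx p d n, C (c i) * X ^ (i : ℕ)).degree < (d : WithBot ℕ) := by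
  rw [degree_lt_iff_coeff_zero]
  intro m hm
  rw [finsetSum_coeff]
  apply Finset.sum_eq_zero
  intro i _
  rw [coeff_C_mul_X_pow, if_neg]
  have h1 := (mem_idx.mp i.2).1
  intro h2
  omega

lemma monic_twistPoly (p d n : ℕ) (c : idx p d n → K) : (twistPoly K p d n c).Monic :=
  monic_X_pow_add (twistPoly_degree_aux p d n c)

lemma natDegree_twistPoly (p d n : ℕ) (c : idx p d n → K) :
    (twistPoly K p d n c).natDegree = d := by
  rw [twistPoly, natDegree_add_eq_left_of_degree_lt, natDegree_X_pow]
  rw [degree_X_pow]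
  exact twistPoly_degree_aux p d n c

lemma coeff_twistPoly (p d n : ℕ) (c : idx p d n → K) (i : ℕ) :
    (twistPoly K p d n c).coeff i =
      (if i = d then 1 else 0) + (if h : i ∈ idx p d n then c ⟨i, h⟩ else 0) := by
  rw [twistPoly, coeff_add, coeff_X_pow, finsetSum_coeff]
  congr 1
  split_ifs with h
  · rw [Finset.sum_eq_single (⟨i, h⟩ : idx p d n)]
    · simp
    · intro j _ hj
      rw [coeff_C_mul_X_pow, if_neg]
      intro h2
      exact hj (Subtype.ext h2.symm)
    · simp
  · apply Finset.sum_eq_zero
    intro j _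
    rw [coeff_C_mul_X_pow, if_neg]
    intro h2
    exact h (h2 ▸ j.2)

/-- The product of all normalised twisted derivatives. -/
noncomputable def twistProd (K : Type*) [Field K] [Fintype K] (p d n : ℕ) : K[X] := by
  classical exact ∏ c : idx p d n → K, twistPoly K p d n c

lemma monic_twistProd (p d n : ℕ) : (twistProd K p d n).Monic := by
  classical
  rw [twistProd]
  exact monic_prod_of_monic _ _ (fun c _ => monic_twistPoly p d n c)

lemma natDegree_twistProd (p d n : ℕ) :
    (twistProd K p d n).natDegree = d * Fintype.card K ^ (idx p d n).card := by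
  classical
  rw [twistProd, natDegree_prod_of_monic _ _ (fun c _ => monic_twistPoly p d n c)]
  simp only [natDegree_twistPoly]
  rw [Finset.sum_const, Finset.card_univ, smul_eq_mul, mul_comm]
  simp

lemma twist_dvd_twistProd (p d n : ℕ) [hp : Fact p.Prime] [CharP K p] (H : K[X]) (hH : H.Monic)
    (hd : H.natDegree = d) (hdn : (d : K) - n ≠ 0) :
    (euler H - C (n : K) * H) ∣ twistProd K p d n := by
  classical
  let c : idx p d n → K := fun i => ((d : K) - n)⁻¹ * (((i : ℕ) : K) - n) * H.coeff i
  have hcoeff : ∀ i, (euler H - C (n : K) * H).coeff i = ((i : K) - n) * H.coeff i := by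
    intro i
    rw [coeff_sub, coeff_C_mul, euler]
    rcases i with _ | i
    · simp
    · rw [coeff_X_mul, coeff_derivative]
      push_cast; ring
  have heq : euler H - C (n : K) * H = C ((d : K) - n) * twistPoly K p d n c := by
    ext i
    rw [hcoeff, coeff_C_mul, coeff_twistPoly]
    rcases lt_trichotomy i d with h | h | h
    · rw [if_neg h.ne]
      by_cases hi : i ∈ idx p d n
      · rw [dif_pos hi, zero_add]
        show _ = ((d : K) - n) * (((d : K) - n)⁻¹ * (((i : ℕ) : K) - n) * H.coeff i)
        field_simp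
      · rw [dif_neg hi]
        have h2 : i % p = n % p := by
          by_contra h3
          exact hi (by rw [idx, Finset.mem_filter, Finset.mem_range]; exact ⟨h, h3⟩)
        have h3 : (i : K) = n := (CharP.natCast_eq_natCast K p).mpr h2
        rw [h3]; ring
    · subst h
      have hi : ¬ i ∈ idx p i n := by
        rw [idx, Finset.mem_filter, Finset.mem_range]
        exact fun h => lt_irrefl _ h.1
      rw [if_pos rfl, dif_neg hi]
      have : H.coeff i = 1 := by rw [← hd]; exact hH
      rw [this]; ring
    · have hi : ¬ i ∈ idx p d n := by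
        rw [idx, Finset.mem_filter, Finset.mem_range]
        exact fun h2 => absurd h2.1 (not_lt.mpr h.le)
      rw [if_neg h.ne', dif_neg hi, coeff_eq_zero_of_natDegree_lt (by rw [hd]; exact h)]
      ring
  rw [heq]
  have h1 : twistPoly K p d n c ∣ twistProd K p d n := by
    rw [twistProd]
    exact Finset.dvd_prod_of_mem _ (Finset.mem_univ c)
  have hu : IsUnit (C ((d : K) - n)) := (IsUnit.mk0 _ hdn).map C
  exact (hu.mul_left_dvd).mpr h1

/-- The prime-free interval in odd characteristic. -/
lemma primefree_odd (p : ℕ) [hp : Fact p.Prime] [CharP K p] (hp2 : p ≠ 2) (d n : ℕ)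
    (hd1 : 1 ≤ d) (hlt : d < n) (hr : (n - d) % (4 * p) = 1)
    (hn : p * (d * Fintype.card K ^ (idx p d n).card + (lcmPoly K (d / 2)).natDegree) + 1 ≤ n) :
    ∃ A : K[X], A.Monic ∧ A.natDegree = n ∧
      ∀ B : K[X], (B - A).degree < (d : WithBot ℕ) → ¬ Irreducible B := by
  have hpp : 0 < p := hp.out.pos
  have hp3 : 3 ≤ p := by
    have := hp.out.two_le
    omega
  obtain ⟨g, hg⟩ : ∃ g, g = twistProd K p d n * lcmPoly K (d / 2) := ⟨_, rfl⟩
  have hgm : g.Monic := by rw [hg]; exact (monic_twistProd p d n).mul (monic_lcmPoly K _)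
  have hgd : g.natDegree = d * Fintype.card K ^ (idx p d n).card +
      (lcmPoly K (d / 2)).natDegree := by
    rw [hg, (monic_twistProd p d n).natDegree_mul (monic_lcmPoly K _), natDegree_twistProd]
  obtain ⟨s, hs⟩ : ∃ s, n = s + p * g.natDegree := ⟨n - p * g.natDegree, by rw [hgd]; omega⟩
  have hs1 : 1 ≤ s := by
    rw [hgd] at hs
    omega
  have hpK : (p : K) = 0 := CharP.cast_eq_zero K p
  have hsn : (s : K) = (n : K) := by
    rw [hs]; push_cast; rw [hpK]; ring
  have hdn : (d : K) - n ≠ 0 := by
    intro h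
    have h1 : (d : K) = n := sub_eq_zero.mp h
    rw [CharP.natCast_eq_natCast K p] at h1
    have h2 : (n - d) % p = 1 % p := by
      have h3 : (n - d) % p = (n - d) % (4 * p) % p :=
        (Nat.mod_mod_of_dvd _ (Dvd.intro_left 4 rfl)).symm
      rw [h3, hr]
    have h4 : p ∣ n - d := (Nat.modEq_iff_dvd' hlt.le).mp h1
    rw [Nat.mod_eq_zero_of_dvd h4, Nat.mod_eq_of_lt (by omega : 1 < p)] at h2
    omega
  have hm : (X ^ s * g ^ p : K[X]).Monic := (monic_X_pow s).mul (hgm.pow p)
  have hfd : (X ^ s * g ^ p).natDegree = n := by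
    rw [(monic_X_pow s).natDegree_mul (hgm.pow p), natDegree_X_pow, hgm.natDegree_pow, hs]
  refine ⟨X ^ s * g ^ p + X ^ d, ?_, ?_, ?_⟩
  · apply hm.add_of_left
    rw [degree_X_pow, degree_eq_natDegree hm.ne_zero, hfd]
    exact_mod_cast hlt
  · rw [natDegree_add_eq_left_of_natDegree_lt, hfd]
    rw [natDegree_X_pow, hfd]
    exact hlt
  · intro B hB
    have h1 : B = X ^ s * g ^ p + (X ^ d + (B - (X ^ s * g ^ p + X ^ d))) := by ring
    rw [h1]
    have hHm : (X ^ d + (B - (X ^ s * g ^ p + X ^ d))).Monic := monic_X_pow_add hB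
    have hHd : (X ^ d + (B - (X ^ s * g ^ p + X ^ d))).natDegree = d := by
      rw [natDegree_add_eq_left_of_degree_lt, natDegree_X_pow]
      rw [degree_X_pow]
      exact hB
    generalize (X ^ d + (B - (X ^ s * g ^ p + X ^ d))) = H at hHm hHd
    exact odd_core p hp2 g H hgm hHm d s n hHd hd1 hs1 hs hlt (by omega)
      (fun B hB hBd => by
        rw [hg]
        exact dvd_mul_of_dvd_right (dvd_lcmPoly B hB hBd) _)
      (by
        rw [hsn, hg]
        exact dvd_mul_of_dvd_left (twist_dvd_twistProd p d n H hHm hHd hdn) _)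
      (Or.inl hr)

end odd

end Pool.Agent.H524
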