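import Mathlib
import Pool.Agent.H524.OddB

/-!
Odd characteristic: long prime-free intervals in every degree.
-/

namespace Pool.Agent.H524

set_option linter.unusedSectionVars false

open Polynomial

section odd

variable {K : Type*} [Field K] [Fintype K]

lemma natDegree_lcmPoly_le (D : ℕ) : (lcmPoly K D).natDegree ≤ 2 * Fintype.card K ^ D := by
  have hq : 2 ≤ Fintype.card K := Fintype.one_lt_card
  have h1 := natDegree_lcmPoly_mul K D
  obtain ⟨m, hm⟩ : ∃ m, Fintype.card K = m + 1 := ⟨Fintype.card K - 1, by omega⟩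
  have hm1 : 1 ≤ m := by omega
  have h2 : (lcmPoly K D).natDegree * m ≤ (2 * Fintype.card K ^ D) * m := by
    have h3 : (lcmPoly K D).natDegree * m ≤ Fintype.card K ^ (D + 1) := by
      have h4 : Fintype.card K - 1 = m := by omega
      rw [h4] at h1
      omega
    calc (lcmPoly K D).natDegree * m ≤ Fintype.card K ^ (D + 1) := h3
      _ = Fintype.card K ^ D * (m + 1) := by rw [pow_succ, ← hm]
      _ ≤ Fintype.card K ^ D * (2 * m) := Nat.mul_le_mul_left _ (by omega)
      _ = (2 * Fintype.card K ^ D) * m := by ring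
  exact Nat.le_of_mul_le_mul_right h2 hm1

/-- The threshold function. -/
def thr (p q e : ℕ) : ℕ := p * ((p * e + 2) * q ^ ((p - 1) * (e + 1))) + 1

lemma primefree_odd_nat (p : ℕ) [hp : Fact p.Prime] [CharP K p] (hp2 : p ≠ 2) (n : ℕ)
    (hn : thr p (Fintype.card K) 5 ≤ n) :
    ∃ (e d : ℕ) (A : K[X]), thr p (Fintype.card K) e ≤ n ∧ n < thr p (Fintype.card K) (e + 1) ∧
      p * e ≤ d + 4 * p ∧ A.Monic ∧ A.natDegree = n ∧
      ∀ B : K[X], (B - A).degree < (d : WithBot ℕ) → ¬ Irreducible B := by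
  have hq : 2 ≤ Fintype.card K := Fintype.one_lt_card
  have hp3 : 3 ≤ p := by
    have := hp.out.two_le
    omega
  generalize hqdef : Fintype.card K = q at hn hq
  have hlarge : ∀ e, e < thr p q e := by
    intro e
    have h1 : 1 ≤ q ^ ((p - 1) * (e + 1)) := Nat.one_le_pow _ _ (by omega)
    have h2 : e ≤ p * ((p * e + 2) * q ^ ((p - 1) * (e + 1))) := by
      calc e ≤ p * e := Nat.le_mul_of_pos_left _ (by omega)
        _ ≤ p * (p * e) := Nat.mul_le_mul_left _ (Nat.le_mul_of_pos_left _ (by omega))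
        _ ≤ p * ((p * e + 2) * q ^ ((p - 1) * (e + 1))) := by
          apply Nat.mul_le_mul_left
          calc p * e ≤ (p * e + 2) * 1 := by omega
            _ ≤ (p * e + 2) * q ^ ((p - 1) * (e + 1)) := Nat.mul_le_mul_left _ h1
    unfold thr
    omega
  have hex : ∃ e, n < thr p q (e + 1) := ⟨n, lt_trans (Nat.lt_succ_self n) (hlarge (n + 1))⟩
  have hmono : ∀ a b, a ≤ b → thr p q a ≤ thr p q b := by
    intro a b hab
    unfold thr
    apply Nat.add_le_add_right
    apply Nat.mul_le_mul_left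
    apply Nat.mul_le_mul
    · have := Nat.mul_le_mul_left p hab
      omega
    · exact Nat.pow_le_pow_right (by omega) (Nat.mul_le_mul_left _ (by omega))
  classical
  obtain ⟨e, he1, he2⟩ : ∃ e, thr p q e ≤ n ∧ n < thr p q (e + 1) := by
    refine ⟨Nat.find hex, ?_, Nat.find_spec hex⟩
    rcases Nat.eq_zero_or_pos (Nat.find hex) with h0 | h0
    · rw [h0]
      exact (hmono 0 5 (by norm_num)).trans hn
    · have h1 := Nat.find_min hex (m := Nat.find hex - 1) (by omega)
      rw [Nat.sub_add_cancel h0] at h1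
      omega
  have he5 : 5 ≤ e := by
    by_contra h
    have := hmono (e + 1) 5 (by omega)
    omega
  have hen : e < n := lt_of_lt_of_le (hlarge e) he1
  -- the choice of `d`
  obtain ⟨δ, hδ⟩ : ∃ δ, δ = (p * e + (4 * p - 1) * (n - 1)) % (4 * p) := ⟨_, rfl⟩
  have hδ1 : δ < 4 * p := by rw [hδ]; exact Nat.mod_lt _ (by omega)
  have hpe : 5 * p ≤ p * e := by rw [mul_comm]; exact Nat.mul_le_mul_left _ he5
  obtain ⟨d, hd⟩ : ∃ d, d + δ = p * e := ⟨p * e - δ, by omega⟩
  have hpen : p * e < n := by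
    have h1 : p * e ≤ p * ((p * e + 2) * q ^ ((p - 1) * (e + 1))) := by
      have h1 : 1 ≤ q ^ ((p - 1) * (e + 1)) := Nat.one_le_pow _ _ (by omega)
      calc p * e ≤ p * (p * e) := Nat.mul_le_mul_left _ (Nat.le_mul_of_pos_left _ (by omega))
        _ ≤ p * ((p * e + 2) * q ^ ((p - 1) * (e + 1))) := by
          apply Nat.mul_le_mul_left
          calc p * e ≤ (p * e + 2) * 1 := by omega
            _ ≤ (p * e + 2) * q ^ ((p - 1) * (e + 1)) := Nat.mul_le_mul_left _ h1
    unfold thr at he1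
    omega
  have hmod : (n - d) % (4 * p) = 1 := by
    obtain ⟨m, hm⟩ : ∃ m, n = m + 1 := ⟨n - 1, by omega⟩
    obtain ⟨P, hP⟩ : ∃ P, 4 * p = P + 1 := ⟨4 * p - 1, by omega⟩
    have h1 : δ ≡ p * e + P * m [MOD (P + 1)] := by
      have e1 : 4 * p - 1 = P := by omega
      have e2 : n - 1 = m := by omega
      rw [hδ, e1, e2, hP]
      exact Nat.mod_modEq _ _
    have h2 : n - d + (p * e + P * m) ≡ 1 + (p * e + P * m) [MOD (P + 1)] := by
      have h3 : n - d + p * e = n + δ := by omega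
      have h4 : n - d + (p * e + P * m) = n + δ + P * m := by omega
      rw [h4]
      have h5 : n + δ + P * m ≡ n + (p * e + P * m) + P * m [MOD (P + 1)] :=
        ((h1.add_left n).add_right (P * m))
      refine h5.trans ?_
      have h6 : n + (p * e + P * m) + P * m = 1 + (p * e + P * m) + (P + 1) * m := by
        rw [hm]; ring
      rw [h6]
      exact (Nat.modEq_iff_dvd' (Nat.le_add_right _ _)).mpr (by
        rw [Nat.add_sub_cancel_left]; exact Dvd.intro _ rfl) |>.symm
    have h3 := Nat.ModEq.add_right_cancel' _ h2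
    rw [← hP] at h3
    have h4 : (n - d) % (4 * p) = 1 % (4 * p) := h3
    rw [h4, Nat.mod_eq_of_lt (by omega)]
  -- the degree bound
  have hcard : (idx p d n).card ≤ (p - 1) * (e + 1) := by
    have h1 := card_idx p d n (by omega)
    have h2 : (p - 1) * (d + 1) ≤ p * ((p - 1) * (e + 1)) := by
      have h3 : d + 1 ≤ p * (e + 1) := by
        have : p * (e + 1) = p * e + p := by ring
        omega
      calc (p - 1) * (d + 1) ≤ (p - 1) * (p * (e + 1)) := Nat.mul_le_mul_left _ h3
        _ = p * ((p - 1) * (e + 1)) := by ring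
    exact Nat.le_of_mul_le_mul_left (h1.trans h2) (by omega)
  have hhalf : d / 2 ≤ (p - 1) * (e + 1) := by
    have h1 : d ≤ 2 * ((p - 1) * (e + 1)) := by
      have h2 : p ≤ 2 * (p - 1) := by omega
      calc d ≤ p * e := by omega
        _ ≤ (2 * (p - 1)) * e := Nat.mul_le_mul_right _ h2
        _ ≤ (2 * (p - 1)) * (e + 1) := Nat.mul_le_mul_left _ (by omega)
        _ = 2 * ((p - 1) * (e + 1)) := by ring
    omega
  have hdeg : p * (d * Fintype.card K ^ (idx p d n).card + (lcmPoly K (d / 2)).natDegree) + 1 ≤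
      n := by
    have h1 := natDegree_lcmPoly_le (K := K) (d / 2)
    rw [hqdef] at h1 ⊢
    have h2 : q ^ (idx p d n).card ≤ q ^ ((p - 1) * (e + 1)) :=
      Nat.pow_le_pow_right (by omega) hcard
    have h3 : q ^ (d / 2) ≤ q ^ ((p - 1) * (e + 1)) := Nat.pow_le_pow_right (by omega) hhalf
    have h4 : d * q ^ (idx p d n).card + (lcmPoly K (d / 2)).natDegree ≤
        (p * e + 2) * q ^ ((p - 1) * (e + 1)) := by
      calc d * q ^ (idx p d n).card + (lcmPoly K (d / 2)).natDegree
          ≤ (p * e) * q ^ ((p - 1) * (e + 1)) + 2 * q ^ ((p - 1) * (e + 1)) :=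
            Nat.add_le_add (Nat.mul_le_mul (by omega) h2) (h1.trans (Nat.mul_le_mul_left _ h3))
        _ = (p * e + 2) * q ^ ((p - 1) * (e + 1)) := by ring
    have h5 := Nat.mul_le_mul_left p h4
    unfold thr at he1
    omega
  obtain ⟨A, hA1, hA2, hA3⟩ := primefree_odd (K := K) p hp2 d n (by omega) (by omega) hmod hdeg
  exact ⟨e, d, A, he1, he2, by omega, hA1, hA2, hA3⟩

/-- Prime-free intervals in every degree, odd characteristic. -/
theorem primefree_odd_all (p : ℕ) [hp : Fact p.Prime] [CharP K p] (hp2 : p ≠ 2) :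
    ∃ c : ℝ, 0 < c ∧ ∀ n : ℕ, 2 ≤ n → ∃ (A : K[X]) (h : ℕ), A.Monic ∧ A.natDegree = n ∧
      c * ((n : ℝ) / Real.log n) ^ ((p : ℝ) / ((p : ℝ) - 1)) ≤ (Fintype.card K : ℝ) ^ h ∧
      ∀ B : K[X], (B - A).degree < (h : WithBot ℕ) → ¬ Irreducible B := by
  have hp3 : 3 ≤ p := by
    have := hp.out.two_le
    omega
  have hpR : (3 : ℝ) ≤ p := by exact_mod_cast hp3
  set θ : ℝ := (p : ℝ) / ((p : ℝ) - 1) with hθ
  have hθ0 : 0 < θ := by rw [hθ]; apply div_pos <;> linarith
  have hq3 : 3 ≤ Fintype.card K := by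
    have h1 : p ≤ Fintype.card K := by
      have h2 : p ∣ Fintype.card K := by
        rw [← CharP.cast_eq_zero_iff K p]
        exact FiniteField.cast_card_eq_zero K
      exact Nat.le_of_dvd Fintype.card_pos h2
    omega
  set q : ℝ := (Fintype.card K : ℝ) with hqdef
  have hq : (3 : ℝ) ≤ q := by rw [hqdef]; exact_mod_cast hq3
  set N₀ := thr p (Fintype.card K) 5 with hN₀
  have hN₀1 : (1 : ℝ) ≤ N₀ := by
    have : 1 ≤ N₀ := by rw [hN₀]; unfold thr; omega
    exact_mod_cast this
  have hlog2 : 0 < Real.log 2 := Real.log_pos (by norm_num)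
  set c₁ : ℝ := (((p : ℝ) * (p + 2)) ^ θ * q ^ (6 * p))⁻¹ with hc₁
  set c₂ : ℝ := (((N₀ : ℝ) / Real.log 2) ^ θ)⁻¹ with hc₂
  have hc₁0 : 0 < c₁ := by rw [hc₁]; positivity
  have hc₂0 : 0 < c₂ := by
    rw [hc₂]
    have : 0 < (N₀ : ℝ) / Real.log 2 := by positivity
    positivity
  refine ⟨min c₁ c₂, lt_min hc₁0 hc₂0, ?_⟩
  intro n hn
  have hnR : (2 : ℝ) ≤ n := by exact_mod_cast hn
  have hlogn : Real.log 2 ≤ Real.log n := Real.log_le_log (by norm_num) hnR
  have hlogn0 : 0 < Real.log n := lt_of_lt_of_le hlog2 hlogn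
  have hx0 : 0 ≤ ((n : ℝ) / Real.log n) ^ θ := by positivity
  rcases Nat.lt_or_ge n N₀ with hlt | hge
  · refine ⟨X ^ n, 0, monic_X_pow n, natDegree_X_pow n, ?_, ?_⟩
    · have h1 : ((n : ℝ) / Real.log n) ≤ (N₀ : ℝ) / Real.log 2 := by
        apply div_le_div₀ (by positivity) (by exact_mod_cast hlt.le) hlog2 hlogn
      have h2 : ((n : ℝ) / Real.log n) ^ θ ≤ ((N₀ : ℝ) / Real.log 2) ^ θ :=
        Real.rpow_le_rpow (by positivity) h1 hθ0.le
      calc min c₁ c₂ * ((n : ℝ) / Real.log n) ^ θ ≤ c₂ * ((n : ℝ) / Real.log n) ^ θ :=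
            mul_le_mul_of_nonneg_right (min_le_right _ _) hx0
        _ ≤ c₂ * ((N₀ : ℝ) / Real.log 2) ^ θ := mul_le_mul_of_nonneg_left h2 hc₂0.le
        _ = 1 := by
          rw [hc₂]
          have : ((N₀ : ℝ) / Real.log 2) ^ θ ≠ 0 := by positivity
          field_simp
        _ = q ^ 0 := by simp
    · intro B hB hirr
      have h1 : B - X ^ n = 0 := by
        rw [← degree_eq_bot]
        exact Nat.WithBot.lt_zero_iff.mp (by exact_mod_cast hB)
      rw [sub_eq_zero.mp h1] at hirr
      exact (not_irreducible_pow (by omega)) hirr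
  · obtain ⟨e, d, A, he1, he2, hd, hA1, hA2, hA3⟩ := primefree_odd_nat (K := K) p hp2 n hge
    refine ⟨A, d, hA1, hA2, ?_, hA3⟩
    have hq0 : 0 < q := by linarith
    -- upper bound for `n`
    have h1 : (n : ℝ) ≤ p * ((p * (e + 1) + 2) * q ^ ((p - 1) * (e + 2))) := by
      have h2 : n ≤ p * ((p * (e + 1) + 2) * Fintype.card K ^ ((p - 1) * (e + 1 + 1))) := by
        unfold thr at he2
        omega
      have h3 : (n : ℝ) ≤ ((p * ((p * (e + 1) + 2) * Fintype.card K ^ ((p - 1) * (e + 1 + 1))) : ℕ)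
          : ℝ) := by exact_mod_cast h2
      refine h3.trans (le_of_eq ?_)
      push_cast
      rw [← hqdef]
    -- lower bound for the logarithm
    have h2 : (e : ℝ) + 1 ≤ Real.log n := by
      have h3 : q ^ ((p - 1) * (e + 1)) ≤ n := by
        have h4 : Fintype.card K ^ ((p - 1) * (e + 1)) ≤ n := by
          unfold thr at he1
          have h5 : Fintype.card K ^ ((p - 1) * (e + 1)) ≤
              p * ((p * e + 2) * Fintype.card K ^ ((p - 1) * (e + 1))) := by
            calc Fintype.card K ^ ((p - 1) * (e + 1))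
                ≤ (p * e + 2) * Fintype.card K ^ ((p - 1) * (e + 1)) :=
                  Nat.le_mul_of_pos_left _ (by omega)
              _ ≤ _ := Nat.le_mul_of_pos_left _ (by omega)
          omega
        rw [hqdef]
        exact_mod_cast h4
      have h5 : Real.exp ((e : ℝ) + 1) ≤ n := by
        refine le_trans ?_ h3
        have h6 : Real.exp 1 ≤ q := by
          have := Real.exp_one_lt_d9
          linarith
        calc Real.exp ((e : ℝ) + 1) = Real.exp 1 ^ (e + 1) := by
              rw [← Real.exp_nat_mul]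
              push_cast
              ring_nf
          _ ≤ q ^ (e + 1) := pow_le_pow_left₀ (Real.exp_pos 1).le h6 _
          _ ≤ q ^ ((p - 1) * (e + 1)) :=
              pow_le_pow_right₀ (by linarith) (Nat.le_mul_of_pos_left _ (by omega))
      rw [Real.le_log_iff_exp_le (by linarith)]
      exact h5
    have he0 : (0 : ℝ) < (e : ℝ) + 1 := by positivity
    have h3 : (n : ℝ) / Real.log n ≤ ((p : ℝ) * (p + 2)) * q ^ ((p - 1) * (e + 2)) := by
      rw [div_le_iff₀ hlogn0]
      refine h1.trans ?_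
      have h4 : (p : ℝ) * ((p * (e + 1) + 2) * q ^ ((p - 1) * (e + 2))) ≤
          ((p : ℝ) * (p + 2)) * q ^ ((p - 1) * (e + 2)) * (e + 1) := by
        have h5 : (p : ℝ) * (e + 1) + 2 ≤ (p + 2) * (e + 1) := by nlinarith
        have h6 : 0 ≤ (p : ℝ) * q ^ ((p - 1) * (e + 2)) := by positivity
        calc (p : ℝ) * ((p * (e + 1) + 2) * q ^ ((p - 1) * (e + 2)))
            = ((p : ℝ) * q ^ ((p - 1) * (e + 2))) * (p * (e + 1) + 2) := by ring
          _ ≤ ((p : ℝ) * q ^ ((p - 1) * (e + 2))) * ((p + 2) * (e + 1)) :=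
              mul_le_mul_of_nonneg_left h5 h6
          _ = _ := by ring
      refine h4.trans ?_
      apply mul_le_mul_of_nonneg_left h2
      positivity
    have h4 : (q ^ ((p - 1) * (e + 2))) ^ θ = q ^ (p * (e + 2)) := by
      rw [← Real.rpow_natCast, ← Real.rpow_mul hq0.le, ← Real.rpow_natCast]
      congr 1
      rw [hθ]
      have hp1 : (p : ℝ) - 1 ≠ 0 := by
        have : (0 : ℝ) < (p : ℝ) - 1 := by linarith
        exact this.ne'
      push_cast [Nat.cast_sub (by omega : 1 ≤ p)]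
      field_simp
    have h5 : ((n : ℝ) / Real.log n) ^ θ ≤ ((p : ℝ) * (p + 2)) ^ θ * q ^ (p * (e + 2)) := by
      calc ((n : ℝ) / Real.log n) ^ θ
          ≤ (((p : ℝ) * (p + 2)) * q ^ ((p - 1) * (e + 2))) ^ θ :=
            Real.rpow_le_rpow (by positivity) h3 hθ0.le
        _ = ((p : ℝ) * (p + 2)) ^ θ * (q ^ ((p - 1) * (e + 2))) ^ θ :=
            Real.mul_rpow (by positivity) (by positivity)
        _ = _ := by rw [h4]
    have h6 : q ^ (p * (e + 2)) ≤ q ^ (6 * p) * q ^ d := by
      rw [← pow_add]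
      apply pow_le_pow_right₀ (by linarith)
      have : p * (e + 2) = p * e + 2 * p := by ring
      omega
    calc min c₁ c₂ * ((n : ℝ) / Real.log n) ^ θ ≤ c₁ * ((n : ℝ) / Real.log n) ^ θ :=
          mul_le_mul_of_nonneg_right (min_le_left _ _) hx0
      _ ≤ c₁ * (((p : ℝ) * (p + 2)) ^ θ * (q ^ (6 * p) * q ^ d)) := by
          apply mul_le_mul_of_nonneg_left _ hc₁0.le
          refine h5.trans ?_
          apply mul_le_mul_of_nonneg_left h6
          positivity
      _ = q ^ d := by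
          rw [hc₁]
          have h7 : ((p : ℝ) * (p + 2)) ^ θ ≠ 0 := by positivity
          have h8 : q ^ (6 * p) ≠ 0 := by positivity
          field_simp

end odd

end Pool.Agent.H524
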