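import Mathlib
import Pool.Agent.H524.EvenD

/-!
Characteristic two, residue classes: lifted polynomials for `A ^ 4 + N ^ 4 * H`.
-/

namespace Pool.Agent.H524

set_option linter.unusedSectionVars false
set_option maxHeartbeats 400000

open Polynomial

section liftpoly

local instance : Fact (Nat.Prime 2) := ⟨Nat.prime_two⟩

variable {K : Type*} [Field K] [Fintype K] [CharP K 2]

/-- A polynomial with zero derivative is a square. -/
lemma exists_sqrt (P : K[X]) (h : derivative P = 0) : ∃ Q : K[X], P = Q ^ 2 := by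
  have : ExpChar K 2 := ExpChar.prime Nat.prime_two
  have h1 := expand_contract 2 h (by norm_num)
  let e : K →+* K := (frobeniusEquiv K 2).symm.toRingHom
  refine ⟨map e (contract 2 P), ?_⟩
  rw [← map_frobenius_expand (p := 2)]
  rw [map_expand, map_map]
  have h2 : (frobenius K 2).comp e = RingHom.id K := by
    ext x
    show frobenius K 2 ((frobeniusEquiv K 2).symm x) = x
    exact frobenius_apply_frobeniusEquiv_symm K 2 x
  rw [h2, map_id, h1]

/-- Lifts of polynomials. -/
lemma exists_lift (P : K[X]) :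
    ∃ P' : (WittVector 2 K)[X], P'.map (red K) = P ∧ P'.natDegree = P.natDegree := by
  have h : P ∈ lifts (red K) := by
    rw [lifts_iff_coeff_lifts]
    intro n
    exact WittVector.constantCoeff_surjective 2 _
  exact exists_natDegree_eq_of_mem_lifts h

/-- The package of lifted polynomials for a residue class. -/
lemma exists_prog_package (A N H : K[X]) (hN : N.Monic) (hH : H.Monic) (j : ℕ)
    (hj : H.natDegree = j) (hj1 : 1 ≤ j) (hder : derivative H ≠ 0)
    (hdiv : ∀ B : K[X], B ≠ 0 → B.natDegree ≤ j / 2 → B ∣ A)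
    (hdeg : 4 * A.natDegree + j ≤ 4 * N.natDegree) :
    ∃ F' N' H' W Z : (WittVector 2 K)[X],
      F'.Monic ∧ F'.map (red K) = A ^ 4 + N ^ 4 * H ∧
      H'.Monic ∧ H'.map (red K) = H ∧ H'.natDegree = j ∧
      N'.Monic ∧ N'.natDegree = N.natDegree ∧
      F' = N' ^ 4 * H' + derivative H' * W ∧
      W.natDegree + (j - 1) ≤ 4 * N.natDegree + j ∧
      derivative F' = N' ^ 4 * derivative H' + 4 * Z ∧
      Z.map (red K) = N ^ 3 * derivative N * H + A ^ 3 * derivative A := by
  obtain ⟨Q, hQ⟩ := exists_sqrt (derivative H) (derivative_derivative_char_two H)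
  have hQ0 : Q ≠ 0 := by
    rintro rfl
    rw [zero_pow two_ne_zero] at hQ
    exact hder hQ
  have hQd : 2 * Q.natDegree ≤ j - 1 := by
    have h1 := natDegree_derivative_le H
    rw [hQ, natDegree_pow, hj] at h1
    exact h1
  obtain ⟨w, hw⟩ : Q ∣ A := hdiv Q hQ0 (by omega)
  obtain ⟨H', hH'1, hH'2, hH'3⟩ := exists_monic_lift H hH
  obtain ⟨N', hN'1, hN'2, hN'3⟩ := exists_monic_lift N hN
  obtain ⟨Q', hQ'1, hQ'2⟩ := exists_lift Q
  obtain ⟨w', hw'1, hw'2⟩ := exists_lift w
  have hwd : w.natDegree ≤ A.natDegree := by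
    rcases eq_or_ne w 0 with h | h
    · rw [h, natDegree_zero]; exact Nat.zero_le _
    · rw [hw, natDegree_mul hQ0 h]; omega
  obtain ⟨T, hT⟩ : ∃ T, T = derivative H' := ⟨_, rfl⟩
  have hTred : T.map (red K) = Q ^ 2 := by rw [hT, ← derivative_map, hH'1, hQ]
  have hTd : T.natDegree ≤ j - 1 := by
    have h1 := natDegree_derivative_le H'
    rw [hH'2, hj] at h1
    rw [hT]
    exact h1
  obtain ⟨E, hE⟩ := exists_two_mul_of_map_zero (T - Q' ^ 2) (by
    rw [Polynomial.map_sub, hTred, Polynomial.map_pow, hQ'1, sub_self])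
  have hTE : T = Q' ^ 2 + 2 * E := by linear_combination hE
  obtain ⟨V, hV⟩ : ∃ V, V = (2 * Q' ^ 2 - T) * w' ^ 4 := ⟨_, rfl⟩
  have hVd : V.natDegree ≤ (j - 1) + 4 * w.natDegree := by
    rw [hV]
    refine natDegree_mul_le.trans ?_
    have h1 : (2 * Q' ^ 2 - T).natDegree ≤ j - 1 := by
      refine (natDegree_sub_le _ _).trans (max_le ?_ hTd)
      rw [← map_ofNat C 2]
      refine (natDegree_C_mul_le _ _).trans (natDegree_pow_le.trans ?_)
      rw [hQ'2]
      exact hQd
    have h2 : (w' ^ 4).natDegree ≤ 4 * w.natDegree := by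
      refine natDegree_pow_le.trans ?_
      rw [hw'2]
    omega
  have hTV : T * V = (Q' ^ 4 - 4 * E ^ 2) * w' ^ 4 := by
    rw [hV, hTE]; ring
  have hTVd : (T * V).natDegree ≤ 2 * (j - 1) + 4 * w.natDegree := by
    refine natDegree_mul_le.trans ?_
    omega
  have hNHm : (N' ^ 4 * H').Monic := (hN'3.pow 4).mul hH'3
  have hNHd : (N' ^ 4 * H').natDegree = 4 * N.natDegree + j := by
    rw [(hN'3.pow 4).natDegree_mul hH'3, hN'3.natDegree_pow, hN'2, hH'2, hj]
  have h4K : (4 : K[X]) = 0 := by
    have : (4 : K[X]) = 2 * 2 := by norm_num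
    rw [this, two_eq_zero_poly, zero_mul]
  refine ⟨N' ^ 4 * H' + T * V, N', H', V,
    N' ^ 3 * derivative N' * H' + (Q' ^ 3 * derivative Q' - 2 * E * derivative E) * w' ^ 4 +
      (Q' ^ 4 - 4 * E ^ 2) * (w' ^ 3 * derivative w'), ?_, ?_, hH'3, hH'1, by rw [hH'2, hj],
      hN'3, hN'2, by rw [hT], by omega, ?_, ?_⟩
  · apply hNHm.add_of_left
    refine (degree_le_natDegree.trans_lt ?_)
    rw [degree_eq_natDegree hNHm.ne_zero, hNHd]
    exact_mod_cast (by omega : (T * V).natDegree < 4 * N.natDegree + j)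
  · rw [Polynomial.map_add, hTV]
    simp only [Polynomial.map_mul, Polynomial.map_sub, Polynomial.map_pow, hN'1, hH'1, hQ'1, hw'1,
      Polynomial.map_ofNat]
    rw [h4K, hw]
    ring
  · rw [hTV, derivative_add, derivative_mul, derivative_pow, derivative_mul, derivative_sub,
      derivative_mul, derivative_pow, derivative_pow, derivative_pow]
    have h4 : derivative (4 : (WittVector 2 K)[X]) = 0 := by
      rw [← map_ofNat C 4, derivative_C]
    rw [h4]
    simp only [Nat.cast_ofNat, map_ofNat]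
    ring
  · simp only [Polynomial.map_add, Polynomial.map_mul, Polynomial.map_sub, Polynomial.map_pow,
      ← derivative_map, hN'1, hH'1, hQ'1, hw'1, Polynomial.map_ofNat]
    rw [h4K, two_eq_zero_poly, hw, derivative_mul]
    ring

end liftpoly

end Pool.Agent.H524
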