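import Mathlib
import Pool.Agent.H524.ProgA

/-!
Characteristic two, residue classes: the comparison of the two discriminants modulo eight.
-/

namespace Pool.Agent.H524

set_option linter.unusedSectionVars false
set_option maxHeartbeats 400000

open Polynomial

lemma sum_prod_eq_coeff' {E : Type*} [Field E] {n : ℕ} (α : Fin n → E)
    (hα : Function.Injective α) (P : E[X]) (hP : P.degree < n) :
    ∑ i, P.eval (α i) * ∏ j ∈ Finset.univ.erase i,
      (∏ k ∈ Finset.univ.erase j, (α j - α k)) =
    (∏ j, (∏ k ∈ Finset.univ.erase j, (α j - α k))) * P.coeff (n - 1) := by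
  classical
  have h := Lagrange.coeff_eq_sum (s := (Finset.univ : Finset (Fin n))) (v := α)
    (hα.injOn) (P := P) (by simpa using hP)
  rw [Finset.card_univ, Fintype.card_fin] at h
  rw [h, Finset.mul_sum]
  apply Finset.sum_congr rfl
  intro i _
  rw [← Finset.mul_prod_erase Finset.univ _ (Finset.mem_univ i)]
  have hD : ∏ k ∈ Finset.univ.erase i, (α i - α k) ≠ 0 := by
    rw [Finset.prod_ne_zero_iff]
    intro k hk
    rw [sub_ne_zero]
    intro h
    exact (Finset.ne_of_mem_erase hk) (hα h).symm
  field_simp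

/-- The comparison of the two discriminants modulo eight, for a residue class. -/
lemma vdm_mod_eight_prog {R E : Type*} [CommRing R] [Field E] (c : R →+* E) (h2E : (2 : E) = 0)
    (h2R : ∀ x, c x = 0 → (2 : R) ∣ x)
    {n j ν : ℕ} (hn : n = 4 * ν + j) (v : Fin n → R) (u : Fin j → R) (F N H W Z : R[X])
    (hF : F = ∏ i, (X - C (v i))) (hH : H = ∏ i, (X - C (u i)))
    (hNm : N.Monic) (hNd : N.natDegree = ν)
    (hFH : F = N ^ 4 * H + derivative H * W) (hW : W.natDegree + (j - 1) ≤ n)
    (hder : derivative F = N ^ 4 * derivative H + 4 * Z)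
    (hZ : (Z.map c).degree < (n : WithBot ℕ)) (hZc : (Z.map c).coeff (n - 1) = ν)
    (hv : c (vdm v) ≠ 0) :
    (8 : R) ∣ (-1) ^ (n * (n - 1) / 2) * vdm v ^ 2 -
      (1 + 4 * ν) * ((∏ i, N.eval (v i)) ^ 4 * (resultant N (derivative H) ν (j - 1)) ^ 4 *
        ((-1) ^ (j * (j - 1) / 2) * vdm u ^ 2)) := by
  classical
  have hnt : Nontrivial R := c.domain_nontrivial
  have hHm : H.Monic := by rw [hH]; exact monic_prod_of_monic _ _ (fun i _ => monic_X_sub_C _)
  have hHd : H.natDegree = j := by
    rw [hH, natDegree_prod_of_monic _ _ (fun i _ => monic_X_sub_C _)]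
    simp
  have hTd : (derivative H).natDegree ≤ j - 1 := by
    have := natDegree_derivative_le H
    rwa [hHd] at this
  have hvv : ∀ i, F.eval (v i) = 0 := by
    intro i
    rw [hF, eval_prod]
    exact Finset.prod_eq_zero (Finset.mem_univ i) (by simp)
  have h4 : c (4 : R) = 0 := by
    have : (4 : R) = 2 * 2 := by norm_num
    rw [this, map_mul, map_ofNat, h2E, zero_mul]
  -- the product over the roots
  have hdv : ∀ i, (derivative F).eval (v i) =
      (N ^ 4 * derivative H).eval (v i) + 4 * Z.eval (v i) := by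
    intro i
    rw [hder, eval_add, eval_mul (p := 4), eval_ofNat]
  obtain ⟨r, hr⟩ := prod_add_four Finset.univ (fun i => (N ^ 4 * derivative H).eval (v i))
    (fun i => Z.eval (v i))
  rw [← Finset.prod_congr rfl (fun i _ => hdv i)] at hr
  have hprodF : ∏ i, (derivative F).eval (v i) = (-1) ^ (n * (n - 1) / 2) * vdm v ^ 2 := by
    rw [hF, prod_eval_derivative]
  rw [hprodF] at hr
  -- reductions of the roots
  obtain ⟨α, hα⟩ : ∃ α : Fin n → E, ∀ i, α i = c (v i) := ⟨fun i => c (v i), fun _ => rfl⟩
  have hαinj : Function.Injective α := by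
    rw [map_vdm] at hv
    have : α = fun i => c (v i) := funext hα
    rw [this]
    exact Matrix.det_vandermonde_ne_zero_iff.mp hv
  have hared : ∀ i, c ((N ^ 4 * derivative H).eval (v i)) =
      ∏ k ∈ Finset.univ.erase i, (α i - α k) := by
    intro i
    have h1 : (N ^ 4 * derivative H).eval (v i) =
        (derivative F).eval (v i) - 4 * Z.eval (v i) := by
      rw [hdv i]; ring
    rw [h1, map_sub, map_mul, h4, zero_mul, sub_zero, hF, eval_derivative_prod_X_sub_C, map_prod]
    apply Finset.prod_congr rfl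
    intro k _
    rw [map_sub, hα k, hα i]
  have hsum : c (∑ i, Z.eval (v i) * ∏ k ∈ Finset.univ.erase i,
      (N ^ 4 * derivative H).eval (v k) - ν * ∏ i, (N ^ 4 * derivative H).eval (v i)) = 0 := by
    rw [map_sub, map_sum, map_mul, map_natCast, map_prod]
    have h1 : ∀ i, c (Z.eval (v i) * ∏ k ∈ Finset.univ.erase i,
        (N ^ 4 * derivative H).eval (v k)) =
        (Z.map c).eval (α i) * ∏ k ∈ Finset.univ.erase i,
          (∏ l ∈ Finset.univ.erase k, (α k - α l)) := by
      intro i
      rw [map_mul, map_prod, hα i, eval_map_apply]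
      congr 1
      exact Finset.prod_congr rfl (fun k _ => hared k)
    rw [Finset.sum_congr rfl (fun i _ => h1 i), sum_prod_eq_coeff' α hαinj _ hZ, hZc,
      Finset.prod_congr rfl (fun i _ => hared i)]
    ring
  obtain ⟨y, hy⟩ := h2R _ hsum
  -- the main product
  have hNHd : (N ^ 4 * H).natDegree ≤ n := by
    rw [(hNm.pow 4).natDegree_mul hHm, hNm.natDegree_pow, hNd, hHd, hn]
  have hres := resultant_compare (le_refl n) hFH hTd hW hNHd
  have hr1 := resultant_prod_linear v (derivative H) (j - 1) hTd
  rw [← hF] at hr1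
  have hr2 := resultant_prod_linear u (derivative H) (j - 1) hTd
  rw [← hH] at hr2
  have hr3 : resultant (N ^ 4 * H) (derivative H) n (j - 1) =
      resultant N (derivative H) ν (j - 1) ^ 4 * resultant H (derivative H) j (j - 1) := by
    have h1 := resultant_mul_left (N ^ 4) H (derivative H) (j - 1) hTd
    rw [resultant_pow_left (hf := by rw [hNm.leadingCoeff]; simp) (hn := hTd), hNd, hHd,
      hNm.natDegree_pow, hNd] at h1
    rw [hn]
    exact h1
  rw [Nat.sub_self, pow_zero, mul_one, hr1, hr3, hr2] at hres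
  have hsgn : (-1 : R) ^ (n * (j - 1) + (j - 1) * n) = 1 := by
    have : n * (j - 1) + (j - 1) * n = 2 * (n * (j - 1)) := by ring
    rw [this, pow_mul]; simp
  rw [hsgn, one_mul] at hres
  have hu : ∏ i, (derivative H).eval (u i) = (-1) ^ (j * (j - 1) / 2) * vdm u ^ 2 := by
    rw [hH, prod_eval_derivative]
  rw [hu] at hres
  have hmain : ∏ i, (N ^ 4 * derivative H).eval (v i) =
      (∏ i, N.eval (v i)) ^ 4 * (resultant N (derivative H) ν (j - 1) ^ 4 *
        ((-1) ^ (j * (j - 1) / 2) * vdm u ^ 2)) := by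
    rw [← hres, ← Finset.prod_pow, ← Finset.prod_mul_distrib]
    apply Finset.prod_congr rfl
    intro i _
    rw [eval_mul, eval_pow]
  rw [hmain] at hr hy
  refine ⟨y + 2 * r, ?_⟩
  linear_combination hr + 4 * hy

end Pool.Agent.H524
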