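import Mathlib
import Pool.Agent.H524.ProgB

/-!
Characteristic two, residue classes: the parity obstruction for `A ^ 4 + N ^ 4 * H`.
-/

namespace Pool.Agent.H524

set_option linter.unusedSectionVars false
set_option maxHeartbeats 400000

open Polynomial

section main

local instance : Fact (Nat.Prime 2) := ⟨Nat.prime_two⟩

variable {K : Type*} [Field K] [Fintype K] [CharP K 2]

/-- A lift of a primitive cube root of unity, moved by Frobenius. -/
lemma exists_omega' (h3 : Fintype.card K % 3 = 2) :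
    ∃ z : WittVector 2 (AC K), (1 + 2 * z) ^ 2 = -3 ∧ frobLift K (1 + 2 * z) = -(1 + 2 * z) := by
  classical
  have h30 : ((3 : ℕ) : AC K) ≠ 0 := by
    have : (2 : AC K) = 0 := by
      have := CharP.cast_eq_zero (AC K) 2
      exact_mod_cast this
    have h : ((3 : ℕ) : AC K) = 1 := by
      push_cast
      have : (3 : AC K) = 2 + 1 := by norm_num
      rw [this, ‹(2 : AC K) = 0›, zero_add]
    rw [h]
    exact one_ne_zero
  have : NeZero ((3 : ℕ) : AC K) := ⟨h30⟩
  obtain ⟨ζ, hζ⟩ := HasEnoughRootsOfUnity.exists_primitiveRoot (AC K) 3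
  have hz3 : ζ ^ 3 = 1 := hζ.pow_eq_one
  have hz1 : ζ ≠ 1 := hζ.ne_one (by norm_num)
  let z : WittVector 2 (AC K) := WittVector.teichmuller 2 ζ
  have hz : z ^ 3 = 1 := by
    show (WittVector.teichmuller 2 ζ) ^ 3 = 1
    rw [← map_pow, hz3, map_one]
  have hzne : z - 1 ≠ 0 := by
    intro h
    have h2 : red (AC K) z = 1 := by rw [sub_eq_zero.mp h, map_one]
    have h3 : red (AC K) z = ζ := WittVector.teichmuller_coeff_zero 2 ζ
    rw [h3] at h2
    exact hz1 h2
  have hq : z ^ 2 + z + 1 = 0 := by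
    have h2 : (z - 1) * (z ^ 2 + z + 1) = 0 := by linear_combination hz
    rcases mul_eq_zero.mp h2 with h | h
    · exact absurd h hzne
    · exact h
  have hfr : frobLift K z = z ^ 2 := by
    show WittVector.map (FiniteField.frobeniusAlgHom K (AC K)).toRingHom
      (WittVector.teichmuller 2 ζ) = (WittVector.teichmuller 2 ζ) ^ 2
    rw [WittVector.map_teichmuller, ← map_pow]
    congr 1
    show ζ ^ Fintype.card K = ζ ^ 2
    have h5 : Fintype.card K = 3 * (Fintype.card K / 3) + 2 := by omega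
    rw [h5, pow_add, pow_mul, hz3, one_pow, one_mul]
  refine ⟨z, by linear_combination 4 * hq, ?_⟩
  rw [map_add, map_mul, map_one, map_ofNat, hfr]
  linear_combination 2 * hq

/-- The parity obstruction for residue classes modulo fourth powers. -/
theorem prog_core (A N H : K[X]) (hN : N.Monic) (hNo : Odd N.natDegree) (hH : H.Monic) (j : ℕ)
    (hj : H.natDegree = j) (hj1 : 1 ≤ j)
    (hdiv : ∀ B : K[X], B ≠ 0 → B.natDegree ≤ j / 2 → B ∣ A)
    (hdeg : 4 * A.natDegree + j ≤ 4 * N.natDegree) (h3 : Fintype.card K % 3 = 2) :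
    ¬ Irreducible (A ^ 4 + N ^ 4 * H) := by
  intro hF
  have hN0 : 0 < N.natDegree := by
    obtain ⟨k, hk⟩ := hNo
    omega
  have hNHm : (N ^ 4 * H).Monic := (hN.pow 4).mul hH
  have hNHd : (N ^ 4 * H).natDegree = 4 * N.natDegree + j := by
    rw [(hN.pow 4).natDegree_mul hH, hN.natDegree_pow, hj]
  have hAd : (A ^ 4).natDegree ≤ 4 * A.natDegree := natDegree_pow_le
  have hFd : (A ^ 4 + N ^ 4 * H).natDegree = 4 * N.natDegree + j := by
    rw [natDegree_add_eq_right_of_natDegree_lt (by rw [hNHd]; omega), hNHd]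
  have hHirr : Irreducible H := by
    have hH1 : H ≠ 1 := by
      intro h
      rw [h, natDegree_one] at hj
      omega
    rw [hH.irreducible_iff_lt_natDegree_lt hH1]
    intro q hq hqd hdvd
    rw [Finset.mem_Ioc, hj] at hqd
    have h1 : q ∣ A ^ 4 + N ^ 4 * H :=
      dvd_add (dvd_pow (hdiv q hq.ne_zero hqd.2) (by norm_num)) (Dvd.dvd.mul_left hdvd _)
    obtain ⟨e, he⟩ := h1
    rcases hF.isUnit_or_isUnit he with h | h
    · have := natDegree_eq_zero_of_isUnit h
      omega
    · have h2 := natDegree_eq_zero_of_isUnit h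
      have he0 : e ≠ 0 := h.ne_zero
      rw [he, natDegree_mul hq.ne_zero he0, h2] at hFd
      omega
  have hderH : derivative H ≠ 0 := by
    have hsep : H.Separable := PerfectField.separable_of_irreducible hHirr
    intro h0
    rw [separable_def, h0, isCoprime_zero_right] at hsep
    exact hHirr.not_isUnit hsep
  obtain ⟨F', N', H', W, Z, hF'm, hF'r, hH'm, hH'r, hH'd, hN'm, hN'd, hFHW, hWd, hder, hZ⟩ :=
    exists_prog_package A N H hN hH j hj hj1 hderH hdiv hdeg
  have hmapσ : ∀ P : (WittVector 2 K)[X], (P.map (emb K)).map (frobLift K) = P.map (emb K) := by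
    intro P
    rw [Polynomial.map_map]
    have : (frobLift K).comp (emb K) = emb K := RingHom.ext (frobLift_emb K)
    rw [this]
  have hmapc : ∀ P : (WittVector 2 K)[X], (P.map (emb K)).map (red (AC K)) =
      (P.map (red K)).map (algebraMap K (AC K)) := by
    intro P
    rw [Polynomial.map_map, Polynomial.map_map]
    have : (red (AC K)).comp (emb K) = (algebraMap K (AC K)).comp (red K) :=
      RingHom.ext (red_emb K)
    rw [this]
  obtain ⟨a, ha⟩ := exists_root_lift K hF (F'.map (emb K)) (hF'm.map _)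
    (by rw [hmapc, hF'r])
  obtain ⟨b, hb⟩ := exists_root_lift K hHirr (H'.map (emb K)) (hH'm.map _)
    (by rw [hmapc, hH'r])
  obtain ⟨ν, hν⟩ : ∃ ν, N.natDegree = ν := ⟨_, rfl⟩
  rw [hν] at hNo hdeg hN0 hNHd hFd hN'd hWd
  obtain ⟨n, hn⟩ : ∃ n, n = 4 * ν + j := ⟨_, rfl⟩
  rw [← hn] at hFd hWd
  obtain ⟨v, hv1, hv2, hv3⟩ := exists_cycle' (frobLift K) (red (AC K)) (red_frobLift K) hF hFd
    (F'.map (emb K)) (hF'm.map _) (hmapσ _) (by rw [hmapc, hF'r]) a ha
  obtain ⟨u, hu1, hu2, hu3⟩ := exists_cycle' (frobLift K) (red (AC K)) (red_frobLift K) hHirr hj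
    (H'.map (emb K)) (hH'm.map _) (hmapσ _) (by rw [hmapc, hH'r]) b hb
  have h2E : (2 : AC K) = 0 := by
    have := CharP.cast_eq_zero (AC K) 2
    exact_mod_cast this
  -- the coefficient of the perturbation
  have hZd : (Z.map (red K)).natDegree ≤ n - 1 ∧ (Z.map (red K)).coeff (n - 1) = ν := by
    have hNd' : (derivative N).natDegree ≤ ν - 1 := by
      have := natDegree_derivative_le N
      rwa [hν] at this
    have h1 : (N ^ 3 * derivative N * H).natDegree ≤ n - 1 := by
      refine natDegree_mul_le.trans ?_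
      have h2 : (N ^ 3 * derivative N).natDegree ≤ 3 * ν + (ν - 1) := by
        refine natDegree_mul_le.trans ?_
        have h3 : (N ^ 3).natDegree ≤ 3 * ν := by rw [hN.natDegree_pow, hν]
        omega
      omega
    have h2 : (A ^ 3 * derivative A).natDegree < n - 1 ∨ A ^ 3 * derivative A = 0 := by
      rcases Nat.eq_zero_or_pos A.natDegree with h0 | h0
      · right
        rw [derivative_of_natDegree_zero h0, mul_zero]
      · left
        have h3 : (A ^ 3 * derivative A).natDegree ≤ 3 * A.natDegree + (A.natDegree - 1) := by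
          refine natDegree_mul_le.trans ?_
          have h4 : (A ^ 3).natDegree ≤ 3 * A.natDegree := natDegree_pow_le
          have h5 := natDegree_derivative_le A
          omega
        omega
    have hc1 : (N ^ 3 * derivative N * H).coeff (n - 1) = ν := by
      have e1 : n - 1 = (3 * ν + (ν - 1)) + j := by omega
      have h3 : (N ^ 3 * derivative N).natDegree ≤ 3 * ν + (ν - 1) := by
        refine natDegree_mul_le.trans ?_
        have h4 : (N ^ 3).natDegree ≤ 3 * ν := by rw [hN.natDegree_pow, hν]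
        omega
      rw [e1, coeff_mul_add_eq_of_natDegree_le h3 hj.le,
        coeff_mul_add_eq_of_natDegree_le (by rw [hN.natDegree_pow, hν]) hNd']
      have h4 : (N ^ 3).coeff (3 * ν) = 1 := by
        have := hN.pow 3
        rw [Monic, leadingCoeff, hN.natDegree_pow, hν] at this
        exact this
      have h5 : H.coeff j = 1 := by rw [← hj]; exact hH
      have h6 : N.coeff (ν - 1 + 1) = 1 := by
        rw [Nat.sub_add_cancel hN0, ← hν]; exact hN
      rw [h4, h5, coeff_derivative, h6, one_mul, one_mul, mul_one]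
      have h7 : ((ν - 1 + 1 : ℕ) : K) = (ν : K) := by rw [Nat.sub_add_cancel hN0]
      push_cast at h7
      exact h7
    have hc2 : (A ^ 3 * derivative A).coeff (n - 1) = 0 := by
      rcases h2 with h2 | h2
      · exact coeff_eq_zero_of_natDegree_lt h2
      · rw [h2, coeff_zero]
    rw [hZ]
    constructor
    · refine (natDegree_add_le _ _).trans (max_le h1 ?_)
      rcases h2 with h2 | h2
      · exact h2.le
      · rw [h2, natDegree_zero]; exact Nat.zero_le _
    · rw [coeff_add, hc1, hc2, add_zero]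
  have hn1 : 1 ≤ n := by omega
  have key := vdm_mod_eight_prog (red (AC K)) h2E
    (fun x hx => (two_dvd_iff x).mpr hx) hn v u
    (F'.map (emb K)) (N'.map (emb K)) (H'.map (emb K)) (W.map (emb K)) (Z.map (emb K))
    hv1 hu1 (hN'm.map _) (by rw [hN'm.natDegree_map, hN'd])
    (by
      rw [hFHW]
      simp only [Polynomial.map_add, Polynomial.map_mul, Polynomial.map_pow, derivative_map])
    (le_trans (Nat.add_le_add_right natDegree_map_le _) hWd)
    (by
      have h6 := congrArg (fun P => P.map (emb K)) hder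
      simp only [Polynomial.map_add, Polynomial.map_mul, Polynomial.map_pow, ← derivative_map,
        Polynomial.map_ofNat] at h6 ⊢
      exact h6)
    (by
      rw [hmapc]
      refine lt_of_le_of_lt degree_map_le (lt_of_le_of_lt degree_le_natDegree ?_)
      have := hZd.1
      exact_mod_cast (by omega : (Z.map (red K)).natDegree < n))
    (by rw [hmapc, coeff_map, hZd.2, map_natCast])
    hv3
  -- the factors fixed by Frobenius
  obtain ⟨ρ, hρ⟩ : ∃ ρ, ρ = ∏ i, (N'.map (emb K)).eval (v i) := ⟨_, rfl⟩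
  obtain ⟨r, hr⟩ : ∃ r, r = resultant (N'.map (emb K)) (derivative (H'.map (emb K))) ν (j - 1) :=
    ⟨_, rfl⟩
  rw [← hρ, ← hr] at key
  have hσρ : frobLift K ρ = ρ := by
    rw [hρ, map_prod]
    have h1 : ∀ i, frobLift K ((N'.map (emb K)).eval (v i)) =
        (N'.map (emb K)).eval (v (finRotate _ i)) := by
      intro i
      rw [← eval_map_apply, hmapσ, hv2 i]
    rw [Finset.prod_congr rfl (fun i _ => h1 i)]
    exact Equiv.prod_comp (finRotate n) (fun i => (N'.map (emb K)).eval (v i))
  have hσr : frobLift K r = r := by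
    rw [hr, derivative_map, resultant_map_map, frobLift_emb]
  obtain ⟨z, hz1, hz2⟩ := exists_omega' (K := K) h3
  have hsv : frobLift K (vdm v) = (-1) ^ (n - 1) * vdm v := by
    rw [map_vdm, ← vdm_rotate]
    congr 1
    funext i
    exact hv2 i
  have hsu : frobLift K (vdm u) = (-1) ^ (j - 1) * vdm u := by
    rw [map_vdm, ← vdm_rotate]
    congr 1
    funext i
    exact hu2 i
  have hpar : (-1 : WittVector 2 (AC K)) ^ (n - 1) = (-1) ^ (j - 1) := by
    have : n - 1 = 2 * (2 * ν) + (j - 1) := by omega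
    rw [this, pow_add, pow_mul]
    simp
  have htri : (-1 : WittVector 2 (AC K)) ^ (n * (n - 1) / 2) = (-1) ^ (j * (j - 1) / 2) := by
    have h1 : n * (n - 1) / 2 = 2 * (2 * ν * j + 4 * ν * ν - ν) + j * (j - 1) / 2 := by
      have h2 : 2 * (j * (j - 1) / 2) = j * (j - 1) :=
        Nat.mul_div_cancel' (Nat.even_mul_pred_self _).two_dvd
      have h3 : 2 * (n * (n - 1) / 2) = n * (n - 1) :=
        Nat.mul_div_cancel' (Nat.even_mul_pred_self _).two_dvd
      obtain ⟨j', hj'⟩ : ∃ j', j = j' + 1 := ⟨j - 1, by omega⟩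
      obtain ⟨ν', hν'⟩ : ∃ ν', ν = ν' + 1 := ⟨ν - 1, by omega⟩
      have h4 : n * (n - 1) = 4 * (2 * ν * j + 4 * ν * ν - ν) + j * (j - 1) := by
        rw [hn, hj', hν', Nat.add_sub_cancel]
        have h5 : 4 * (ν' + 1) + (j' + 1) - 1 = 4 * (ν' + 1) + j' := by omega
        have h6 : 2 * (ν' + 1) * (j' + 1) + 4 * (ν' + 1) * (ν' + 1) - (ν' + 1) =
            2 * (ν' + 1) * (j' + 1) + 3 * (ν' + 1) + 4 * (ν' + 1) * ν' := by
          have : 2 * (ν' + 1) * (j' + 1) + 4 * (ν' + 1) * (ν' + 1) =
            2 * (ν' + 1) * (j' + 1) + 3 * (ν' + 1) + 4 * (ν' + 1) * ν' + (ν' + 1) := by ring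
          omega
        rw [h5, h6]
        ring
      omega
    rw [h1, pow_add, pow_mul]
    simp
  have hε : ((-1 : WittVector 2 (AC K)) ^ (j * (j - 1) / 2)) ^ 2 = 1 := by
    rw [← pow_mul, mul_comm, pow_mul]
    simp
  have hV : (8 : WittVector 2 (AC K)) ∣ vdm v ^ 2 - ((1 + 2 * z) * (ρ ^ 2 * r ^ 2 * vdm u)) ^ 2 := by
    obtain ⟨y, hy⟩ := key
    rw [htri] at hy
    obtain ⟨k, hk⟩ := hNo
    have hνk : (ν : WittVector 2 (AC K)) = 2 * k + 1 := by rw [hk]; push_cast; ring
    refine ⟨(-1) ^ (j * (j - 1) / 2) * y + (k + 1) * (ρ ^ 4 * r ^ 4 * vdm u ^ 2), ?_⟩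
    rw [mul_pow, hz1]
    rw [hνk] at hy
    linear_combination ((-1 : WittVector 2 (AC K)) ^ (j * (j - 1) / 2)) * hy +
      ((1 + 4 * (2 * (k : WittVector 2 (AC K)) + 1)) * (ρ ^ 4 * r ^ 4 * vdm u ^ 2) - vdm v ^ 2) * hε
  have hU : red (AC K) ((1 + 2 * z) * (ρ ^ 2 * r ^ 2 * vdm u)) ≠ 0 := by
    intro h0
    obtain ⟨y, hy⟩ := hV
    have h1 := congrArg (red (AC K)) hy
    rw [map_sub, map_pow, map_pow, h0, map_mul] at h1
    have h8 : red (AC K) (8 : WittVector 2 (AC K)) = 0 := by
      rw [← two_dvd_iff]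
      exact ⟨4, by norm_num⟩
    rw [h8, zero_mul, zero_pow two_ne_zero, sub_zero] at h1
    exact hv3 (pow_eq_zero_iff two_ne_zero |>.mp h1)
  apply sign_contradiction (frobLift K) (vdm v) ((1 + 2 * z) * (ρ ^ 2 * r ^ 2 * vdm u)) hU hV
  rw [map_mul, map_mul, map_mul, map_pow, map_pow, hσρ, hσr, hz2, hsv, hsu, hpar]
  rcases neg_one_pow_eq_or (WittVector 2 (AC K)) (j - 1) with h | h
  · right
    rw [h]
    constructor <;> ring
  · left
    rw [h]
    constructor <;> ring

end main

end Pool.Agent.H524
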