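import Mathlib
import Pool.Agent.H524.ProgC
import Pool.Agent.H524.EvenE

/-!
Characteristic two, residue classes: a residue class modulo `N ^ 4` without irreducible
polynomials of small degree.
-/

namespace Pool.Agent.H524

set_option linter.unusedSectionVars false
set_option maxHeartbeats 400000

open Polynomial

section main

local instance : Fact (Nat.Prime 2) := ⟨Nat.prime_two⟩

variable {K : Type*} [Field K] [Fintype K]

lemma exists_fourth_root [CharP K 2] (c : K) : ∃ l : K, l ^ 4 = c := by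
  have : ExpChar K 2 := ExpChar.prime Nat.prime_two
  obtain ⟨a, ha⟩ := (frobeniusEquiv K 2).surjective c
  obtain ⟨b, hb⟩ := (frobeniusEquiv K 2).surjective a
  refine ⟨b, ?_⟩
  rw [frobeniusEquiv_apply, frobenius_def] at ha hb
  rw [← ha, ← hb]
  ring

/-- The residue class of `A ^ 4` modulo `N ^ 4`. -/
theorem prog_class [CharP K 2] (D : ℕ) (A N : K[X]) (hN : N.Monic) (hNo : Odd N.natDegree)
    (hdiv : ∀ B : K[X], B ≠ 0 → B.natDegree ≤ D → B ∣ A)
    (hdeg : 4 * A.natDegree + (2 * D + 1) ≤ 4 * N.natDegree) (h3 : Fintype.card K % 3 = 2)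
    (P : K[X]) (hP : Irreducible P) (hc : N ^ 4 ∣ P - A ^ 4) :
    4 * N.natDegree + (2 * D + 2) ≤ P.natDegree := by
  obtain ⟨H, hH⟩ := hc
  have hPe : P = A ^ 4 + N ^ 4 * H := by rw [← hH]; ring
  have hH0 : H ≠ 0 := by
    rintro rfl
    rw [hPe, mul_zero, add_zero] at hP
    exact not_irreducible_pow (by norm_num) hP
  have hlc : H.leadingCoeff ≠ 0 := leadingCoeff_ne_zero.mpr hH0
  obtain ⟨m, hm⟩ := exists_fourth_root (H.leadingCoeff⁻¹)
  have hm0 : m ≠ 0 := by
    intro h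
    rw [h, zero_pow (by norm_num)] at hm
    exact inv_ne_zero hlc hm.symm
  obtain ⟨H₁, hH₁⟩ : ∃ H₁, H₁ = C (H.leadingCoeff⁻¹) * H := ⟨_, rfl⟩
  obtain ⟨A₁, hA₁⟩ : ∃ A₁, A₁ = C m * A := ⟨_, rfl⟩
  have hH₁m : H₁.Monic := by
    rw [hH₁, mul_comm]
    exact monic_mul_leadingCoeff_inv hH0
  have hH₁d : H₁.natDegree = H.natDegree := by
    rw [hH₁, natDegree_C_mul (inv_ne_zero hlc)]
  have hA₁d : A₁.natDegree = A.natDegree := by
    rw [hA₁, natDegree_C_mul hm0]
  have heq : A₁ ^ 4 + N ^ 4 * H₁ = C (H.leadingCoeff⁻¹) * P := by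
    rw [hA₁, hH₁, hPe, mul_pow, ← C_pow, hm]
    ring
  have hirr : Irreducible (A₁ ^ 4 + N ^ 4 * H₁) := by
    rw [heq]
    exact (irreducible_isUnit_mul ((IsUnit.mk0 _ (inv_ne_zero hlc)).map C)).mpr hP
  obtain ⟨j, hj⟩ : ∃ j, H.natDegree = j := ⟨_, rfl⟩
  rcases Nat.lt_or_ge j (2 * D + 2) with hjD | hjD
  · exfalso
    rcases Nat.eq_zero_or_pos j with hj0 | hj0
    · have h1 : H₁ = 1 := by
        exact eq_one_of_monic_natDegree_zero hH₁m (by rw [hH₁d, hj, hj0])
      have h2 : A₁ ^ 4 + N ^ 4 * H₁ = (A₁ + N) ^ 4 := by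
        rw [h1]
        have h4 : (A₁ + N) ^ 4 = A₁ ^ 4 + N ^ 4 * 1 +
          2 * (2 * A₁ ^ 3 * N + 3 * A₁ ^ 2 * N ^ 2 + 2 * A₁ * N ^ 3) := by ring
        rw [h4, two_eq_zero_poly]
        ring
      rw [h2] at hirr
      exact not_irreducible_pow (by norm_num) hirr
    · refine prog_core A₁ N H₁ hN hNo hH₁m j (by rw [hH₁d, hj]) hj0 ?_
        (by rw [hA₁d]; omega) h3 hirr
      intro B hB hBd
      rw [hA₁]
      exact Dvd.dvd.mul_left (hdiv B hB (by omega)) _
  · have hNH : (N ^ 4 * H).natDegree = 4 * N.natDegree + j := by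
      rw [(hN.pow 4).natDegree_mul' hH0, hN.natDegree_pow, hj]
    have hAd : (A ^ 4).natDegree ≤ 4 * A.natDegree := natDegree_pow_le
    rw [hPe, natDegree_add_eq_right_of_natDegree_lt (by rw [hNH]; omega), hNH]
    omega

/-- The polynomial `lcmPoly K D` is coprime to polynomials without small factors. -/
lemma isCoprime_lcmPoly (D : ℕ) (N : K[X]) (hN0 : N ≠ 0)
    (hN : ∀ R : K[X], Irreducible R → R ∣ N → D < R.natDegree) :
    IsCoprime (lcmPoly K D) N := by
  classical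
  rw [← EuclideanDomain.gcd_isUnit_iff]
  by_contra hu
  have hg0 : EuclideanDomain.gcd (lcmPoly K D) N ≠ 0 := by
    intro h
    exact hN0 (EuclideanDomain.gcd_eq_zero_iff.mp h).2
  obtain ⟨R, hR, hRd⟩ := WfDvdMonoid.exists_irreducible_factor hu hg0
  have h1 := hN R hR (hRd.trans (EuclideanDomain.gcd_dvd_right _ _))
  have h2 : R ∣ lcmPoly K D := hRd.trans (EuclideanDomain.gcd_dvd_left _ _)
  rw [lcmPoly, hR.prime.dvd_finset_prod_iff] at h2
  obtain ⟨i, hi, h3⟩ := h2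
  rw [Finset.mem_range] at hi
  have h4 := hR.natDegree_dvd_iff_dvd_X_pow_card_pow_sub_X (n := i + 1)
  rw [Nat.card_eq_fintype_card] at h4
  have h5 := Nat.le_of_dvd (Nat.succ_pos i) (h4.mpr h3)
  omega

end main

end Pool.Agent.H524
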