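import Mathlib
import Pool.Agent.H524.ProgD

/-!
Residue classes modulo fourth powers: the bounds.
-/

namespace Pool.Agent.H524

set_option linter.unusedSectionVars false
set_option maxHeartbeats 400000

open Polynomial

variable {K : Type*} [Field K] [Fintype K]

lemma le_natDegree_lcmPoly (D : ℕ) : D ≤ (lcmPoly K D).natDegree := by
  have hq2 : 2 ≤ Fintype.card K := Fintype.one_lt_card
  rw [natDegree_lcmPoly]
  have : ∑ i ∈ Finset.range D, 1 ≤ ∑ i ∈ Finset.range D, Fintype.card K ^ (i + 1) :=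
    Finset.sum_le_sum (fun i _ => Nat.one_le_pow _ _ (by omega))
  simpa using this

lemma pow_le_natDegree_lcmPoly (D : ℕ) (hD : 1 ≤ D) :
    Fintype.card K ^ D ≤ (lcmPoly K D).natDegree := by
  obtain ⟨D', rfl⟩ : ∃ D', D = D' + 1 := ⟨D - 1, by omega⟩
  rw [natDegree_lcmPoly, Finset.sum_range_succ]
  exact Nat.le_add_left _ _

/-- For every suitable modulus. -/
theorem prog_all (k : ℕ) (hK : Fintype.card K = 2 ^ (2 * k + 1)) (N : K[X]) (hN : N.Monic)
    (hNo : Odd N.natDegree)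
    (hR : ∀ R : K[X], Irreducible R → R ∣ N → N.natDegree < Fintype.card K ^ R.natDegree) :
    ∃ a : K[X], IsCoprime a N ∧ ∀ P : K[X], Irreducible P → N ^ 4 ∣ P - a →
      1 / (100 * Real.log (Fintype.card K : ℝ) ^ 2) *
        ((Fintype.card K : ℝ) ^ (N ^ 4).natDegree *
          Real.log ((Fintype.card K : ℝ) ^ (N ^ 4).natDegree) ^ 2) ≤
      (Fintype.card K : ℝ) ^ P.natDegree := by
  have hchar : ringChar K = 2 := by
    apply FiniteField.even_card_iff_char_two.mpr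
    rw [hK, pow_succ]
    omega
  have : CharP K 2 := ringChar.eq_iff.mp hchar
  have h3 : Fintype.card K % 3 = 2 := by
    rw [hK, pow_succ, pow_mul, Nat.mul_mod, Nat.pow_mod]
    norm_num
  have hq2 : 2 ≤ Fintype.card K := Fintype.one_lt_card
  have hq : (2 : ℝ) ≤ (Fintype.card K : ℝ) := by exact_mod_cast hq2
  have hlog : 0 < Real.log (Fintype.card K : ℝ) := Real.log_pos (by linarith)
  obtain ⟨ν, hν⟩ : ∃ ν, N.natDegree = ν := ⟨_, rfl⟩
  have hν1 : 1 ≤ ν := by
    obtain ⟨l, hl⟩ := hNo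
    omega
  -- the choice of `D`
  obtain ⟨D, hD⟩ : ∃ D, D = Nat.findGreatest
    (fun D => 4 * (lcmPoly K D).natDegree + (2 * D + 1) ≤ 4 * ν) ν := ⟨_, rfl⟩
  have hD0 : 4 * (lcmPoly K 0).natDegree + (2 * 0 + 1) ≤ 4 * ν := by
    rw [natDegree_lcmPoly]
    simp only [Finset.range_zero, Finset.sum_empty]
    omega
  have hD1 : 4 * (lcmPoly K D).natDegree + (2 * D + 1) ≤ 4 * ν := by
    rw [hD]
    exact Nat.findGreatest_spec (P := fun D => 4 * (lcmPoly K D).natDegree + (2 * D + 1) ≤ 4 * ν)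
      (Nat.zero_le ν) hD0
  have hDν : D < ν := by
    have := le_natDegree_lcmPoly (K := K) D
    omega
  have hD2 : 4 * ν < 4 * (lcmPoly K (D + 1)).natDegree + (2 * (D + 1) + 1) := by
    by_contra hle
    rw [not_lt] at hle
    have h1 := Nat.le_findGreatest (P := fun D => 4 * (lcmPoly K D).natDegree + (2 * D + 1) ≤ 4 * ν)
      (show D + 1 ≤ ν by omega) hle
    rw [← hD] at h1
    omega
  have hbound : 2 * ν ≤ 5 * Fintype.card K ^ (D + 1) := by
    have h1 : (lcmPoly K (D + 1)).natDegree + 2 ≤ 2 * Fintype.card K ^ (D + 1) := by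
      have h2 := natDegree_lcmPoly_mul K (D + 1)
      obtain ⟨r, hr⟩ : ∃ r, Fintype.card K = r + 2 := ⟨Fintype.card K - 2, by omega⟩
      rw [hr] at h2 ⊢
      have h3 : r + 2 - 1 = r + 1 := by omega
      rw [h3] at h2
      obtain ⟨g, hg⟩ : ∃ g, (lcmPoly K (D + 1)).natDegree = g := ⟨_, rfl⟩
      rw [hg] at h2 ⊢
      obtain ⟨t, ht⟩ : ∃ t, (r + 2) ^ (D + 1) = t := ⟨_, rfl⟩
      have h4 : (r + 2) ^ (D + 1 + 1) = t * (r + 2) := by rw [pow_succ, ht]
      rw [h4] at h2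
      rw [ht]
      by_contra hlt
      rw [not_le] at hlt
      have ht1 : 1 ≤ t := by rw [← ht]; exact Nat.one_le_pow _ _ (by omega)
      have h5 : (2 * t) * (r + 1) < (g + 2) * (r + 1) := Nat.mul_lt_mul_of_pos_right hlt (by omega)
      have h6 : (g + 2) * (r + 1) = g * (r + 1) + 2 * (r + 1) := by ring
      have h7 : t * r + r ≤ t * r + t * r := by nlinarith
      nlinarith
    have h2 : D + 1 < Fintype.card K ^ (D + 1) := Nat.lt_pow_self (by omega)
    omega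
  have hR' : ∀ R : K[X], Irreducible R → R ∣ N → D < R.natDegree := by
    intro R hR1 hR2
    have h1 := hR R hR1 hR2
    rw [hν] at h1
    rcases Nat.eq_zero_or_pos D with h | h
    · rw [h]; exact hR1.natDegree_pos
    · by_contra hlt
      rw [not_lt] at hlt
      have h2 : Fintype.card K ^ R.natDegree ≤ Fintype.card K ^ D :=
        Nat.pow_le_pow_right (by omega) hlt
      have h3 := pow_le_natDegree_lcmPoly (K := K) D h
      omega
  refine ⟨lcmPoly K D ^ 4, (isCoprime_lcmPoly D N hN.ne_zero hR').pow_left, ?_⟩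
  intro P hP hc
  have h1 := prog_class D (lcmPoly K D) N hN hNo (fun B hB hBd => dvd_lcmPoly B hB hBd)
    (by rw [hν]; exact hD1) h3 P hP hc
  rw [hν] at h1
  rw [hN.natDegree_pow, hν, Real.log_pow]
  set q : ℝ := (Fintype.card K : ℝ) with hqdef
  have hqq : (ν : ℝ) ≤ 5 / 2 * q ^ (D + 1) := by
    have : ((2 * ν : ℕ) : ℝ) ≤ ((5 * Fintype.card K ^ (D + 1) : ℕ) : ℝ) := by exact_mod_cast hbound
    push_cast at this
    linarith
  have hsq : (ν : ℝ) ^ 2 ≤ (5 / 2 * q ^ (D + 1)) ^ 2 := pow_le_pow_left₀ (by positivity) hqq 2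
  calc 1 / (100 * Real.log q ^ 2) * (q ^ (4 * ν) * (((4 * ν : ℕ) : ℝ) * Real.log q) ^ 2)
      = q ^ (4 * ν) * (4 / 25 * (ν : ℝ) ^ 2) := by
        push_cast
        field_simp
        ring
    _ ≤ q ^ (4 * ν) * (4 / 25 * (5 / 2 * q ^ (D + 1)) ^ 2) := by
        apply mul_le_mul_of_nonneg_left _ (by positivity)
        apply mul_le_mul_of_nonneg_left hsq (by norm_num)
    _ = q ^ (4 * ν + (2 * D + 2)) := by
        rw [pow_add]; ring
    _ ≤ q ^ P.natDegree := pow_le_pow_right₀ (by linarith) h1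

/-- The constant in the limit superior. -/
theorem prog_limsup (k : ℕ) (hK : Fintype.card K = 2 ^ (2 * k + 1)) (c : ℝ)
    (hc : c < ((Fintype.card K : ℝ) - 1) ^ 2 / (16 * Real.log (Fintype.card K : ℝ) ^ 2)) (B : ℕ) :
    ∃ ν : ℕ, B ≤ ν ∧ Odd ν ∧ ∀ N : K[X], N.Monic → Irreducible N → N.natDegree = ν →
      ∃ a : K[X], IsCoprime a N ∧ ∀ P : K[X], Irreducible P → N ^ 4 ∣ P - a →
        c * ((Fintype.card K : ℝ) ^ (N ^ 4).natDegree *
          Real.log ((Fintype.card K : ℝ) ^ (N ^ 4).natDegree) ^ 2) <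
        (Fintype.card K : ℝ) ^ P.natDegree := by
  have hchar : ringChar K = 2 := by
    apply FiniteField.even_card_iff_char_two.mpr
    rw [hK, pow_succ]
    omega
  have : CharP K 2 := ringChar.eq_iff.mp hchar
  have h3 : Fintype.card K % 3 = 2 := by
    rw [hK, pow_succ, pow_mul, Nat.mul_mod, Nat.pow_mod]
    norm_num
  have hq2 : 2 ≤ Fintype.card K := Fintype.one_lt_card
  have hq : (2 : ℝ) ≤ (Fintype.card K : ℝ) := by exact_mod_cast hq2
  have hlog : 0 < Real.log (Fintype.card K : ℝ) := Real.log_pos (by linarith)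
  set q : ℝ := (Fintype.card K : ℝ) with hqdef
  have hq1 : 0 < q - 1 := by linarith
  set κ : ℝ := 16 * c * (Real.log q) ^ 2 with hκ
  have hlim : κ * (1 / (q - 1)) ^ 2 < 1 := by
    rw [lt_div_iff₀ (by positivity)] at hc
    rw [div_pow, one_pow, mul_one_div, div_lt_one (by positivity), hκ]
    linarith
  have htend : Filter.Tendsto (fun D : ℕ => κ * (1 / (q - 1) + ((D : ℝ) ^ 1 / q ^ D +
      4 * (q⁻¹) ^ D)) ^ 2) Filter.atTop (nhds (κ * (1 / (q - 1) + (0 + 4 * 0)) ^ 2)) := by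
    have h1 : Filter.Tendsto (fun D : ℕ => (q⁻¹) ^ D) Filter.atTop (nhds 0) :=
      tendsto_pow_atTop_nhds_zero_of_lt_one (by positivity)
        (inv_lt_one_of_one_lt₀ (by linarith))
    have h2 : Filter.Tendsto (fun D : ℕ => (D : ℝ) ^ 1 / q ^ D) Filter.atTop (nhds 0) :=
      tendsto_pow_const_div_const_pow_of_one_lt 1 (by linarith)
    exact (((h2.add (h1.const_mul 4)).const_add (1 / (q - 1))).pow 2).const_mul κ
  have hev : ∀ᶠ D : ℕ in Filter.atTop, κ * (1 / (q - 1) + ((D : ℝ) ^ 1 / q ^ D +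
      4 * (q⁻¹) ^ D)) ^ 2 < 1 := by
    apply htend.eventually_lt_const
    simpa using hlim
  obtain ⟨D, hDe, hDB⟩ := (hev.and (Filter.eventually_ge_atTop B)).exists
  obtain ⟨g, hg⟩ : ∃ g, (lcmPoly K D).natDegree = g := ⟨_, rfl⟩
  have hgD := le_natDegree_lcmPoly (K := K) D
  have hgq := natDegree_lcmPoly_mul K D
  rw [hg] at hgD hgq
  obtain ⟨ν, hνo, hν1, hν2⟩ : ∃ ν, Odd ν ∧ 4 * g + (2 * D + 1) ≤ 4 * ν ∧ ν ≤ g + D + 2 := by
    rcases Nat.even_or_odd (g + D) with h | h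
    · exact ⟨g + D + 1, h.add_one, by omega, by omega⟩
    · refine ⟨g + D + 2, ?_, by omega, by omega⟩
      obtain ⟨l, hl⟩ := h
      exact ⟨l + 1, by omega⟩
  refine ⟨ν, by omega, hνo, ?_⟩
  intro N hN hNi hNd
  have hR' : ∀ R : K[X], Irreducible R → R ∣ N → D < R.natDegree := by
    intro R hR1 hR2
    have h1 : Associated R N := hR1.associated_of_dvd hNi hR2
    have h2 : R.natDegree = N.natDegree := natDegree_eq_of_degree_eq (degree_eq_degree_of_associated h1)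
    omega
  refine ⟨lcmPoly K D ^ 4, (isCoprime_lcmPoly D N hN.ne_zero hR').pow_left, ?_⟩
  intro P hP hdvd
  have h1 := prog_class D (lcmPoly K D) N hN (by rw [hNd]; exact hνo)
    (fun B hB hBd => dvd_lcmPoly B hB hBd) (by rw [hNd, hg]; exact hν1) h3 P hP hdvd
  rw [hNd] at h1
  rw [hN.natDegree_pow, hNd, Real.log_pow]
  have hqD : (0 : ℝ) < q ^ D := by positivity
  have hνq : (ν : ℝ) ≤ (1 / (q - 1) + ((D : ℝ) ^ 1 / q ^ D + 4 * (q⁻¹) ^ D)) * q ^ (D + 1) := by
    have h2 : (g : ℝ) * (q - 1) + q = q ^ (D + 1) := by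
      have h7 : ((g * (Fintype.card K - 1) + Fintype.card K : ℕ) : ℝ) =
          ((Fintype.card K ^ (D + 1) : ℕ) : ℝ) := by rw [hgq]
      push_cast [Nat.cast_sub (by omega : 1 ≤ Fintype.card K)] at h7
      exact h7
    have h4 : (g : ℝ) ≤ q ^ (D + 1) / (q - 1) := by
      rw [le_div_iff₀ hq1]
      linarith
    have h5 : (ν : ℝ) ≤ g + D + 2 := by exact_mod_cast hν2
    have h6 : (q⁻¹) ^ D * q ^ D = 1 := by
      rw [← mul_pow, inv_mul_cancel₀ (by positivity), one_pow]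
    have h7 : (D : ℝ) / q ^ D * q ^ D = D := by
      field_simp
    have hD0 : (0 : ℝ) ≤ D := Nat.cast_nonneg D
    calc (ν : ℝ) ≤ q ^ (D + 1) / (q - 1) + (D * q + 4 * q) := by nlinarith
      _ = q ^ (D + 1) / (q - 1) + ((D : ℝ) / q ^ D * q ^ D * q + 4 * ((q⁻¹) ^ D * q ^ D) * q) := by
          rw [h6, h7]; ring
      _ = _ := by rw [pow_one, pow_succ]; ring
  rcases le_or_gt c 0 with hc0 | hc0
  · have h2 : c * (q ^ (4 * ν) * (((4 * ν : ℕ) : ℝ) * Real.log q) ^ 2) ≤ 0 :=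
      mul_nonpos_of_nonpos_of_nonneg hc0 (by positivity)
    have h4 : (0 : ℝ) < q ^ P.natDegree := by positivity
    linarith
  · have hκ0 : 0 < κ := by rw [hκ]; positivity
    have hsq : (ν : ℝ) ^ 2 ≤
        ((1 / (q - 1) + ((D : ℝ) ^ 1 / q ^ D + 4 * (q⁻¹) ^ D)) * q ^ (D + 1)) ^ 2 :=
      pow_le_pow_left₀ (by positivity) hνq 2
    calc c * (q ^ (4 * ν) * (((4 * ν : ℕ) : ℝ) * Real.log q) ^ 2)
        = q ^ (4 * ν) * (κ * (ν : ℝ) ^ 2) := by
          rw [hκ]; push_cast; ring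
      _ ≤ q ^ (4 * ν) * (κ * ((1 / (q - 1) + ((D : ℝ) ^ 1 / q ^ D + 4 * (q⁻¹) ^ D)) *
            q ^ (D + 1)) ^ 2) := by
          apply mul_le_mul_of_nonneg_left _ (by positivity)
          exact mul_le_mul_of_nonneg_left hsq hκ0.le
      _ = q ^ (4 * ν) * ((κ * (1 / (q - 1) + ((D : ℝ) ^ 1 / q ^ D + 4 * (q⁻¹) ^ D)) ^ 2) *
            q ^ (2 * D + 2)) := by ring
      _ < q ^ (4 * ν) * (1 * q ^ (2 * D + 2)) := by
          apply mul_lt_mul_of_pos_left _ (by positivity)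
          exact mul_lt_mul_of_pos_right hDe (by positivity)
      _ = q ^ (4 * ν + (2 * D + 2)) := by rw [one_mul, ← pow_add]
      _ ≤ q ^ P.natDegree := pow_le_pow_right₀ (by linarith) h1

end Pool.Agent.H524
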