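import Mathlib
import Pool.Agent.H524.EvenE

/-!
Characteristic two: arbitrary leading coefficients, by scaling the variable.
-/

namespace Pool.Agent.H524

set_option linter.unusedSectionVars false
set_option maxHeartbeats 400000

open Polynomial

section scale

variable {K : Type*} [Field K]

/-- Scaling of the variable. -/
noncomputable def scaleEquiv (a : K) (ha : a ≠ 0) : K[X] ≃ₐ[K] K[X] :=
  algEquivOfCompEqX (C a * X) (C a⁻¹ * X)
    (by rw [mul_comp, C_comp, X_comp, ← mul_assoc, ← C_mul, mul_inv_cancel₀ ha, C_1, one_mul])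
    (by rw [mul_comp, C_comp, X_comp, ← mul_assoc, ← C_mul, inv_mul_cancel₀ ha, C_1, one_mul])

lemma scaleEquiv_apply (a : K) (ha : a ≠ 0) (P : K[X]) :
    scaleEquiv a ha P = P.comp (C a * X) := by
  simp [scaleEquiv, algEquivOfCompEqX, comp_eq_aeval]

lemma coeff_scaleEquiv (a : K) (ha : a ≠ 0) (P : K[X]) (i : ℕ) :
    (scaleEquiv a ha P).coeff i = P.coeff i * a ^ i := by
  rw [scaleEquiv_apply, comp_C_mul_X_coeff]

lemma natDegree_scaleEquiv (a : K) (ha : a ≠ 0) (P : K[X]) :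
    (scaleEquiv a ha P).natDegree = P.natDegree := by
  rw [scaleEquiv_apply, natDegree_comp, natDegree_C_mul ha, natDegree_X, mul_one]

/-- The parity obstruction in characteristic two, with an arbitrary leading coefficient. -/
theorem even_core_scaled [Fintype K] [CharP K 2] (G H : K[X]) (hG : G.Monic)
    (hGe : Even G.natDegree) (d s n : ℕ) (hn : n = s + 4 * G.natDegree)
    (hH0 : H ≠ 0) (hd : H.natDegree = d) (hd1 : 1 ≤ d)
    (hs : 3 ≤ s) (hdiv : ∀ B : K[X], B ≠ 0 → B.natDegree ≤ d / 2 → B ∣ G)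
    (hlt : d < n) (hodd : (d + s) % 2 = 1)
    (hmod : (n - d) % 8 = 1 ∨ (n - d) % 8 = 7 ∨ Fintype.card K % 3 = 1)
    (l : K) (hl : l ^ (n - d) = H.leadingCoeff) :
    ¬ Irreducible (X ^ s * G ^ 4 + H) := by
  intro hirr
  have hlc0 : H.leadingCoeff ≠ 0 := leadingCoeff_ne_zero.mpr hH0
  have hl0 : l ≠ 0 := by
    intro h
    rw [h, zero_pow (by omega)] at hl
    exact hlc0 hl.symm
  obtain ⟨g, hg⟩ : ∃ g, G.natDegree = g := ⟨_, rfl⟩
  rw [hg] at hn hGe
  have hirr' : Irreducible (scaleEquiv l hl0 (X ^ s * G ^ 4 + H)) :=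
    (MulEquiv.irreducible_iff (scaleEquiv l hl0).toMulEquiv).mpr hirr
  have hli : ∀ m : ℕ, l⁻¹ ^ m ≠ 0 := fun m => pow_ne_zero _ (inv_ne_zero hl0)
  -- the new data
  obtain ⟨G₁, hG₁⟩ : ∃ G₁ : K[X], G₁ = C (l⁻¹ ^ g) * scaleEquiv l hl0 G := ⟨_, rfl⟩
  obtain ⟨H₁, hH₁⟩ : ∃ H₁ : K[X], H₁ = C (l⁻¹ ^ n) * scaleEquiv l hl0 H := ⟨_, rfl⟩
  have hG₁d : G₁.natDegree = g := by
    rw [hG₁, natDegree_C_mul (hli _), natDegree_scaleEquiv, hg]
  have hG₁m : G₁.Monic := by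
    show G₁.leadingCoeff = 1
    rw [leadingCoeff, hG₁d, hG₁, coeff_C_mul, coeff_scaleEquiv]
    have h1 : G.coeff g = 1 := by rw [← hg]; exact hG
    rw [h1, one_mul, inv_pow, inv_mul_cancel₀ (pow_ne_zero _ hl0)]
  have hH₁d : H₁.natDegree = d := by
    rw [hH₁, natDegree_C_mul (hli _), natDegree_scaleEquiv, hd]
  have hH₁m : H₁.Monic := by
    show H₁.leadingCoeff = 1
    rw [leadingCoeff, hH₁d, hH₁, coeff_C_mul, coeff_scaleEquiv]
    have h1 : H.coeff d = H.leadingCoeff := by rw [leadingCoeff, hd]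
    obtain ⟨r, hr⟩ : ∃ r, n = r + d := ⟨n - d, by omega⟩
    have h3 : n - d = r := by omega
    rw [h1, ← hl, h3, hr, inv_pow, pow_add]
    have h4 : l ^ r ≠ 0 := pow_ne_zero _ hl0
    have h5 : l ^ d ≠ 0 := pow_ne_zero _ hl0
    field_simp
  have hdiv₁ : ∀ B : K[X], B ≠ 0 → B.natDegree ≤ d / 2 → B ∣ G₁ := by
    intro B hB hBd
    obtain ⟨B', hB'⟩ : ∃ B', scaleEquiv l hl0 B' = B := (scaleEquiv l hl0).surjective B
    have h1 : B' ∣ G := by
      apply hdiv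
      · intro h
        rw [h, map_zero] at hB'
        exact hB hB'.symm
      · rw [← natDegree_scaleEquiv l hl0 B', hB']
        exact hBd
    obtain ⟨e, he⟩ := h1
    have h2 : scaleEquiv l hl0 G = B * scaleEquiv l hl0 e := by rw [he, map_mul, hB']
    rw [hG₁, h2]
    exact Dvd.intro_left (C (l⁻¹ ^ g) * scaleEquiv l hl0 e) (by ring)
  have heq : X ^ s * G₁ ^ 4 + H₁ =
      C (l⁻¹ ^ n) * scaleEquiv l hl0 (X ^ s * G ^ 4 + H) := by
    rw [hG₁, hH₁, map_add, map_mul (scaleEquiv l hl0), map_pow (scaleEquiv l hl0),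
      map_pow (scaleEquiv l hl0)]
    have hX : scaleEquiv l hl0 X = C l * X := by rw [scaleEquiv_apply, X_comp]
    rw [hX]
    generalize scaleEquiv l hl0 G = G₂
    generalize scaleEquiv l hl0 H = H₂
    have h1 : (C l⁻¹ : K[X]) * C l = 1 := by rw [← C_mul, inv_mul_cancel₀ hl0, C_1]
    rw [hn, C_pow, C_pow, mul_pow, mul_pow, mul_add, pow_add, ← pow_mul]
    congr 1
    calc X ^ s * ((C l⁻¹) ^ (g * 4) * G₂ ^ 4) =
        1 ^ s * (X ^ s * ((C l⁻¹) ^ (g * 4) * G₂ ^ 4)) := by rw [one_pow, one_mul]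
      _ = (C l⁻¹ * C l) ^ s * (X ^ s * ((C l⁻¹) ^ (g * 4) * G₂ ^ 4)) := by rw [h1]
      _ = (C l⁻¹) ^ s * (C l⁻¹) ^ (4 * g) * ((C l) ^ s * X ^ s * G₂ ^ 4) := by
        rw [mul_pow, mul_comm g 4]; ring
  have hirr₁ : Irreducible (X ^ s * G₁ ^ 4 + H₁) := by
    rw [heq]
    exact (irreducible_isUnit_mul ((IsUnit.mk0 _ (hli n)).map C)).mpr hirr'
  exact even_core G₁ H₁ hG₁m (by rw [hG₁d]; exact hGe) hH₁m d s hH₁d hd1 hs hdiv₁
    (by rw [hG₁d]; omega) hodd (by rw [hG₁d, ← hn]; exact hmod) hirr₁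

/-- Coprime exponents give all leading coefficients. -/
lemma exists_root_of_coprime [Fintype K] (m : ℕ) (hm : (Fintype.card K - 1).Coprime m) (c : K)
    (hc : c ≠ 0) : ∃ l : K, l ^ m = c := by
  classical
  have h1 : (Nat.card Kˣ).Coprime m := by
    rw [Nat.card_eq_fintype_card, Fintype.card_units]
    exact hm
  obtain ⟨u, hu⟩ := (powCoprime h1).surjective (Units.mk0 c hc)
  refine ⟨(u : K), ?_⟩
  have h2 : u ^ m = Units.mk0 c hc := hu
  rw [← Units.val_pow_eq_pow_val, h2]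
  rfl

end scale

end Pool.Agent.H524
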