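import Mathlib
import Pool.Agent.H524.Scale

/-!
Characteristic two: gaps between irreducible polynomials in the lexicographic order.
-/

namespace Pool.Agent.H524

set_option linter.unusedSectionVars false
set_option maxHeartbeats 400000

open Polynomial

section digits

lemma sum_digits_lt (q : ℕ) (hq : 1 ≤ q) (a : ℕ → ℕ) (ha : ∀ i, a i < q) (N : ℕ) :
    ∑ i ∈ Finset.range N, a i * q ^ i < q ^ N := by
  induction N with
  | zero => simp
  | succ N ih =>
    rw [Finset.sum_range_succ]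
    have h1 : a N * q ^ N + q ^ N ≤ q ^ (N + 1) := by
      have : a N + 1 ≤ q := ha N
      calc a N * q ^ N + q ^ N = (a N + 1) * q ^ N := by ring
        _ ≤ q * q ^ N := Nat.mul_le_mul_right _ this
        _ = q ^ (N + 1) := by ring
    omega

lemma sum_digits_split (q : ℕ) (a : ℕ → ℕ) (j m : ℕ) :
    ∑ i ∈ Finset.range (j + m), a i * q ^ i =
      ∑ i ∈ Finset.range j, a i * q ^ i + q ^ j * ∑ i ∈ Finset.range m, a (j + i) * q ^ i := by
  induction m with
  | zero => simp
  | succ m ih =>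
    rw [← add_assoc, Finset.sum_range_succ, ih, Finset.sum_range_succ]
    ring

lemma sum_digits_div (q : ℕ) (hq : 1 ≤ q) (a : ℕ → ℕ) (ha : ∀ i, a i < q) (j m : ℕ) :
    (∑ i ∈ Finset.range (j + m), a i * q ^ i) / q ^ j =
      ∑ i ∈ Finset.range m, a (j + i) * q ^ i := by
  have h0 : 0 < q ^ j := Nat.pow_pos (by omega)
  rw [sum_digits_split, Nat.add_mul_div_left _ _ h0,
    Nat.div_eq_of_lt (sum_digits_lt q hq a ha j), zero_add]

lemma sum_digits_mod (q : ℕ) (hq : 1 ≤ q) (a : ℕ → ℕ) (ha : ∀ i, a i < q) (j m : ℕ) :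
    (∑ i ∈ Finset.range (j + m), a i * q ^ i) % q ^ j =
      ∑ i ∈ Finset.range j, a i * q ^ i := by
  rw [sum_digits_split, Nat.add_mul_mod_self_left,
    Nat.mod_eq_of_lt (sum_digits_lt q hq a ha j)]

lemma sum_digits_inj (q : ℕ) (hq : 1 ≤ q) (a b : ℕ → ℕ) (ha : ∀ i, a i < q) (hb : ∀ i, b i < q)
    (m : ℕ) (h : ∑ i ∈ Finset.range m, a i * q ^ i = ∑ i ∈ Finset.range m, b i * q ^ i) :
    ∀ i < m, a i = b i := by
  induction m with
  | zero => intro i hi; omega
  | succ m ih =>
    have h1 : (∑ i ∈ Finset.range (m + 1), a i * q ^ i) / q ^ m =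
        (∑ i ∈ Finset.range (m + 1), b i * q ^ i) / q ^ m := by rw [h]
    rw [sum_digits_div q hq a ha m 1, sum_digits_div q hq b hb m 1] at h1
    simp only [Finset.sum_range_one, add_zero, pow_zero, mul_one] at h1
    have h2 : ∑ i ∈ Finset.range m, a i * q ^ i = ∑ i ∈ Finset.range m, b i * q ^ i := by
      rw [Finset.sum_range_succ, Finset.sum_range_succ, h1] at h
      omega
    intro i hi
    rcases Nat.lt_succ_iff_lt_or_eq.mp hi with h3 | h3
    · exact ih h2 i h3
    · rw [h3]; exact h1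

end digits

section code

variable {K : Type*} [Field K] [Fintype K]

/-- The natural number whose base `q` digits are the coefficients of the polynomial, read through
a numbering of the field. -/
noncomputable def code (e : K ≃ Fin (Fintype.card K)) (P : K[X]) : ℕ :=
  ∑ i ∈ Finset.range (P.natDegree + 1), (e (P.coeff i) : ℕ) * Fintype.card K ^ i

lemma code_eq (e : K ≃ Fin (Fintype.card K)) (he : (e 0 : ℕ) = 0) (P : K[X]) (N : ℕ)
    (hN : P.natDegree < N) :
    code e P = ∑ i ∈ Finset.range N, (e (P.coeff i) : ℕ) * Fintype.card K ^ i := by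
  obtain ⟨m, rfl⟩ := Nat.exists_eq_add_of_le (Nat.succ_le_of_lt hN)
  rw [code, sum_digits_split (Fintype.card K) (fun i => (e (P.coeff i) : ℕ)) (P.natDegree + 1) m]
  have : ∑ i ∈ Finset.range m, (e (P.coeff (P.natDegree + 1 + i)) : ℕ) *
      Fintype.card K ^ i = 0 := by
    apply Finset.sum_eq_zero
    intro i _
    rw [coeff_eq_zero_of_natDegree_lt (by omega), he, zero_mul]
  simp only [this, mul_zero, add_zero]

lemma code_lt (e : K ≃ Fin (Fintype.card K)) (P : K[X]) :
    code e P < Fintype.card K ^ (P.natDegree + 1) :=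
  sum_digits_lt _ Fintype.card_pos (fun i => (e (P.coeff i) : ℕ)) (fun _ => (e _).2) _

/-- Polynomials whose code lies in the block determined by `f` and `d`. -/
lemma natDegree_sub_of_code (e : K ≃ Fin (Fintype.card K)) (he : (e 0 : ℕ) = 0) (f P : K[X])
    (d : ℕ) (hf : f.coeff d = 0)
    (h1 : Fintype.card K ^ (d + 1) * (code e f / Fintype.card K ^ (d + 1)) +
      Fintype.card K ^ d ≤ code e P)
    (h2 : code e P < Fintype.card K ^ (d + 1) * (code e f / Fintype.card K ^ (d + 1)) +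
      Fintype.card K ^ (d + 1)) :
    P - f ≠ 0 ∧ (P - f).natDegree = d := by
  have hq : 1 ≤ Fintype.card K := Fintype.card_pos
  obtain ⟨q, hqd⟩ : ∃ q, Fintype.card K = q := ⟨_, rfl⟩
  rw [hqd] at hq h1 h2
  have hQ : 0 < q ^ (d + 1) := Nat.pow_pos (by omega)
  have hdiv : code e P / q ^ (d + 1) = code e f / q ^ (d + 1) := by
    apply Nat.div_eq_of_lt_le
    · rw [mul_comm]; omega
    · rw [mul_comm, Nat.mul_succ]; exact h2
  have hmod : q ^ d ≤ code e P % q ^ (d + 1) := by
    have := Nat.div_add_mod (code e P) (q ^ (d + 1))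
    rw [hdiv] at this
    omega
  obtain ⟨m, hm⟩ : ∃ m, m = P.natDegree + f.natDegree + 1 := ⟨_, rfl⟩
  have hP : code e P = ∑ i ∈ Finset.range (d + 1 + m), (e (P.coeff i) : ℕ) * q ^ i := by
    rw [← hqd]
    exact code_eq e he P (d + 1 + m) (by omega)
  have hf' : code e f = ∑ i ∈ Finset.range (d + 1 + m), (e (f.coeff i) : ℕ) * q ^ i := by
    rw [← hqd]
    exact code_eq e he f (d + 1 + m) (by omega)
  have hlt : ∀ x : K, (e x : ℕ) < q := by
    intro x
    rw [← hqd]
    exact (e x).2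
  rw [hP, hf', sum_digits_div q hq (fun i => (e (P.coeff i) : ℕ)) (fun i => hlt _) (d + 1) m,
    sum_digits_div q hq (fun i => (e (f.coeff i) : ℕ)) (fun i => hlt _) (d + 1) m] at hdiv
  have hdig := sum_digits_inj q hq (fun i => (e (P.coeff (d + 1 + i)) : ℕ))
    (fun i => (e (f.coeff (d + 1 + i)) : ℕ)) (fun i => hlt _) (fun i => hlt _) m hdiv
  have hhigh : ∀ i, d < i → P.coeff i = f.coeff i := by
    intro i hi
    rcases Nat.lt_or_ge (i - (d + 1)) m with h | h
    · have h3 := hdig (i - (d + 1)) h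
      have h4 : d + 1 + (i - (d + 1)) = i := by omega
      rw [h4] at h3
      exact e.injective (Fin.ext h3)
    · rw [coeff_eq_zero_of_natDegree_lt (by omega), coeff_eq_zero_of_natDegree_lt (by omega)]
  have hPd : P.coeff d ≠ 0 := by
    intro h0
    rw [hP, sum_digits_mod q hq (fun i => (e (P.coeff i) : ℕ)) (fun i => hlt _) (d + 1) m,
      Finset.sum_range_succ] at hmod
    simp only [h0, he, zero_mul, add_zero] at hmod
    have := sum_digits_lt q hq (fun i => (e (P.coeff i) : ℕ)) (fun i => hlt _) d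
    omega
  have hc : (P - f).coeff d ≠ 0 := by
    rw [coeff_sub, hf, sub_zero]
    exact hPd
  have hne : P - f ≠ 0 := by
    intro h
    rw [h, coeff_zero] at hc
    exact hc rfl
  refine ⟨hne, le_antisymm ?_ (le_natDegree_of_ne_zero hc)⟩
  rw [natDegree_le_iff_coeff_eq_zero]
  intro i hi
  rw [coeff_sub, hhigh i hi, sub_self]

/-- The blocks of consecutive codes without irreducible polynomials. -/
lemma exists_block [CharP K 2] (e : K ≃ Fin (Fintype.card K)) (he : (e 0 : ℕ) = 0) (D : ℕ) :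
    ∃ f : K[X], f.Monic ∧ f.natDegree ≤ 4 * (lcmPoly K D).natDegree + 8 * Fintype.card K ∧
      ∀ P : K[X], Irreducible P →
        ¬ (Fintype.card K ^ (2 * D + 2) * (code e f / Fintype.card K ^ (2 * D + 2)) +
          Fintype.card K ^ (2 * D + 1) ≤ code e P ∧
          code e P < Fintype.card K ^ (2 * D + 2) * (code e f / Fintype.card K ^ (2 * D + 2)) +
            Fintype.card K ^ (2 * D + 2)) := by
  have hq : 2 ≤ Fintype.card K := Fintype.one_lt_card
  obtain ⟨j, hj⟩ := even_natDegree_lcmPoly (K := K) D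
  have hDg : D ≤ (lcmPoly K D).natDegree := by
    rw [natDegree_lcmPoly]
    have : ∑ i ∈ Finset.range D, 1 ≤
        ∑ i ∈ Finset.range D, Fintype.card K ^ (i + 1) :=
      Finset.sum_le_sum (fun i _ => Nat.one_le_pow _ _ (by omega))
    simpa using this
  obtain ⟨g, hg⟩ : ∃ g, (lcmPoly K D).natDegree = g := ⟨_, rfl⟩
  rw [hg] at hj hDg
  obtain ⟨M, hM⟩ : ∃ M, M = 8 * (Fintype.card K - 1) := ⟨_, rfl⟩
  obtain ⟨M', hM'⟩ : ∃ M', M = M' + 1 := ⟨M - 1, by omega⟩
  obtain ⟨s, hs⟩ : ∃ s, s = 8 + ((2 * D + 2) + M' * (4 * g + 8)) % M := ⟨_, rfl⟩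
  have hs8 : s < 8 + M := by
    rw [hs]
    exact Nat.add_lt_add_left (Nat.mod_lt _ (by omega)) _
  have hmodM : (s + 4 * g) % M = (2 * D + 2) % M := by
    have h1 : s + 4 * g ≡ (2 * D + 2) [MOD M] := by
      rw [hs]
      have h2 : 8 + ((2 * D + 2) + M' * (4 * g + 8)) % M + 4 * g ≡
          8 + ((2 * D + 2) + M' * (4 * g + 8)) + 4 * g [MOD M] :=
        ((Nat.mod_modEq _ _).add_left 8).add_right (4 * g)
      refine h2.trans ?_
      have h3 : 8 + ((2 * D + 2) + M' * (4 * g + 8)) + 4 * g =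
          (2 * D + 2) + M * (4 * g + 8) := by
        rw [hM']; ring
      rw [h3]
      have h4 : (2 * D + 2) + M * (4 * g + 8) ≡ (2 * D + 2) + 0 [MOD M] :=
        (Nat.modEq_zero_iff_dvd.mpr (Dvd.intro _ rfl)).add_left _
      simpa using h4
    exact h1
  -- the difference of the degrees
  have hnd : ∃ t, s + 4 * g = 2 * D + 1 + (1 + M * t) := by
    have h1 : (2 * D + 2) ≤ s + 4 * g := by omega
    have h2 : M ∣ (s + 4 * g) - (2 * D + 2) := (Nat.modEq_iff_dvd' h1).mp hmodM.symm
    obtain ⟨t, ht⟩ := h2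
    exact ⟨t, by omega⟩
  obtain ⟨t, ht⟩ := hnd
  have hM8 : ∃ t', M * t = 8 * t' := ⟨(Fintype.card K - 1) * t, by rw [hM]; ring⟩
  obtain ⟨t', ht'⟩ := hM8
  have hcop : (Fintype.card K - 1).Coprime (1 + M * t) := by
    have h1 : 1 + M * t = 1 + (Fintype.card K - 1) * (8 * t) := by rw [hM]; ring
    rw [h1]
    simp
  refine ⟨X ^ s * lcmPoly K D ^ 4, ?_, ?_, ?_⟩
  · exact (monic_X_pow s).mul ((monic_lcmPoly K D).pow 4)
  · rw [(monic_X_pow s).natDegree_mul ((monic_lcmPoly K D).pow 4), natDegree_X_pow,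
      (monic_lcmPoly K D).natDegree_pow, hg]
    omega
  · rintro P hP ⟨h1, h2⟩
    have hcoeff : (X ^ s * lcmPoly K D ^ 4 : K[X]).coeff (2 * D + 1) = 0 := by
      have hder : derivative (X ^ s * lcmPoly K D ^ 4 : K[X]) = 0 := by
        rw [derivative_mul, derivative_X_pow, derivative_pow]
        have hs0 : (s : K) = 0 := by
          obtain ⟨k, hk⟩ : ∃ k, s = 2 * k := ⟨s / 2, by omega⟩
          rw [hk]; push_cast; rw [two_eq_zero_K, zero_mul]
        have h40 : ((4 : ℕ) : K) = 0 := by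
          have : ((4 : ℕ) : K) = 2 * 2 := by norm_num
          rw [this, two_eq_zero_K, zero_mul]
        rw [hs0, h40]
        simp
      have h3 := congrArg (fun p => coeff p (2 * D)) hder
      simp only [coeff_derivative, coeff_zero] at h3
      have h4 : (((2 * D : ℕ) : K) + 1) = 1 := by
        push_cast; rw [two_eq_zero_K]; ring
      rw [h4, mul_one] at h3
      exact h3
    obtain ⟨h3, h4⟩ := natDegree_sub_of_code e he _ P (2 * D + 1) hcoeff h1 h2
    obtain ⟨l, hl⟩ := exists_root_of_coprime (1 + M * t) hcop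
      (P - X ^ s * lcmPoly K D ^ 4).leadingCoeff (leadingCoeff_ne_zero.mpr h3)
    have h5 : s + 4 * g - (2 * D + 1) = 1 + M * t := by omega
    refine even_core_scaled (lcmPoly K D) (P - X ^ s * lcmPoly K D ^ 4) (monic_lcmPoly K D)
      (even_natDegree_lcmPoly D) (2 * D + 1) s (s + 4 * g) (by rw [hg]) h3 h4 (by omega)
      (by omega) (fun B hB hBd => dvd_lcmPoly B hB (by omega)) (by omega) (by omega)
      (by left; omega) l (by rw [h5]; exact hl) ?_
    rw [add_sub_cancel]
    exact hP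

end code

end Pool.Agent.H524
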