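import Mathlib
import Pool.Agent.H524.Lex

/-!
The limit superior of the gaps between the codes of irreducible polynomials.
-/

namespace Pool.Agent.H524

set_option linter.unusedSectionVars false
set_option maxHeartbeats 400000

open Polynomial

/-- From blocks without elements of `S` to the limit superior of the gaps of `S`. -/
lemma limsup_gap_ge (S : ℕ → Prop) (hS : (Set.ofPred S).Infinite) (C : ℝ)
    (h : ∀ c : ℝ, 0 < c → c < C → ∀ N : ℕ, ∃ M L : ℕ, N ≤ M ∧ c * (Real.log M) ^ 2 < L ∧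
      ∀ m, S m → ¬ (M ≤ m ∧ m < M + L)) :
    ((C : ℝ) : EReal) ≤ Filter.limsup (fun n : ℕ =>
      (((((Nat.nth S (n + 1) : ℕ) : ℝ) - ((Nat.nth S n : ℕ) : ℝ)) /
        (Real.log ((Nat.nth S n : ℕ) : ℝ)) ^ 2 : ℝ) : EReal)) Filter.atTop := by
  classical
  have hmono := Nat.nth_strictMono hS
  have key : ∀ c : ℝ, c < C → ((c : ℝ) : EReal) ≤ Filter.limsup (fun n : ℕ =>
      (((((Nat.nth S (n + 1) : ℕ) : ℝ) - ((Nat.nth S n : ℕ) : ℝ)) /
        (Real.log ((Nat.nth S n : ℕ) : ℝ)) ^ 2 : ℝ) : EReal)) Filter.atTop := by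
    intro c hc
    apply Filter.le_limsup_of_frequently_le'
    rw [Filter.frequently_atTop]
    intro N₀
    rcases le_or_gt c 0 with hc0 | hc0
    · refine ⟨N₀, le_rfl, ?_⟩
      rw [EReal.coe_le_coe_iff]
      have h1 : ((Nat.nth S N₀ : ℕ) : ℝ) ≤ ((Nat.nth S (N₀ + 1) : ℕ) : ℝ) := by
        exact_mod_cast (hmono (Nat.lt_succ_self N₀)).le
      exact hc0.trans (div_nonneg (by linarith) (by positivity))
    · obtain ⟨M, L, hM, hL, hfree⟩ := h c hc0 hc (Nat.nth S (N₀ + 2) + 1)
      have h1 : N₀ + 2 < Nat.count S M := (Nat.lt_nth_iff_count_lt hS).mpr (by omega)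
      obtain ⟨n, hn⟩ : ∃ n, Nat.count S M = n + 1 := ⟨Nat.count S M - 1, by omega⟩
      refine ⟨n, by omega, ?_⟩
      rw [EReal.coe_le_coe_iff]
      have h2 : Nat.nth S n < M := Nat.nth_lt_of_lt_count (by omega)
      have h3 : M ≤ Nat.nth S (n + 1) := by
        have := Nat.le_nth_count hS M
        rwa [hn] at this
      have h4 : M + L ≤ Nat.nth S (n + 1) := by
        by_contra h5
        exact hfree _ (Nat.nth_mem_of_infinite hS (n + 1)) ⟨h3, by omega⟩
      have h5 : 2 ≤ Nat.nth S n := by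
        have := hmono.id_le n
        simp only [id] at this
        omega
      have h6 : (2 : ℝ) ≤ ((Nat.nth S n : ℕ) : ℝ) := by exact_mod_cast h5
      have h7 : 0 < Real.log ((Nat.nth S n : ℕ) : ℝ) := Real.log_pos (by linarith)
      have h8 : Real.log ((Nat.nth S n : ℕ) : ℝ) ≤ Real.log (M : ℝ) :=
        Real.log_le_log (by linarith) (by exact_mod_cast h2.le)
      rw [le_div_iff₀ (by positivity)]
      have h9 : (L : ℝ) ≤ ((Nat.nth S (n + 1) : ℕ) : ℝ) - ((Nat.nth S n : ℕ) : ℝ) := by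
        have : Nat.nth S n + L ≤ Nat.nth S (n + 1) := by omega
        have : ((Nat.nth S n : ℕ) : ℝ) + L ≤ ((Nat.nth S (n + 1) : ℕ) : ℝ) := by
          exact_mod_cast this
        linarith
      have h10 : c * Real.log ((Nat.nth S n : ℕ) : ℝ) ^ 2 ≤ c * Real.log (M : ℝ) ^ 2 := by
        apply mul_le_mul_of_nonneg_left _ hc0.le
        exact pow_le_pow_left₀ h7.le h8 2
      exact (h10.trans hL.le).trans h9
  by_contra hlt
  rw [not_le] at hlt
  obtain ⟨r, hr1, hr2⟩ := EReal.lt_iff_exists_real_btwn.mp hlt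
  have := key r (by exact_mod_cast hr2)
  exact absurd hr1 (not_lt.mpr this)

section code

variable {K : Type*} [Field K] [Fintype K]

/-- There are irreducible polynomials of every positive degree. -/
lemma exists_irreducible_natDegree (n : ℕ) (hn : 0 < n) :
    ∃ P : K[X], Irreducible P ∧ P.natDegree = n := by
  obtain ⟨p, hp⟩ := CharP.exists K
  have : Fact p.Prime := ⟨CharP.char_is_prime K p⟩
  have : NeZero n := ⟨hn.ne'⟩
  obtain ⟨α, hα⟩ := Field.exists_primitive_element K (FiniteField.Extension K p n)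
  refine ⟨minpoly K α, minpoly.irreducible (Algebra.IsIntegral.isIntegral α), ?_⟩
  rw [(Field.primitive_element_iff_minpoly_natDegree_eq K α).mp hα,
    FiniteField.finrank_extension]

/-- The codes of irreducible polynomials. -/
def IsIrreducibleCode (e : K ≃ Fin (Fintype.card K)) (m : ℕ) : Prop :=
  ∃ P : K[X], Irreducible P ∧ code e P = m

lemma pow_le_code (e : K ≃ Fin (Fintype.card K)) (he : (e 0 : ℕ) = 0) (P : K[X]) (hP : P ≠ 0) :
    Fintype.card K ^ P.natDegree ≤ code e P := by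
  rw [code, Finset.sum_range_succ]
  have h1 : 1 ≤ (e (P.coeff P.natDegree) : ℕ) := by
    rw [Nat.one_le_iff_ne_zero]
    intro h
    have h2 : e (P.coeff P.natDegree) = e 0 := Fin.ext (by rw [h, he])
    have h3 := e.injective h2
    exact hP (leadingCoeff_eq_zero.mp h3)
  calc Fintype.card K ^ P.natDegree = 1 * Fintype.card K ^ P.natDegree := (one_mul _).symm
    _ ≤ (e (P.coeff P.natDegree) : ℕ) * Fintype.card K ^ P.natDegree :=
        Nat.mul_le_mul_right _ h1
    _ ≤ _ := Nat.le_add_left _ _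

lemma infinite_codes (e : K ≃ Fin (Fintype.card K)) (he : (e 0 : ℕ) = 0) :
    (Set.ofPred (IsIrreducibleCode e)).Infinite := by
  rw [Set.infinite_iff_exists_gt]
  intro N
  obtain ⟨P, hP1, hP2⟩ := exists_irreducible_natDegree (K := K) (N + 1) (Nat.succ_pos N)
  refine ⟨code e P, ⟨P, hP1, rfl⟩, ?_⟩
  have h1 := pow_le_code e he P hP1.ne_zero
  rw [hP2] at h1
  have h2 : N + 1 < Fintype.card K ^ (N + 1) := Nat.lt_pow_self Fintype.one_lt_card
  omega

end code

end Pool.Agent.H524
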