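import Mathlib
import Pool.Agent.H524.EvenE
import Pool.Agent.H524.LexB

/-!
Characteristic two: residue classes modulo a power of `X`, by reversing polynomials.
-/

namespace Pool.Agent.H524

set_option linter.unusedSectionVars false
set_option maxHeartbeats 400000

open Polynomial

section reverse

variable {K : Type*} [Field K]

lemma natTrailingDegree_eq_zero_of_coeff {P : K[X]} (h0 : P.coeff 0 ≠ 0) :
    P.natTrailingDegree = 0 := by
  rw [natTrailingDegree_eq_zero]
  exact Or.inr h0

lemma natDegree_reverse_eq {P : K[X]} (h0 : P.coeff 0 ≠ 0) :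
    P.reverse.natDegree = P.natDegree := by
  rw [reverse_natDegree, natTrailingDegree_eq_zero_of_coeff h0, Nat.sub_zero]

lemma reverse_reverse_eq {P : K[X]} (h0 : P.coeff 0 ≠ 0) : P.reverse.reverse = P := by
  rw [reverse, natDegree_reverse_eq h0, reverse, reflect_reflect]

lemma irreducible_reverse {P : K[X]} (hP : Irreducible P) (h0 : P.coeff 0 ≠ 0) :
    Irreducible P.reverse := by
  have hPd : 0 < P.natDegree := hP.natDegree_pos
  have hunit : ∀ U : K[X], U.coeff 0 ≠ 0 → IsUnit U.reverse → IsUnit U := by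
    intro U hU h
    have h1 := natDegree_eq_zero_of_isUnit h
    rw [natDegree_reverse_eq hU] at h1
    rw [eq_C_of_natDegree_eq_zero h1]
    exact (IsUnit.mk0 _ hU).map C
  constructor
  · intro h
    have h1 := natDegree_eq_zero_of_isUnit h
    rw [natDegree_reverse_eq h0] at h1
    omega
  · intro U V hUV
    have h1 : (U * V).coeff 0 ≠ 0 := by
      rw [← hUV, coeff_zero_reverse]
      exact leadingCoeff_ne_zero.mpr hP.ne_zero
    rw [mul_coeff_zero] at h1
    have hU : U.coeff 0 ≠ 0 := left_ne_zero_of_mul h1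
    have hV : V.coeff 0 ≠ 0 := right_ne_zero_of_mul h1
    have h2 : P = U.reverse * V.reverse := by
      rw [← reverse_mul_of_domain, ← hUV, reverse_reverse_eq h0]
    rcases hP.isUnit_or_isUnit h2 with h | h
    · exact Or.inl (hunit U hU h)
    · exact Or.inr (hunit V hV h)

end reverse

section core

variable {K : Type*} [Field K] [Fintype K] [CharP K 2]

/-- The residue class modulo `X ^ m` of the reverse of `X ^ k * G ^ 4 + 1`. -/
theorem rev_class (D m k : ℕ) (G : K[X]) (hG : G.Monic) (hGe : Even G.natDegree)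
    (hdiv : ∀ B : K[X], B ≠ 0 → B.natDegree ≤ D → B ∣ G) (hk : 3 ≤ k)
    (hm : m = k + 4 * G.natDegree + 1)
    (hmod : m % 8 = 0 ∨ m % 8 = 2 ∨ (Fintype.card K % 3 = 1 ∧ m % 2 = 0))
    (hT : ¬ Irreducible (X ^ k * G ^ 4 + 1)) (P : K[X]) (hP : Irreducible P)
    (hc : X ^ m ∣ P - (X ^ k * G ^ 4 + 1).reverse) :
    m + (2 * D + 1) ≤ P.natDegree := by
  obtain ⟨g, hg⟩ : ∃ g, G.natDegree = g := ⟨_, rfl⟩
  obtain ⟨T, hTd⟩ : ∃ T, T = X ^ k * G ^ 4 + 1 := ⟨_, rfl⟩
  rw [← hTd] at hT hc
  rw [hg] at hm
  have hfm : (X ^ k * G ^ 4).Monic := (monic_X_pow k).mul (hG.pow 4)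
  have hfd : (X ^ k * G ^ 4).natDegree = k + 4 * g := by
    rw [(monic_X_pow k).natDegree_mul (hG.pow 4), natDegree_X_pow, hG.natDegree_pow, hg]
  have hTn : T.natDegree = m - 1 := by
    rw [hTd, natDegree_add_eq_left_of_natDegree_lt (by rw [hfd, natDegree_one]; omega), hfd]
    omega
  have hTm : T.Monic := by
    rw [hTd]
    apply hfm.add_of_left
    rw [degree_one, degree_eq_natDegree hfm.ne_zero, hfd]
    exact_mod_cast (by omega : 0 < k + 4 * g)
  have hf0 : (X ^ k * G ^ 4).coeff 0 = 0 := by
    rw [mul_coeff_zero, coeff_X_pow, if_neg (by omega), zero_mul]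
  have hT0 : T.coeff 0 = 1 := by
    rw [hTd, coeff_add, hf0, coeff_one_zero, zero_add]
  -- the coefficients of `P`
  have hPc : ∀ i, i < m → P.coeff i = T.coeff (m - 1 - i) := by
    intro i hi
    rw [X_pow_dvd_iff] at hc
    have h1 := hc i hi
    rw [coeff_sub, sub_eq_zero] at h1
    rw [h1, coeff_reverse, hTn, revAt_le (by omega)]
  have hPm : P.coeff (m - 1) = 1 := by
    rw [hPc (m - 1) (by omega), Nat.sub_self, hT0]
  have hP0 : P.coeff 0 ≠ 0 := by
    rw [hPc 0 (by omega), Nat.sub_zero, ← hTn]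
    show T.leadingCoeff ≠ 0
    rw [hTm.leadingCoeff]
    exact one_ne_zero
  obtain ⟨n, hn⟩ : ∃ n, P.natDegree = n := ⟨_, rfl⟩
  have hnm : m - 1 ≤ n := by
    rw [← hn]
    apply le_natDegree_of_ne_zero
    rw [hPm]
    exact one_ne_zero
  obtain ⟨d, hd⟩ : ∃ d, n = m - 1 + d := ⟨n - (m - 1), by omega⟩
  have hrev := irreducible_reverse hP hP0
  have hRc : ∀ l, l ≤ n → P.reverse.coeff l = P.coeff (n - l) := by
    intro l hl
    rw [coeff_reverse, hn, revAt_le hl]
  have hRc0 : ∀ l, n < l → P.reverse.coeff l = 0 := by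
    intro l hl
    apply coeff_eq_zero_of_natDegree_lt
    have := reverse_natDegree_le P
    omega
  rw [hn]
  by_contra hlt
  have hd2 : d ≤ 2 * D + 1 := by omega
  rcases Nat.eq_zero_or_pos d with hd0 | hd0
  · -- the representative itself
    have h1 : P.reverse = T := by
      ext l
      rcases Nat.lt_or_ge n l with hl | hl
      · rw [hRc0 l hl, coeff_eq_zero_of_natDegree_lt (by omega)]
      · rw [hRc l hl, hPc (n - l) (by omega)]
        congr 1
        omega
    rw [h1] at hrev
    exact hT hrev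
  · obtain ⟨H, hH⟩ : ∃ H, H = P.reverse - X ^ (d + k) * G ^ 4 := ⟨_, rfl⟩
    have hXc : ∀ l, d ≤ l → (X ^ (d + k) * G ^ 4 : K[X]).coeff l =
        (X ^ k * G ^ 4 : K[X]).coeff (l - d) := by
      intro l hl
      rw [pow_add, mul_assoc, coeff_X_pow_mul', if_pos hl]
    have hHc : ∀ l, d < l → H.coeff l = 0 := by
      intro l hl
      rw [hH, coeff_sub, hXc l hl.le, sub_eq_zero]
      rcases Nat.lt_or_ge n l with hl2 | hl2
      · rw [hRc0 l hl2, coeff_eq_zero_of_natDegree_lt (by rw [hfd]; omega)]
      · rw [hRc l hl2, hPc (n - l) (by omega), hTd, coeff_add, coeff_one,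
          if_neg (by omega), add_zero]
        congr 1
        omega
    have hHd : H.coeff d = 1 := by
      rw [hH, coeff_sub, hXc d le_rfl, Nat.sub_self, hf0, sub_zero, hRc d (by omega)]
      have : n - d = m - 1 := by omega
      rw [this, hPm]
    have hHn : H.natDegree = d := by
      apply le_antisymm
      · rw [natDegree_le_iff_coeff_eq_zero]
        exact fun l hl => hHc l hl
      · apply le_natDegree_of_ne_zero
        rw [hHd]
        exact one_ne_zero
    have hHm : H.Monic := by
      show H.leadingCoeff = 1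
      rw [leadingCoeff, hHn, hHd]
    have hsum : X ^ (d + k) * G ^ 4 + H = P.reverse := by rw [hH]; ring
    have hd8 : (d + k + 4 * G.natDegree - d) = m - 1 := by rw [hg]; omega
    refine even_core G H hG hGe hHm d (d + k) hHn hd0 (by omega)
      (fun B hB hBd => hdiv B hB (by omega)) (by rw [hg]; omega) (by omega) ?_ ?_
    · rw [hd8]
      rcases hmod with h | h | h
      · right; left; omega
      · left; omega
      · right; right; exact h.1
    · rw [hsum]
      exact hrev

end core

end Pool.Agent.H524
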