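import Mathlib
import Pool.Agent.H524.RevA
import Pool.Agent.H524.ProgE

/-!
Characteristic two: residue classes modulo powers of `X`, the bounds.
-/

namespace Pool.Agent.H524

set_option linter.unusedSectionVars false
set_option maxHeartbeats 400000

open Polynomial

section exists_G

local instance : Fact (Nat.Prime 2) := ⟨Nat.prime_two⟩

variable {K : Type*} [Field K] [Fintype K] [CharP K 2]

/-- A multiple of `lcmPoly K D` for which `X ^ k * G ^ 4 + 1` is reducible. -/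
lemma exists_G (D : ℕ) (hD : 1 ≤ D) :
    ∃ e, e ≤ D + 2 ∧ ∀ k : ℕ, ∃ G : K[X], G.Monic ∧ Even G.natDegree ∧
      G.natDegree = (lcmPoly K D).natDegree + e ∧
      (∀ B : K[X], B ≠ 0 → B.natDegree ≤ D → B ∣ G) ∧ ¬ Irreducible (X ^ k * G ^ 4 + 1) := by
  obtain ⟨R₀, hR₀, hR₀d⟩ := exists_irreducible_natDegree (K := K) (D + 1) (Nat.succ_pos D)
  -- a monic irreducible polynomial
  obtain ⟨R, hRm, hR, hRd⟩ : ∃ R : K[X], R.Monic ∧ Irreducible R ∧ R.natDegree = D + 1 := by
    have h0 : R₀.leadingCoeff⁻¹ ≠ 0 := inv_ne_zero (leadingCoeff_ne_zero.mpr hR₀.ne_zero)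
    refine ⟨R₀ * C R₀.leadingCoeff⁻¹, monic_mul_leadingCoeff_inv hR₀.ne_zero, ?_, ?_⟩
    · rw [mul_comm]
      exact (irreducible_isUnit_mul ((IsUnit.mk0 _ h0).map C)).mpr hR₀
    · rw [mul_comm, natDegree_C_mul h0, hR₀d]
  have hfact : Fact (Irreducible R) := ⟨hR⟩
  have hfin : Module.Finite K (AdjoinRoot R) := (AdjoinRoot.powerBasis hR.ne_zero).finite
  have hperf : PerfectField (AdjoinRoot R) := Algebra.IsAlgebraic.perfectField K
  have hchar : CharP (AdjoinRoot R) 2 := charP_of_injective_algebraMap' K 2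
  have hexp : ExpChar (AdjoinRoot R) 2 := ExpChar.prime Nat.prime_two
  have hroot4 : ∀ y : AdjoinRoot R, ∃ x, x ^ 4 = y := by
    intro y
    obtain ⟨a, ha⟩ := (frobeniusEquiv (AdjoinRoot R) 2).surjective y
    obtain ⟨b, hb⟩ := (frobeniusEquiv (AdjoinRoot R) 2).surjective a
    refine ⟨b, ?_⟩
    rw [frobeniusEquiv_apply, frobenius_def] at ha hb
    rw [← ha, ← hb]
    ring
  have h2 : (2 : AdjoinRoot R) = 0 := by
    have := CharP.cast_eq_zero (AdjoinRoot R) 2
    exact_mod_cast this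
  obtain ⟨e, he⟩ : ∃ e, e = (D + 1) + (D + 1) % 2 := ⟨_, rfl⟩
  refine ⟨e, by omega, ?_⟩
  intro k
  have hX0 : AdjoinRoot.mk R X ≠ 0 := by
    intro h
    rw [AdjoinRoot.mk_eq_zero] at h
    have := natDegree_le_of_dvd h X_ne_zero
    rw [natDegree_X] at this
    omega
  have hL0 : AdjoinRoot.mk R (lcmPoly K D) ≠ 0 := by
    intro h
    rw [AdjoinRoot.mk_eq_zero] at h
    have h1 := isCoprime_lcmPoly D R hR.ne_zero (by
      intro R' hR' hdvd
      have h2 : Associated R' R := hR'.associated_of_dvd hR hdvd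
      have h3 : R'.natDegree = R.natDegree :=
        natDegree_eq_of_degree_eq (degree_eq_degree_of_associated h2)
      omega)
    exact hR.not_isUnit (h1.isUnit_of_dvd' h dvd_rfl)
  obtain ⟨x, hx⟩ := hroot4 ((AdjoinRoot.mk R X ^ k * AdjoinRoot.mk R (lcmPoly K D) ^ 4)⁻¹)
  obtain ⟨y, hy⟩ := AdjoinRoot.mk_surjective (g := R) x
  obtain ⟨Y, hY⟩ : ∃ Y, Y = X ^ (e - (D + 1)) * R + y %ₘ R := ⟨_, rfl⟩
  have hYR : (X ^ (e - (D + 1)) * R).Monic := (monic_X_pow _).mul hRm
  have hYRd : (X ^ (e - (D + 1)) * R).natDegree = e := by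
    rw [(monic_X_pow _).natDegree_mul hRm, natDegree_X_pow, hRd]
    omega
  have hlt : (y %ₘ R).degree < (X ^ (e - (D + 1)) * R).degree := by
    refine lt_of_lt_of_le (degree_modByMonic_lt y hRm) ?_
    rw [degree_eq_natDegree hRm.ne_zero, degree_eq_natDegree hYR.ne_zero, hYRd, hRd]
    exact_mod_cast (by omega : D + 1 ≤ e)
  have hYm : Y.Monic := by rw [hY]; exact hYR.add_of_left hlt
  have hYd : Y.natDegree = e := by
    rw [hY, natDegree_eq_of_degree_eq (degree_add_eq_left_of_degree_lt hlt), hYRd]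
  have hYmk : AdjoinRoot.mk R Y = x := by
    rw [hY, map_add, map_mul, AdjoinRoot.mk_self, mul_zero, zero_add, ← hy]
    rw [AdjoinRoot.mk_eq_mk]
    have := modByMonic_add_div y R
    refine ⟨-(y /ₘ R), ?_⟩
    linear_combination this
  have hLm := monic_lcmPoly K D
  have hGd : (lcmPoly K D * Y).natDegree = (lcmPoly K D).natDegree + e := by
    rw [hLm.natDegree_mul hYm, hYd]
  refine ⟨lcmPoly K D * Y, hLm.mul hYm, ?_, hGd, ?_, ?_⟩
  · rw [hGd]
    apply (even_natDegree_lcmPoly D).add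
    rw [he]
    rcases Nat.even_or_odd (D + 1) with h | h
    · rw [Nat.even_iff.mp h, add_zero]; exact h
    · rw [Nat.odd_iff.mp h]; exact h.add_one
  · intro B hB hBd
    exact Dvd.dvd.mul_right (dvd_lcmPoly B hB hBd) _
  · intro hirr
    have hdvd : R ∣ X ^ k * (lcmPoly K D * Y) ^ 4 + 1 := by
      rw [← AdjoinRoot.mk_eq_zero]
      rw [map_add, map_mul, map_pow, map_pow, map_mul, map_one, hYmk, mul_pow, hx]
      have h3 : AdjoinRoot.mk R X ^ k * AdjoinRoot.mk R (lcmPoly K D) ^ 4 ≠ 0 :=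
        mul_ne_zero (pow_ne_zero _ hX0) (pow_ne_zero _ hL0)
      rw [← mul_assoc, mul_inv_cancel₀ h3]
      linear_combination h2
    have h4 : Associated R (X ^ k * (lcmPoly K D * Y) ^ 4 + 1) := hR.associated_of_dvd hirr hdvd
    have h5 : R.natDegree = (X ^ k * (lcmPoly K D * Y) ^ 4 + 1).natDegree :=
      natDegree_eq_of_degree_eq (degree_eq_degree_of_associated h4)
    have h6 : (X ^ k * (lcmPoly K D * Y) ^ 4).natDegree =
        k + 4 * ((lcmPoly K D).natDegree + e) := by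
      rw [(monic_X_pow k).natDegree_mul ((hLm.mul hYm).pow 4), natDegree_X_pow,
        (hLm.mul hYm).natDegree_pow, hGd]
    rw [natDegree_add_eq_left_of_natDegree_lt (by rw [h6, natDegree_one]; omega), h6, hRd] at h5
    omega

/-- The residue classes, for a given `D`. -/
lemma rev_exists (D m : ℕ) (hD : 1 ≤ D) (hm8 : m % 8 = 0)
    (hm : 4 * ((lcmPoly K D).natDegree + (D + 2)) + 4 ≤ m) :
    ∃ a : K[X], a.coeff 0 ≠ 0 ∧ ∀ P : K[X], Irreducible P → X ^ m ∣ P - a →
      m + (2 * D + 1) ≤ P.natDegree := by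
  obtain ⟨e, he, hG⟩ := exists_G (K := K) D hD
  obtain ⟨k, hk⟩ : ∃ k, m = k + 4 * ((lcmPoly K D).natDegree + e) + 1 :=
    ⟨m - 1 - 4 * ((lcmPoly K D).natDegree + e), by omega⟩
  obtain ⟨G, hGm, hGe, hGd, hGdiv, hGT⟩ := hG k
  refine ⟨(X ^ k * G ^ 4 + 1).reverse, ?_, ?_⟩
  · rw [coeff_zero_reverse]
    apply leadingCoeff_ne_zero.mpr
    intro h
    have h1 := congrArg (fun P : K[X] => P.coeff 0) h
    simp only [coeff_add, mul_coeff_zero, coeff_X_pow, coeff_one_zero, coeff_zero] at h1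
    rw [if_neg (by omega), zero_mul, zero_add] at h1
    exact one_ne_zero h1
  · intro P hP hc
    exact rev_class D m k G hGm hGe hGdiv (by omega) (by rw [hGd]; exact hk) (Or.inl hm8) hGT P hP hc

end exists_G

end Pool.Agent.H524
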