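import Mathlib
import Pool.Agent.H524.RevB

/-!
Characteristic two: residue classes modulo powers of `X`, the final bounds.
-/

namespace Pool.Agent.H524

set_option linter.unusedSectionVars false
set_option maxHeartbeats 400000

open Polynomial

variable {K : Type*} [Field K] [Fintype K]

lemma natDegree_lcmPoly_succ_le (D : ℕ) :
    (lcmPoly K (D + 1)).natDegree + 2 ≤ 2 * Fintype.card K ^ (D + 1) := by
  have hq2 : 2 ≤ Fintype.card K := Fintype.one_lt_card
  have h2 := natDegree_lcmPoly_mul K (D + 1)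
  obtain ⟨r, hr⟩ : ∃ r, Fintype.card K = r + 2 := ⟨Fintype.card K - 2, by omega⟩
  rw [hr] at h2 ⊢
  have h3 : r + 2 - 1 = r + 1 := by omega
  rw [h3] at h2
  obtain ⟨g, hg⟩ : ∃ g, (lcmPoly K (D + 1)).natDegree = g := ⟨_, rfl⟩
  rw [hg] at h2 ⊢
  obtain ⟨t, ht⟩ : ∃ t, (r + 2) ^ (D + 1) = t := ⟨_, rfl⟩
  have h4 : (r + 2) ^ (D + 1 + 1) = t * (r + 2) := by rw [pow_succ, ht]
  rw [h4] at h2
  rw [ht]
  by_contra hlt
  rw [not_le] at hlt
  have ht1 : 1 ≤ t := by rw [← ht]; exact Nat.one_le_pow _ _ (by omega)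
  have h5 : (2 * t) * (r + 1) < (g + 2) * (r + 1) := Nat.mul_lt_mul_of_pos_right hlt (by omega)
  have h6 : (g + 2) * (r + 1) = g * (r + 1) + 2 * (r + 1) := by ring
  have h7 : t * r + r ≤ t * r + t * r := by nlinarith
  nlinarith

/-- Every power of `X`. -/
theorem rev_all (hK : Even (Fintype.card K)) :
    ∃ c : ℝ, 0 < c ∧ ∀ m : ℕ, ∃ a : K[X], a.coeff 0 ≠ 0 ∧
      ∀ P : K[X], Irreducible P → X ^ m ∣ P - a →
        c * ((Fintype.card K : ℝ) ^ m * Real.log ((Fintype.card K : ℝ) ^ m) ^ 2) ≤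
        (Fintype.card K : ℝ) ^ P.natDegree := by
  have hchar : ringChar K = 2 :=
    FiniteField.even_card_iff_char_two.mpr (Nat.even_iff.mp hK)
  have : CharP K 2 := ringChar.eq_iff.mp hchar
  have hq2 : 2 ≤ Fintype.card K := Fintype.one_lt_card
  have hq : (2 : ℝ) ≤ (Fintype.card K : ℝ) := by exact_mod_cast hq2
  have hlog : 0 < Real.log (Fintype.card K : ℝ) := Real.log_pos (by linarith)
  set q : ℝ := (Fintype.card K : ℝ) with hqdef
  obtain ⟨m₀, hm₀⟩ : ∃ m₀, m₀ = 4 * ((lcmPoly K 1).natDegree + (1 + 2)) + 4 + 16 := ⟨_, rfl⟩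
  set c₁ : ℝ := 1 / (q ^ m₀ * ((m₀ : ℝ) * Real.log q) ^ 2) with hc₁
  set c₂ : ℝ := 1 / (576 * q ^ 8 * Real.log q ^ 2) with hc₂
  have hm₀1 : 1 ≤ m₀ := by omega
  have hm₀r : (1 : ℝ) ≤ m₀ := by exact_mod_cast hm₀1
  have hm₀pos : (0 : ℝ) < m₀ := by linarith
  have hc₁0 : 0 < c₁ := by rw [hc₁]; positivity
  have hc₂0 : 0 < c₂ := by rw [hc₂]; positivity
  refine ⟨min c₁ c₂, lt_min hc₁0 hc₂0, ?_⟩
  intro m
  rcases Nat.lt_or_ge m m₀ with hm | hm
  · refine ⟨1, by rw [coeff_one_zero]; exact one_ne_zero, ?_⟩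
    intro P _ _
    have h1 : (1 : ℝ) ≤ q ^ P.natDegree := one_le_pow₀ (by linarith)
    refine le_trans ?_ h1
    rw [Real.log_pow]
    have h2 : q ^ m ≤ q ^ m₀ := pow_le_pow_right₀ (by linarith) hm.le
    have h3 : ((m : ℝ) * Real.log q) ^ 2 ≤ ((m₀ : ℝ) * Real.log q) ^ 2 := by
      apply pow_le_pow_left₀ (by positivity)
      apply mul_le_mul_of_nonneg_right _ hlog.le
      exact_mod_cast hm.le
    calc min c₁ c₂ * (q ^ m * ((m : ℝ) * Real.log q) ^ 2)
        ≤ c₁ * (q ^ m₀ * ((m₀ : ℝ) * Real.log q) ^ 2) := by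
          apply mul_le_mul (min_le_left _ _) _ (by positivity) hc₁0.le
          exact mul_le_mul h2 h3 (by positivity) (by positivity)
      _ = 1 := by rw [hc₁]; field_simp
  · -- the rounded exponent
    obtain ⟨M, hM⟩ : ∃ M, M = 8 * (m / 8) := ⟨_, rfl⟩
    have hMm : M ≤ m ∧ m ≤ M + 7 := by omega
    obtain ⟨D, hD⟩ : ∃ D, D = Nat.findGreatest
      (fun D => 4 * ((lcmPoly K D).natDegree + (D + 2)) + 4 ≤ M) M := ⟨_, rfl⟩
    have hle1 : 4 * ((lcmPoly K 1).natDegree + (1 + 2)) + 4 ≤ M := by omega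
    have hD1 : 1 ≤ D := by
      rw [hD]
      exact Nat.le_findGreatest
        (P := fun D => 4 * ((lcmPoly K D).natDegree + (D + 2)) + 4 ≤ M) (by omega) hle1
    have hDM : 4 * ((lcmPoly K D).natDegree + (D + 2)) + 4 ≤ M := by
      rw [hD]
      exact Nat.findGreatest_spec
        (P := fun D => 4 * ((lcmPoly K D).natDegree + (D + 2)) + 4 ≤ M)
        (show 1 ≤ M by omega) hle1
    have hD2 : M < 4 * ((lcmPoly K (D + 1)).natDegree + ((D + 1) + 2)) + 4 := by
      by_contra hle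
      rw [not_lt] at hle
      have h1 := Nat.le_findGreatest
        (P := fun D => 4 * ((lcmPoly K D).natDegree + (D + 2)) + 4 ≤ M)
        (show D + 1 ≤ M by omega) hle
      rw [← hD] at h1
      omega
    obtain ⟨a, ha0, ha⟩ := rev_exists (K := K) D M hD1 (by omega) hDM
    refine ⟨a, ha0, ?_⟩
    intro P hP hc
    have h1 := ha P hP (dvd_trans (pow_dvd_pow X hMm.1) hc)
    have hbound : M ≤ 12 * Fintype.card K ^ (D + 1) := by
      have h2 := natDegree_lcmPoly_succ_le (K := K) D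
      have h3 : D + 1 < Fintype.card K ^ (D + 1) := Nat.lt_pow_self (by omega)
      omega
    have hmb : m ≤ 24 * Fintype.card K ^ (D + 1) := by omega
    have hmr : (m : ℝ) ≤ 24 * q ^ (D + 1) := by
      have : ((m : ℕ) : ℝ) ≤ ((24 * Fintype.card K ^ (D + 1) : ℕ) : ℝ) := by exact_mod_cast hmb
      push_cast at this
      exact this
    have hsq : (m : ℝ) ^ 2 ≤ (24 * q ^ (D + 1)) ^ 2 := pow_le_pow_left₀ (by positivity) hmr 2
    rw [Real.log_pow]
    calc min c₁ c₂ * (q ^ m * ((m : ℝ) * Real.log q) ^ 2)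
        ≤ c₂ * (q ^ m * ((m : ℝ) * Real.log q) ^ 2) := by
          apply mul_le_mul_of_nonneg_right (min_le_right _ _) (by positivity)
      _ = q ^ m * (m : ℝ) ^ 2 / (576 * q ^ 8) := by
          rw [hc₂]; field_simp
      _ ≤ q ^ (M + 7) * (24 * q ^ (D + 1)) ^ 2 / (576 * q ^ 8) := by
          apply div_le_div_of_nonneg_right _ (by positivity)
          exact mul_le_mul (pow_le_pow_right₀ (by linarith) hMm.2) hsq (by positivity)
            (by positivity)
      _ = q ^ (M + (2 * D + 1)) := by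
          have h4 : q ^ (M + 7) * (24 * q ^ (D + 1)) ^ 2 =
              q ^ (M + (2 * D + 1)) * (576 * q ^ 8) := by ring
          rw [h4, mul_div_assoc, div_self (by positivity), mul_one]
      _ ≤ q ^ P.natDegree := pow_le_pow_right₀ (by linarith) h1

/-- The constant in the limit superior. -/
theorem rev_limsup (hK : Even (Fintype.card K)) (c : ℝ)
    (hc : c < ((Fintype.card K : ℝ) - 1) ^ 2 /
      (16 * (Fintype.card K : ℝ) * Real.log (Fintype.card K : ℝ) ^ 2)) (B : ℕ) :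
    ∃ m : ℕ, B ≤ m ∧ ∃ a : K[X], a.coeff 0 ≠ 0 ∧
      ∀ P : K[X], Irreducible P → X ^ m ∣ P - a →
        c * ((Fintype.card K : ℝ) ^ m * Real.log ((Fintype.card K : ℝ) ^ m) ^ 2) <
        (Fintype.card K : ℝ) ^ P.natDegree := by
  have hchar : ringChar K = 2 :=
    FiniteField.even_card_iff_char_two.mpr (Nat.even_iff.mp hK)
  have : CharP K 2 := ringChar.eq_iff.mp hchar
  have hq2 : 2 ≤ Fintype.card K := Fintype.one_lt_card
  have hq : (2 : ℝ) ≤ (Fintype.card K : ℝ) := by exact_mod_cast hq2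
  have hlog : 0 < Real.log (Fintype.card K : ℝ) := Real.log_pos (by linarith)
  set q : ℝ := (Fintype.card K : ℝ) with hqdef
  have hq1 : 0 < q - 1 := by linarith
  set κ : ℝ := 16 * c * (Real.log q) ^ 2 * q with hκ
  have hlim : κ * (1 / (q - 1)) ^ 2 < 1 := by
    rw [lt_div_iff₀ (by positivity)] at hc
    rw [div_pow, one_pow, mul_one_div, div_lt_one (by positivity), hκ]
    linarith
  have htend : Filter.Tendsto (fun D : ℕ => κ * (1 / (q - 1) + ((D : ℝ) ^ 1 / q ^ D +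
      5 * (q⁻¹) ^ D)) ^ 2) Filter.atTop (nhds (κ * (1 / (q - 1) + (0 + 5 * 0)) ^ 2)) := by
    have h1 : Filter.Tendsto (fun D : ℕ => (q⁻¹) ^ D) Filter.atTop (nhds 0) :=
      tendsto_pow_atTop_nhds_zero_of_lt_one (by positivity)
        (inv_lt_one_of_one_lt₀ (by linarith))
    have h2 : Filter.Tendsto (fun D : ℕ => (D : ℝ) ^ 1 / q ^ D) Filter.atTop (nhds 0) :=
      tendsto_pow_const_div_const_pow_of_one_lt 1 (by linarith)
    exact (((h2.add (h1.const_mul 5)).const_add (1 / (q - 1))).pow 2).const_mul κ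
  have hev : ∀ᶠ D : ℕ in Filter.atTop, κ * (1 / (q - 1) + ((D : ℝ) ^ 1 / q ^ D +
      5 * (q⁻¹) ^ D)) ^ 2 < 1 := by
    apply htend.eventually_lt_const
    simpa using hlim
  obtain ⟨D, hDe, hDB⟩ := (hev.and (Filter.eventually_ge_atTop (max B 1))).exists
  have hDB1 : B ≤ D := le_trans (le_max_left _ _) hDB
  have hD1 : 1 ≤ D := le_trans (le_max_right _ _) hDB
  obtain ⟨g, hg⟩ : ∃ g, (lcmPoly K D).natDegree = g := ⟨_, rfl⟩
  have hgD := le_natDegree_lcmPoly (K := K) D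
  have hgq := natDegree_lcmPoly_mul K D
  rw [hg] at hgD hgq
  obtain ⟨m, hm8, hm1, hm2⟩ : ∃ m, m % 8 = 0 ∧ 4 * (g + (D + 2)) + 4 ≤ m ∧
      m ≤ 4 * (g + D + 5) :=
    ⟨8 * ((4 * (g + (D + 2)) + 4 + 7) / 8), by omega, by omega, by omega⟩
  obtain ⟨a, ha0, ha⟩ := rev_exists (K := K) D m hD1 hm8 (by rw [hg]; exact hm1)
  refine ⟨m, by omega, a, ha0, ?_⟩
  intro P hP hdvd
  have h1 := ha P hP hdvd
  rw [Real.log_pow]
  have hqD : (0 : ℝ) < q ^ D := by positivity
  have hmq : (m : ℝ) ≤ 4 * ((1 / (q - 1) + ((D : ℝ) ^ 1 / q ^ D + 5 * (q⁻¹) ^ D)) *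
      q ^ (D + 1)) := by
    have h2 : (g : ℝ) * (q - 1) + q = q ^ (D + 1) := by
      have h7 : ((g * (Fintype.card K - 1) + Fintype.card K : ℕ) : ℝ) =
          ((Fintype.card K ^ (D + 1) : ℕ) : ℝ) := by rw [hgq]
      push_cast [Nat.cast_sub (by omega : 1 ≤ Fintype.card K)] at h7
      exact h7
    have h4 : (g : ℝ) ≤ q ^ (D + 1) / (q - 1) := by
      rw [le_div_iff₀ hq1]
      linarith
    have h5 : (m : ℝ) ≤ 4 * (g + D + 5) := by exact_mod_cast hm2
    have h6 : (q⁻¹) ^ D * q ^ D = 1 := by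
      rw [← mul_pow, inv_mul_cancel₀ (by positivity), one_pow]
    have h7 : (D : ℝ) / q ^ D * q ^ D = D := by
      field_simp
    have hD0 : (0 : ℝ) ≤ D := Nat.cast_nonneg D
    calc (m : ℝ) ≤ 4 * (q ^ (D + 1) / (q - 1) + (D * q + 5 * q)) := by nlinarith
      _ = 4 * (q ^ (D + 1) / (q - 1) + ((D : ℝ) / q ^ D * q ^ D * q +
          5 * ((q⁻¹) ^ D * q ^ D) * q)) := by
          rw [h6, h7]; ring
      _ = _ := by rw [pow_one, pow_succ]; ring
  rcases le_or_gt c 0 with hc0 | hc0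
  · have h2 : c * (q ^ m * ((m : ℝ) * Real.log q) ^ 2) ≤ 0 :=
      mul_nonpos_of_nonpos_of_nonneg hc0 (by positivity)
    have h4 : (0 : ℝ) < q ^ P.natDegree := by positivity
    linarith
  · have hκ0 : 0 < κ := by rw [hκ]; positivity
    have hsq : (m : ℝ) ^ 2 ≤
        (4 * ((1 / (q - 1) + ((D : ℝ) ^ 1 / q ^ D + 5 * (q⁻¹) ^ D)) * q ^ (D + 1))) ^ 2 :=
      pow_le_pow_left₀ (by positivity) hmq 2
    have h16 : 0 < κ / (16 * q) := by positivity
    calc c * (q ^ m * ((m : ℝ) * Real.log q) ^ 2)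
        = q ^ m * (κ / (16 * q) * (m : ℝ) ^ 2) := by
          rw [hκ]; field_simp
      _ ≤ q ^ m * (κ / (16 * q) * (4 * ((1 / (q - 1) + ((D : ℝ) ^ 1 / q ^ D +
            5 * (q⁻¹) ^ D)) * q ^ (D + 1))) ^ 2) := by
          apply mul_le_mul_of_nonneg_left _ (by positivity)
          exact mul_le_mul_of_nonneg_left hsq h16.le
      _ = q ^ m * ((κ * (1 / (q - 1) + ((D : ℝ) ^ 1 / q ^ D + 5 * (q⁻¹) ^ D)) ^ 2) *
            q ^ (2 * D + 1)) := by
          field_simp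
          ring
      _ < q ^ m * (1 * q ^ (2 * D + 1)) := by
          apply mul_lt_mul_of_pos_left _ (by positivity)
          exact mul_lt_mul_of_pos_right hDe (by positivity)
      _ = q ^ (m + (2 * D + 1)) := by rw [one_mul, ← pow_add]
      _ ≤ q ^ P.natDegree := pow_le_pow_right₀ (by linarith) h1

end Pool.Agent.H524
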