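import Mathlib
import Pool.Agent.H524.OddC
import Pool.Agent.H524.RevA
import Pool.Agent.H524.ProgE

/-!
Odd characteristic: residue classes modulo a power of `X`, by reversing polynomials.
-/

namespace Pool.Agent.H524

set_option linter.unusedSectionVars false
set_option maxHeartbeats 400000

open Polynomial

section core

variable {K : Type*} [Field K] [Fintype K]

/-- The residue class modulo `X ^ m` of the reverse of `X ^ k * G ^ p + 1`. -/
theorem rev_class_odd (p : ℕ) [hp : Fact p.Prime] [CharP K p] (hp2 : p ≠ 2) (h m k : ℕ)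
    (G : K[X]) (hG : G.Monic)
    (hdiv : ∀ B : K[X], B ≠ 0 → B.natDegree ≤ h / 2 → B ∣ G)
    (htw : ∀ (d : ℕ) (H : K[X]), 1 ≤ d → d ≤ h → H.Monic → H.natDegree = d →
      (euler H - C ((m - 1 + d : ℕ) : K) * H) ∣ G) (hk : 1 ≤ k)
    (hm : m = k + p * G.natDegree + 1) (hm3 : 3 ≤ m)
    (hmod : (m - 1) % (4 * p) = 1 ∨ (m - 1) % (4 * p) = 4 * p - 1)
    (hT : ¬ Irreducible (X ^ k * G ^ p + 1)) (P : K[X]) (hP : Irreducible P)
    (hc : X ^ m ∣ P - (X ^ k * G ^ p + 1).reverse) :
    m + h ≤ P.natDegree := by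
  obtain ⟨g, hg⟩ : ∃ g, G.natDegree = g := ⟨_, rfl⟩
  obtain ⟨T, hTd⟩ : ∃ T, T = X ^ k * G ^ p + 1 := ⟨_, rfl⟩
  rw [← hTd] at hT hc
  rw [hg] at hm
  have hfm : (X ^ k * G ^ p).Monic := (monic_X_pow k).mul (hG.pow p)
  have hfd : (X ^ k * G ^ p).natDegree = k + p * g := by
    rw [(monic_X_pow k).natDegree_mul (hG.pow p), natDegree_X_pow, hG.natDegree_pow, hg]
  have hTn : T.natDegree = m - 1 := by
    rw [hTd, natDegree_add_eq_left_of_natDegree_lt (by rw [hfd, natDegree_one]; omega), hfd]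
    omega
  have hTm : T.Monic := by
    rw [hTd]
    apply hfm.add_of_left
    rw [degree_one, degree_eq_natDegree hfm.ne_zero, hfd]
    exact_mod_cast (by omega : 0 < k + p * g)
  have hf0 : (X ^ k * G ^ p).coeff 0 = 0 := by
    rw [mul_coeff_zero, coeff_X_pow, if_neg (by omega), zero_mul]
  have hT0 : T.coeff 0 = 1 := by
    rw [hTd, coeff_add, hf0, coeff_one_zero, zero_add]
  -- the coefficients of `P`
  have hPc : ∀ i, i < m → P.coeff i = T.coeff (m - 1 - i) := by
    intro i hi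
    rw [X_pow_dvd_iff] at hc
    have h1 := hc i hi
    rw [coeff_sub, sub_eq_zero] at h1
    rw [h1, coeff_reverse, hTn, revAt_le (by omega)]
  have hPm : P.coeff (m - 1) = 1 := by
    rw [hPc (m - 1) (by omega), Nat.sub_self, hT0]
  have hP0 : P.coeff 0 ≠ 0 := by
    rw [hPc 0 (by omega), Nat.sub_zero, ← hTn]
    show T.leadingCoeff ≠ 0
    rw [hTm.leadingCoeff]
    exact one_ne_zero
  obtain ⟨n, hn⟩ : ∃ n, P.natDegree = n := ⟨_, rfl⟩
  have hnm : m - 1 ≤ n := by
    rw [← hn]
    apply le_natDegree_of_ne_zero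
    rw [hPm]
    exact one_ne_zero
  obtain ⟨d, hd⟩ : ∃ d, n = m - 1 + d := ⟨n - (m - 1), by omega⟩
  have hrev := irreducible_reverse hP hP0
  have hRc : ∀ l, l ≤ n → P.reverse.coeff l = P.coeff (n - l) := by
    intro l hl
    rw [coeff_reverse, hn, revAt_le hl]
  have hRc0 : ∀ l, n < l → P.reverse.coeff l = 0 := by
    intro l hl
    apply coeff_eq_zero_of_natDegree_lt
    have := reverse_natDegree_le P
    omega
  rw [hn]
  by_contra hlt
  have hd2 : d ≤ h := by omega
  rcases Nat.eq_zero_or_pos d with hd0 | hd0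
  · -- the representative itself
    have h1 : P.reverse = T := by
      ext l
      rcases Nat.lt_or_ge n l with hl | hl
      · rw [hRc0 l hl, coeff_eq_zero_of_natDegree_lt (by omega)]
      · rw [hRc l hl, hPc (n - l) (by omega)]
        congr 1
        omega
    rw [h1] at hrev
    exact hT hrev
  · obtain ⟨H, hH⟩ : ∃ H, H = P.reverse - X ^ (d + k) * G ^ p := ⟨_, rfl⟩
    have hXc : ∀ l, d ≤ l → (X ^ (d + k) * G ^ p : K[X]).coeff l =
        (X ^ k * G ^ p : K[X]).coeff (l - d) := by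
      intro l hl
      rw [pow_add, mul_assoc, coeff_X_pow_mul', if_pos hl]
    have hHc : ∀ l, d < l → H.coeff l = 0 := by
      intro l hl
      rw [hH, coeff_sub, hXc l hl.le, sub_eq_zero]
      rcases Nat.lt_or_ge n l with hl2 | hl2
      · rw [hRc0 l hl2, coeff_eq_zero_of_natDegree_lt (by rw [hfd]; omega)]
      · rw [hRc l hl2, hPc (n - l) (by omega), hTd, coeff_add, coeff_one,
          if_neg (by omega), add_zero]
        congr 1
        omega
    have hHd : H.coeff d = 1 := by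
      rw [hH, coeff_sub, hXc d le_rfl, Nat.sub_self, hf0, sub_zero, hRc d (by omega)]
      have : n - d = m - 1 := by omega
      rw [this, hPm]
    have hHn : H.natDegree = d := by
      apply le_antisymm
      · rw [natDegree_le_iff_coeff_eq_zero]
        exact fun l hl => hHc l hl
      · apply le_natDegree_of_ne_zero
        rw [hHd]
        exact one_ne_zero
    have hHm : H.Monic := by
      show H.leadingCoeff = 1
      rw [leadingCoeff, hHn, hHd]
    have hsum : X ^ (d + k) * G ^ p + H = P.reverse := by rw [hH]; ring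
    have hsn : ((d + k : ℕ) : K) = ((m - 1 + d : ℕ) : K) := by
      have h1 : m - 1 + d = d + k + p * g := by omega
      have hpK : (p : K) = 0 := CharP.cast_eq_zero K p
      rw [h1]
      push_cast
      rw [hpK]
      ring
    refine odd_core p hp2 G H hG hHm d (d + k) n hHn hd0 (by omega) (by rw [hg]; omega)
      (by omega) (by omega) (fun B hB hBd => hdiv B hB (by omega)) ?_ ?_ ?_
    · rw [hsn]
      exact htw d H hd0 hd2 hHm hHn
    · have : n - d = m - 1 := by omega
      rw [this]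
      exact hmod
    · rw [hsum]
      exact hrev

end core

section exists_G

variable {K : Type*} [Field K] [Fintype K]

/-- A multiple of a given polynomial for which `X ^ k * G ^ p + 1` is reducible. -/
lemma exists_G_odd (p : ℕ) [hp : Fact p.Prime] [CharP K p] (h : ℕ) (hh : 1 ≤ h) (L : K[X])
    (hLm : L.Monic) (hL : ∀ R : K[X], Irreducible R → R ∣ L → R.natDegree ≤ h) (k : ℕ) :
    ∃ G : K[X], G.Monic ∧ G.natDegree = L.natDegree + (h + 1) ∧ L ∣ G ∧
      ¬ Irreducible (X ^ k * G ^ p + 1) := by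
  obtain ⟨R₀, hR₀, hR₀d⟩ := exists_irreducible_natDegree (K := K) (h + 1) (Nat.succ_pos h)
  have hp2 := hp.out.two_le
  -- a monic irreducible polynomial
  obtain ⟨R, hRm, hR, hRd⟩ : ∃ R : K[X], R.Monic ∧ Irreducible R ∧ R.natDegree = h + 1 := by
    have h0 : R₀.leadingCoeff⁻¹ ≠ 0 := inv_ne_zero (leadingCoeff_ne_zero.mpr hR₀.ne_zero)
    refine ⟨R₀ * C R₀.leadingCoeff⁻¹, monic_mul_leadingCoeff_inv hR₀.ne_zero, ?_, ?_⟩
    · rw [mul_comm]
      exact (irreducible_isUnit_mul ((IsUnit.mk0 _ h0).map C)).mpr hR₀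
    · rw [mul_comm, natDegree_C_mul h0, hR₀d]
  have hfact : Fact (Irreducible R) := ⟨hR⟩
  have hfin : Module.Finite K (AdjoinRoot R) := (AdjoinRoot.powerBasis hR.ne_zero).finite
  have hperf : PerfectField (AdjoinRoot R) := Algebra.IsAlgebraic.perfectField K
  have hchar : CharP (AdjoinRoot R) p := charP_of_injective_algebraMap' K p
  have hexp : ExpChar (AdjoinRoot R) p := ExpChar.prime hp.out
  have hroot : ∀ y : AdjoinRoot R, ∃ x, x ^ p = y := by
    intro y
    obtain ⟨a, ha⟩ := (frobeniusEquiv (AdjoinRoot R) p).surjective y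
    refine ⟨a, ?_⟩
    rw [frobeniusEquiv_apply, frobenius_def] at ha
    exact ha
  have hX0 : AdjoinRoot.mk R X ≠ 0 := by
    intro h0
    rw [AdjoinRoot.mk_eq_zero] at h0
    have := natDegree_le_of_dvd h0 X_ne_zero
    rw [natDegree_X] at this
    omega
  have hL0 : AdjoinRoot.mk R L ≠ 0 := by
    intro h0
    rw [AdjoinRoot.mk_eq_zero] at h0
    have h1 := hL R hR h0
    omega
  obtain ⟨x, hx⟩ := hroot (-(AdjoinRoot.mk R X ^ k * AdjoinRoot.mk R L ^ p)⁻¹)
  obtain ⟨y, hy⟩ := AdjoinRoot.mk_surjective (g := R) x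
  obtain ⟨Y, hY⟩ : ∃ Y, Y = R + y %ₘ R := ⟨_, rfl⟩
  have hlt : (y %ₘ R).degree < R.degree := degree_modByMonic_lt y hRm
  have hYm : Y.Monic := by rw [hY]; exact hRm.add_of_left hlt
  have hYd : Y.natDegree = h + 1 := by
    rw [hY, natDegree_eq_of_degree_eq (degree_add_eq_left_of_degree_lt hlt), hRd]
  have hYmk : AdjoinRoot.mk R Y = x := by
    rw [hY, map_add, AdjoinRoot.mk_self, zero_add, ← hy]
    rw [AdjoinRoot.mk_eq_mk]
    have := modByMonic_add_div y R
    refine ⟨-(y /ₘ R), ?_⟩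
    linear_combination this
  have hGd : (L * Y).natDegree = L.natDegree + (h + 1) := by
    rw [hLm.natDegree_mul hYm, hYd]
  refine ⟨L * Y, hLm.mul hYm, hGd, Dvd.intro _ rfl, ?_⟩
  intro hirr
  have hdvd : R ∣ X ^ k * (L * Y) ^ p + 1 := by
    rw [← AdjoinRoot.mk_eq_zero]
    rw [map_add, map_mul, map_pow, map_pow, map_mul, map_one, hYmk, mul_pow, hx]
    have h3 : AdjoinRoot.mk R X ^ k * AdjoinRoot.mk R L ^ p ≠ 0 :=
      mul_ne_zero (pow_ne_zero _ hX0) (pow_ne_zero _ hL0)
    rw [mul_neg, mul_neg, ← mul_assoc, mul_inv_cancel₀ h3]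
    ring
  have h4 : Associated R (X ^ k * (L * Y) ^ p + 1) := hR.associated_of_dvd hirr hdvd
  have h5 : R.natDegree = (X ^ k * (L * Y) ^ p + 1).natDegree :=
    natDegree_eq_of_degree_eq (degree_eq_degree_of_associated h4)
  have h6 : (X ^ k * (L * Y) ^ p).natDegree = k + p * (L.natDegree + (h + 1)) := by
    rw [(monic_X_pow k).natDegree_mul ((hLm.mul hYm).pow p), natDegree_X_pow,
      (hLm.mul hYm).natDegree_pow, hGd]
  have h7 : 2 * (h + 1) ≤ p * (L.natDegree + (h + 1)) :=
    Nat.mul_le_mul hp2 (Nat.le_add_left _ _)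
  rw [natDegree_add_eq_left_of_natDegree_lt (by rw [h6, natDegree_one]; omega), h6, hRd] at h5
  omega

end exists_G

end Pool.Agent.H524
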