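import Mathlib
import Pool.Agent.H524.RevOddA

/-!
Odd characteristic: residue classes modulo powers of `X`, the bounds.
-/

namespace Pool.Agent.H524

set_option linter.unusedSectionVars false
set_option maxHeartbeats 400000

open Polynomial

variable {K : Type*} [Field K] [Fintype K]

lemma card_idx_le (p d n b : ℕ) (hp : 0 < p) (hd : d ≤ p * b) :
    (idx p d n).card ≤ (p - 1) * b := by
  have h1 := card_idx p d n hp
  have h2 : (p - 1) * (d + 1) ≤ (p - 1) * (p * b + 1) := Nat.mul_le_mul_left _ (by omega)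
  have h3 : (p - 1) * (p * b + 1) = p * ((p - 1) * b) + (p - 1) := by ring
  have h4 : p * (idx p d n).card < p * ((p - 1) * b + 1) := by
    have : p * ((p - 1) * b + 1) = p * ((p - 1) * b) + p := by ring
    omega
  have := Nat.lt_of_mul_lt_mul_left h4
  omega

lemma sum_idx_le (p q : ℕ) (hp : 3 ≤ p) (hq : 3 ≤ q) (n : ℕ → ℕ) (e : ℕ) :
    ∑ d ∈ Finset.range (p * e), (d + 1) * q ^ (idx p (d + 1) (n d)).card ≤
      2 * p ^ 2 * e * q ^ ((p - 1) * e) := by
  induction e with
  | zero => simp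
  | succ e ih =>
    have h1 : p * (e + 1) = p * e + p := by ring
    rw [h1, Finset.sum_range_add]
    have h2 : ∑ i ∈ Finset.range p, (p * e + i + 1) * q ^ (idx p (p * e + i + 1)
        (n (p * e + i))).card ≤ p * (p * (e + 1) * q ^ ((p - 1) * (e + 1))) := by
      calc ∑ i ∈ Finset.range p, (p * e + i + 1) * q ^ (idx p (p * e + i + 1)
            (n (p * e + i))).card
          ≤ ∑ i ∈ Finset.range p, p * (e + 1) * q ^ ((p - 1) * (e + 1)) := by
            apply Finset.sum_le_sum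
            intro i hi
            rw [Finset.mem_range] at hi
            apply Nat.mul_le_mul (by omega)
            apply Nat.pow_le_pow_right (by omega)
            exact card_idx_le p _ _ (e + 1) (by omega) (by omega)
        _ = p * (p * (e + 1) * q ^ ((p - 1) * (e + 1))) := by
            rw [Finset.sum_const, Finset.card_range, smul_eq_mul]
    have h3 : 2 * q ^ ((p - 1) * e) ≤ q ^ ((p - 1) * (e + 1)) := by
      have h4 : (p - 1) * (e + 1) = (p - 1) * e + (p - 1) := by ring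
      rw [h4, pow_add, mul_comm]
      apply Nat.mul_le_mul_left
      calc 2 ≤ q ^ 1 := by rw [pow_one]; omega
        _ ≤ q ^ (p - 1) := Nat.pow_le_pow_right (by omega) (by omega)
    have h5 : 2 * p ^ 2 * e * q ^ ((p - 1) * e) ≤
        p ^ 2 * (e + 1) * q ^ ((p - 1) * (e + 1)) := by
      calc 2 * p ^ 2 * e * q ^ ((p - 1) * e) = p ^ 2 * e * (2 * q ^ ((p - 1) * e)) := by ring
        _ ≤ p ^ 2 * (e + 1) * q ^ ((p - 1) * (e + 1)) :=
          Nat.mul_le_mul (Nat.mul_le_mul_left _ (by omega)) h3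
    calc _ ≤ 2 * p ^ 2 * e * q ^ ((p - 1) * e) +
          p * (p * (e + 1) * q ^ ((p - 1) * (e + 1))) := Nat.add_le_add ih h2
      _ ≤ p ^ 2 * (e + 1) * q ^ ((p - 1) * (e + 1)) +
          p * (p * (e + 1) * q ^ ((p - 1) * (e + 1))) := Nat.add_le_add_right h5 _
      _ = 2 * p ^ 2 * (e + 1) * q ^ ((p - 1) * (e + 1)) := by ring

/-- The threshold function for residue classes. -/
def thrR (p q e : ℕ) : ℕ := p * ((2 * p ^ 2 * e + 2) * q ^ ((p - 1) * e) + (p * e + 1)) + 2

/-- The residue classes modulo a power of `X`. -/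
lemma rev_exists_odd (p : ℕ) [hp : Fact p.Prime] [CharP K p] (hp2 : p ≠ 2) (e m : ℕ)
    (he : 1 ≤ e) (hmod : (m - 1) % (4 * p) = 1) (hm : thrR p (Fintype.card K) e ≤ m) :
    ∃ a : K[X], a.coeff 0 ≠ 0 ∧ ∀ P : K[X], Irreducible P → X ^ m ∣ P - a →
      m + p * e ≤ P.natDegree := by
  have hp3 : 3 ≤ p := by
    have := hp.out.two_le
    omega
  have hq3 : 3 ≤ Fintype.card K := by
    have h1 : p ≤ Fintype.card K := by
      have h2 : p ∣ Fintype.card K := by
        rw [← CharP.cast_eq_zero_iff K p]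
        exact FiniteField.cast_card_eq_zero K
      exact Nat.le_of_dvd Fintype.card_pos h2
    omega
  have hpe : p ≤ p * e := Nat.le_mul_of_pos_right _ (by omega)
  obtain ⟨L, hL⟩ : ∃ L, L = (∏ d ∈ Finset.range (p * e), twistProd K p (d + 1)
    (m - 1 + (d + 1))) * lcmPoly K (p * e / 2) := ⟨_, rfl⟩
  have hprodm : (∏ d ∈ Finset.range (p * e), twistProd K p (d + 1)
      (m - 1 + (d + 1))).Monic := monic_prod_of_monic _ _ (fun d _ => monic_twistProd _ _ _)
  have hLm : L.Monic := by rw [hL]; exact hprodm.mul (monic_lcmPoly K _)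
  have hLd : L.natDegree ≤ (2 * p ^ 2 * e + 2) * Fintype.card K ^ ((p - 1) * e) := by
    rw [hL, hprodm.natDegree_mul (monic_lcmPoly K _),
      natDegree_prod_of_monic _ _ (fun d _ => monic_twistProd _ _ _)]
    simp only [natDegree_twistProd]
    have h1 := sum_idx_le p (Fintype.card K) hp3 hq3 (fun d => m - 1 + (d + 1)) e
    have h2 := natDegree_lcmPoly_le (K := K) (p * e / 2)
    have h3 : p * e / 2 ≤ (p - 1) * e := by
      have : p * e ≤ 2 * ((p - 1) * e) := by
        calc p * e ≤ (2 * (p - 1)) * e := Nat.mul_le_mul_right _ (by omega)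
          _ = _ := by ring
      omega
    have h4 : Fintype.card K ^ (p * e / 2) ≤ Fintype.card K ^ ((p - 1) * e) :=
      Nat.pow_le_pow_right (by omega) h3
    calc _ ≤ 2 * p ^ 2 * e * Fintype.card K ^ ((p - 1) * e) +
          2 * Fintype.card K ^ ((p - 1) * e) :=
          Nat.add_le_add h1 (h2.trans (Nat.mul_le_mul_left _ h4))
      _ = _ := by ring
  have hLR : ∀ R : K[X], Irreducible R → R ∣ L → R.natDegree ≤ p * e := by
    intro R hR hRL
    rw [hL] at hRL
    rcases hR.prime.dvd_or_dvd hRL with h | h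
    · rw [hR.prime.dvd_finsetProd_iff] at h
      obtain ⟨d, hd, h⟩ := h
      rw [Finset.mem_range] at hd
      classical
      rw [twistProd, hR.prime.dvd_finsetProd_iff] at h
      obtain ⟨c, _, h⟩ := h
      have h1 := natDegree_le_of_dvd h (monic_twistPoly _ _ _ c).ne_zero
      rw [natDegree_twistPoly] at h1
      omega
    · rw [lcmPoly, hR.prime.dvd_finsetProd_iff] at h
      obtain ⟨i, hi, h3⟩ := h
      rw [Finset.mem_range] at hi
      have h4 := hR.natDegree_dvd_iff_dvd_X_pow_card_pow_sub_X (n := i + 1)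
      rw [Nat.card_eq_fintype_card] at h4
      have h5 := Nat.le_of_dvd (Nat.succ_pos i) (h4.mpr h3)
      omega
  have hthr : p * (L.natDegree + (p * e + 1)) + 2 ≤ m := by
    refine le_trans ?_ hm
    unfold thrR
    apply Nat.add_le_add_right
    apply Nat.mul_le_mul_left
    exact Nat.add_le_add_right hLd _
  obtain ⟨k, hk⟩ : ∃ k, m = k + p * (L.natDegree + (p * e + 1)) + 1 :=
    ⟨m - 1 - p * (L.natDegree + (p * e + 1)), by omega⟩
  obtain ⟨G, hGm, hGd, hGL, hGT⟩ := exists_G_odd p (p * e) (by omega) L hLm hLR k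
  have hm3 : 3 ≤ m := by
    have h1 : 1 ≤ p * (L.natDegree + (p * e + 1)) := Nat.mul_pos (by omega) (by omega)
    omega
  refine ⟨(X ^ k * G ^ p + 1).reverse, ?_, ?_⟩
  · rw [coeff_zero_reverse]
    apply leadingCoeff_ne_zero.mpr
    intro h
    have h1 := congrArg (fun P : K[X] => P.coeff 0) h
    simp only [coeff_add, mul_coeff_zero, coeff_X_pow, coeff_one_zero, coeff_zero] at h1
    rw [if_neg (by omega), zero_mul, zero_add] at h1
    exact one_ne_zero h1
  · intro P hP hc
    refine rev_class_odd p hp2 (p * e) m k G hGm ?_ ?_ (by omega) (by rw [hGd]; exact hk) hm3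
      (Or.inl hmod) hGT P hP hc
    · intro B hB hBd
      refine dvd_trans ?_ hGL
      rw [hL]
      exact Dvd.dvd.mul_left (dvd_lcmPoly B hB hBd) _
    · intro d H hd1 hd2 hHm hHd
      refine dvd_trans ?_ hGL
      rw [hL]
      apply Dvd.dvd.mul_right
      obtain ⟨d', rfl⟩ : ∃ d', d = d' + 1 := ⟨d - 1, by omega⟩
      refine dvd_trans ?_ (Finset.dvd_prod_of_mem _ (Finset.mem_range.mpr (by omega : d' < p * e)))
      apply twist_dvd_twistProd p (d' + 1) (m - 1 + (d' + 1)) H hHm hHd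
      intro h0
      have h1 : ((d' + 1 : ℕ) : K) = ((m - 1 + (d' + 1) : ℕ) : K) := sub_eq_zero.mp h0
      rw [CharP.natCast_eq_natCast K p] at h1
      have h2 : p ∣ (m - 1 + (d' + 1)) - (d' + 1) :=
        (Nat.modEq_iff_dvd' (Nat.le_add_left _ _)).mp h1
      rw [Nat.add_sub_cancel] at h2
      have h3 : (m - 1) % p = 1 % p := by
        have h4 : (m - 1) % p = (m - 1) % (4 * p) % p :=
          (Nat.mod_mod_of_dvd _ (Dvd.intro_left 4 rfl)).symm
        rw [h4, hmod]
      rw [Nat.mod_eq_zero_of_dvd h2, Nat.mod_eq_of_lt (by omega : 1 < p)] at h3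
      omega

/-- Every power of `X`, odd characteristic. -/
theorem rev_all_odd (p : ℕ) [hp : Fact p.Prime] [CharP K p] (hp2 : p ≠ 2) :
    ∃ c : ℝ, 0 < c ∧ ∀ m : ℕ, 2 ≤ m → ∃ a : K[X], a.coeff 0 ≠ 0 ∧
      ∀ P : K[X], Irreducible P → X ^ m ∣ P - a →
        c * ((Fintype.card K : ℝ) ^ m *
          ((m : ℝ) / Real.log m) ^ ((p : ℝ) / ((p : ℝ) - 1))) ≤
        (Fintype.card K : ℝ) ^ P.natDegree := by
  have hp3 : 3 ≤ p := by
    have := hp.out.two_le
    omega
  have hpR : (3 : ℝ) ≤ p := by exact_mod_cast hp3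
  set θ : ℝ := (p : ℝ) / ((p : ℝ) - 1) with hθ
  have hθ0 : 0 < θ := by rw [hθ]; apply div_pos <;> linarith
  have hq3 : 3 ≤ Fintype.card K := by
    have h1 : p ≤ Fintype.card K := by
      have h2 : p ∣ Fintype.card K := by
        rw [← CharP.cast_eq_zero_iff K p]
        exact FiniteField.cast_card_eq_zero K
      exact Nat.le_of_dvd Fintype.card_pos h2
    omega
  set q : ℝ := (Fintype.card K : ℝ) with hqdef
  have hq : (3 : ℝ) ≤ q := by rw [hqdef]; exact_mod_cast hq3
  have hq0 : 0 < q := by linarith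
  obtain ⟨N₀, hN₀⟩ : ∃ N₀, N₀ = thrR p (Fintype.card K) 1 + 4 * p := ⟨_, rfl⟩
  have hN₀1 : (1 : ℝ) ≤ N₀ := by
    have : 1 ≤ N₀ := by rw [hN₀]; unfold thrR; omega
    exact_mod_cast this
  have hlog2 : 0 < Real.log 2 := Real.log_pos (by norm_num)
  set C₁ : ℝ := 2 * (p * (2 * p ^ 2 + 2 + p + 1) + 2) with hC₁
  set c₁ : ℝ := (C₁ ^ θ * q ^ (5 * p))⁻¹ with hc₁
  set c₂ : ℝ := (q ^ N₀ * ((N₀ : ℝ) / Real.log 2) ^ θ)⁻¹ with hc₂
  have hC₁0 : 0 < C₁ := by rw [hC₁]; positivity
  have hc₁0 : 0 < c₁ := by rw [hc₁]; positivity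
  have hc₂0 : 0 < c₂ := by
    rw [hc₂]
    have : 0 < (N₀ : ℝ) / Real.log 2 := by positivity
    positivity
  refine ⟨min c₁ c₂, lt_min hc₁0 hc₂0, ?_⟩
  intro m hm2
  have hmR : (2 : ℝ) ≤ m := by exact_mod_cast hm2
  have hlogm : Real.log 2 ≤ Real.log m := Real.log_le_log (by norm_num) hmR
  have hlogm0 : 0 < Real.log m := lt_of_lt_of_le hlog2 hlogm
  have hx0 : 0 ≤ ((m : ℝ) / Real.log m) ^ θ := by positivity
  rcases Nat.lt_or_ge m N₀ with hlt | hge
  · refine ⟨1, by rw [coeff_one_zero]; exact one_ne_zero, ?_⟩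
    intro P _ _
    have h0 : (1 : ℝ) ≤ q ^ P.natDegree := one_le_pow₀ (by linarith)
    refine le_trans ?_ h0
    have h1 : ((m : ℝ) / Real.log m) ≤ (N₀ : ℝ) / Real.log 2 := by
      apply div_le_div₀ (by positivity) (by exact_mod_cast hlt.le) hlog2 hlogm
    have h2 : ((m : ℝ) / Real.log m) ^ θ ≤ ((N₀ : ℝ) / Real.log 2) ^ θ :=
      Real.rpow_le_rpow (by positivity) h1 hθ0.le
    have h3 : q ^ m ≤ q ^ N₀ := pow_le_pow_right₀ (by linarith) hlt.le
    have h4 : 0 < ((N₀ : ℝ) / Real.log 2) ^ θ := by positivity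
    calc min c₁ c₂ * (q ^ m * ((m : ℝ) / Real.log m) ^ θ)
        ≤ c₂ * (q ^ N₀ * ((N₀ : ℝ) / Real.log 2) ^ θ) := by
          apply mul_le_mul (min_le_right _ _) _ (by positivity) hc₂0.le
          exact mul_le_mul h3 h2 (by positivity) (by positivity)
      _ = 1 := by
        rw [hc₂]
        field_simp
  · -- the rounded exponent
    obtain ⟨M, hM⟩ : ∃ M, M = 4 * p * ((m - 2) / (4 * p)) + 2 := ⟨_, rfl⟩
    have h4p : 0 < 4 * p := by omega
    have hdm := Nat.div_add_mod (m - 2) (4 * p)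
    have hml := Nat.mod_lt (m - 2) h4p
    have hMm : M ≤ m ∧ m < M + 4 * p := by omega
    have hMmod : (M - 1) % (4 * p) = 1 := by
      have h1 : M - 1 = 1 + 4 * p * ((m - 2) / (4 * p)) := by omega
      rw [h1, Nat.add_mul_mod_self_left, Nat.mod_eq_of_lt (by omega)]
    have hthr1 : thrR p (Fintype.card K) 1 ≤ M := by omega
    have hlarge : ∀ e, e < thrR p (Fintype.card K) e := by
      intro e
      have h1 : p * e + 1 ≤ p * ((2 * p ^ 2 * e + 2) * Fintype.card K ^ ((p - 1) * e) +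
          (p * e + 1)) := by
        calc p * e + 1 ≤ (2 * p ^ 2 * e + 2) * Fintype.card K ^ ((p - 1) * e) + (p * e + 1) :=
              Nat.le_add_left _ _
          _ ≤ _ := Nat.le_mul_of_pos_left _ (by omega)
      have h2 : e ≤ p * e := Nat.le_mul_of_pos_left _ (by omega)
      unfold thrR
      omega
    obtain ⟨e, he⟩ : ∃ e, e = Nat.findGreatest (fun e => thrR p (Fintype.card K) e ≤ M) M :=
      ⟨_, rfl⟩
    have hM1 : 1 ≤ M := by omega
    have he1 : 1 ≤ e := by
      rw [he]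
      exact Nat.le_findGreatest (P := fun e => thrR p (Fintype.card K) e ≤ M) hM1 hthr1
    have heM : thrR p (Fintype.card K) e ≤ M := by
      rw [he]
      exact Nat.findGreatest_spec (P := fun e => thrR p (Fintype.card K) e ≤ M) hM1 hthr1
    have heM2 : M < thrR p (Fintype.card K) (e + 1) := by
      by_contra hle
      rw [not_lt] at hle
      have h1 := Nat.le_findGreatest (P := fun e => thrR p (Fintype.card K) e ≤ M)
        (show e + 1 ≤ M from le_trans (hlarge (e + 1)).le hle) hle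
      rw [← he] at h1
      omega
    obtain ⟨a, ha0, ha⟩ := rev_exists_odd p hp2 e M he1 hMmod heM
    refine ⟨a, ha0, ?_⟩
    intro P hP hc
    have hP1 := ha P hP (dvd_trans (pow_dvd_pow X hMm.1) hc)
    -- upper bound for `m`
    have h4pM : 4 * p ≤ M := by
      have h1 : 4 * p ≤ thrR p (Fintype.card K) 1 := by
        unfold thrR
        have h2 : 4 ≤ (2 * p ^ 2 * 1 + 2) * Fintype.card K ^ ((p - 1) * 1) + (p * 1 + 1) := by
          omega
        calc 4 * p = p * 4 := by ring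
          _ ≤ p * ((2 * p ^ 2 * 1 + 2) * Fintype.card K ^ ((p - 1) * 1) + (p * 1 + 1)) :=
            Nat.mul_le_mul_left _ h2
          _ ≤ _ := Nat.le_add_right _ _
      omega
    have h1 : (m : ℝ) ≤ C₁ * ((e + 1) * q ^ ((p - 1) * (e + 1))) := by
      have h2 : m ≤ 2 * (p * ((2 * p ^ 2 * (e + 1) + 2) *
          Fintype.card K ^ ((p - 1) * (e + 1)) + (p * (e + 1) + 1)) + 2) := by
        unfold thrR at heM2
        omega
      have h3 : (m : ℝ) ≤ ((2 * (p * ((2 * p ^ 2 * (e + 1) + 2) *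
          Fintype.card K ^ ((p - 1) * (e + 1)) + (p * (e + 1) + 1)) + 2) : ℕ) : ℝ) := by
        exact_mod_cast h2
      refine h3.trans ?_
      push_cast
      rw [← hqdef, hC₁]
      have hQ1 : 1 ≤ q ^ ((p - 1) * (e + 1)) := one_le_pow₀ (by linarith)
      obtain ⟨Q, hQ⟩ : ∃ Q, q ^ ((p - 1) * (e + 1)) = Q := ⟨_, rfl⟩
      rw [hQ] at hQ1 ⊢
      have he0 : (1 : ℝ) ≤ (e : ℝ) + 1 := by
        have : (0 : ℝ) ≤ e := Nat.cast_nonneg e
        linarith
      have hE : (1 : ℝ) ≤ ((e : ℝ) + 1) * Q := by nlinarith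
      have hE2 : Q ≤ ((e : ℝ) + 1) * Q := by nlinarith
      have hE3 : (e : ℝ) + 1 ≤ ((e : ℝ) + 1) * Q := by nlinarith
      have hp0 : (0 : ℝ) < p := by linarith
      have e1 : (2 * (p : ℝ) ^ 2 * ((e : ℝ) + 1) + 2) * Q ≤
          (2 * (p : ℝ) ^ 2 + 2) * (((e : ℝ) + 1) * Q) := by nlinarith
      have e2 : (p : ℝ) * ((e : ℝ) + 1) + 1 ≤ (p + 1) * (((e : ℝ) + 1) * Q) := by nlinarith
      have e3 : (p : ℝ) * ((2 * (p : ℝ) ^ 2 * ((e : ℝ) + 1) + 2) * Q +
          ((p : ℝ) * ((e : ℝ) + 1) + 1)) ≤ p * ((2 * (p : ℝ) ^ 2 + 2) * (((e : ℝ) + 1) * Q) +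
            (p + 1) * (((e : ℝ) + 1) * Q)) := by
        apply mul_le_mul_of_nonneg_left _ hp0.le
        linarith
      nlinarith
    -- lower bound for the logarithm
    have h2 : (e : ℝ) + 1 ≤ Real.log m := by
      have h3 : q ^ ((p - 1) * e) ≤ m := by
        have h4 : Fintype.card K ^ ((p - 1) * e) ≤ m := by
          have h5 : Fintype.card K ^ ((p - 1) * e) ≤ thrR p (Fintype.card K) e := by
            unfold thrR
            calc Fintype.card K ^ ((p - 1) * e)
                ≤ (2 * p ^ 2 * e + 2) * Fintype.card K ^ ((p - 1) * e) :=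
                  Nat.le_mul_of_pos_left _ (by omega)
              _ ≤ (2 * p ^ 2 * e + 2) * Fintype.card K ^ ((p - 1) * e) + (p * e + 1) :=
                  Nat.le_add_right _ _
              _ ≤ p * ((2 * p ^ 2 * e + 2) * Fintype.card K ^ ((p - 1) * e) + (p * e + 1)) :=
                  Nat.le_mul_of_pos_left _ (by omega)
              _ ≤ _ := Nat.le_add_right _ _
          omega
        rw [hqdef]
        exact_mod_cast h4
      have h5 : Real.exp ((e : ℝ) + 1) ≤ m := by
        refine le_trans ?_ h3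
        have h6 : Real.exp 1 ≤ q := by
          have := Real.exp_one_lt_d9
          linarith
        calc Real.exp ((e : ℝ) + 1) = Real.exp 1 ^ (e + 1) := by
              rw [← Real.exp_nat_mul]
              push_cast
              ring_nf
          _ ≤ q ^ (e + 1) := pow_le_pow_left₀ (Real.exp_pos 1).le h6 _
          _ ≤ q ^ ((p - 1) * e) := by
              apply pow_le_pow_right₀ (by linarith)
              calc e + 1 ≤ 2 * e := by omega
                _ ≤ (p - 1) * e := Nat.mul_le_mul_right _ (by omega)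
      rw [Real.le_log_iff_exp_le (by linarith)]
      exact h5
    have he0 : (0 : ℝ) < (e : ℝ) + 1 := by positivity
    have h3 : (m : ℝ) / Real.log m ≤ C₁ * q ^ ((p - 1) * (e + 1)) := by
      rw [div_le_iff₀ hlogm0]
      calc (m : ℝ) ≤ C₁ * ((e + 1) * q ^ ((p - 1) * (e + 1))) := h1
        _ = C₁ * q ^ ((p - 1) * (e + 1)) * (e + 1) := by ring
        _ ≤ C₁ * q ^ ((p - 1) * (e + 1)) * Real.log m :=
          mul_le_mul_of_nonneg_left h2 (by positivity)
    have h4 : (q ^ ((p - 1) * (e + 1))) ^ θ = q ^ (p * (e + 1)) := by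
      rw [← Real.rpow_natCast, ← Real.rpow_mul hq0.le, ← Real.rpow_natCast]
      congr 1
      rw [hθ]
      have hp1 : (p : ℝ) - 1 ≠ 0 := by
        have : (0 : ℝ) < (p : ℝ) - 1 := by linarith
        exact this.ne'
      push_cast [Nat.cast_sub (by omega : 1 ≤ p)]
      field_simp
    have h5 : ((m : ℝ) / Real.log m) ^ θ ≤ C₁ ^ θ * q ^ (p * (e + 1)) := by
      calc ((m : ℝ) / Real.log m) ^ θ
          ≤ (C₁ * q ^ ((p - 1) * (e + 1))) ^ θ :=
            Real.rpow_le_rpow (by positivity) h3 hθ0.le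
        _ = C₁ ^ θ * (q ^ ((p - 1) * (e + 1))) ^ θ :=
            Real.mul_rpow hC₁0.le (by positivity)
        _ = _ := by rw [h4]
    have h6 : q ^ m * q ^ (p * (e + 1)) ≤ q ^ (5 * p) * q ^ P.natDegree := by
      rw [← pow_add, ← pow_add]
      apply pow_le_pow_right₀ (by linarith)
      have : p * (e + 1) = p * e + p := by ring
      omega
    have hC₁θ : C₁ ^ θ ≠ 0 := by positivity
    calc min c₁ c₂ * (q ^ m * ((m : ℝ) / Real.log m) ^ θ)
        ≤ c₁ * (q ^ m * ((m : ℝ) / Real.log m) ^ θ) :=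
          mul_le_mul_of_nonneg_right (min_le_left _ _) (by positivity)
      _ ≤ c₁ * (q ^ m * (C₁ ^ θ * q ^ (p * (e + 1)))) := by
          apply mul_le_mul_of_nonneg_left _ hc₁0.le
          apply mul_le_mul_of_nonneg_left h5
          positivity
      _ = c₁ * C₁ ^ θ * (q ^ m * q ^ (p * (e + 1))) := by ring
      _ ≤ c₁ * C₁ ^ θ * (q ^ (5 * p) * q ^ P.natDegree) := by
          apply mul_le_mul_of_nonneg_left h6
          positivity
      _ = q ^ P.natDegree := by
          rw [hc₁]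
          have h8 : q ^ (5 * p) ≠ 0 := by positivity
          field_simp

end Pool.Agent.H524
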