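import Mathlib
import Pool.Agent.H524.RevOddB

/-!
Residue classes modulo powers of `X` in odd characteristic: the bound in terms of the norm of the
modulus.
-/

namespace Pool.Agent.H524

set_option linter.unusedSectionVars false
set_option maxHeartbeats 400000

open Polynomial

variable {K : Type*} [Field K] [Fintype K]

/-- For every `m ≥ 2`, in terms of the norm of `X ^ m`. -/
theorem rev_all_odd_norm (p : ℕ) [Fact p.Prime] [CharP K p] (hp2 : p ≠ 2) :
    ∃ c : ℝ, 0 < c ∧ ∀ m : ℕ, 2 ≤ m → ∃ a : K[X], a.coeff 0 ≠ 0 ∧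
      ∀ P : K[X], Irreducible P → X ^ m ∣ P - a →
        c * ((Fintype.card K : ℝ) ^ m *
          (Real.log ((Fintype.card K : ℝ) ^ m) /
            Real.log (Real.log ((Fintype.card K : ℝ) ^ m))) ^ ((p : ℝ) / ((p : ℝ) - 1))) ≤
        (Fintype.card K : ℝ) ^ P.natDegree := by
  have hpp : p.Prime := Fact.out
  have hp3 : 3 ≤ p := by
    have := hpp.two_le
    omega
  have hq3 : 3 ≤ Fintype.card K := by
    have h1 : p ≤ Fintype.card K := by
      have h2 : p ∣ Fintype.card K := by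
        rw [← CharP.cast_eq_zero_iff K p]
        exact FiniteField.cast_card_eq_zero K
      exact Nat.le_of_dvd Fintype.card_pos h2
    omega
  have hq : (3 : ℝ) ≤ (Fintype.card K : ℝ) := by exact_mod_cast hq3
  obtain ⟨q, hqd⟩ : ∃ q : ℝ, (Fintype.card K : ℝ) = q := ⟨_, rfl⟩
  obtain ⟨c, hc, h⟩ := rev_all_odd (K := K) p hp2
  rw [hqd] at hq h ⊢
  have hL1 : 1 < Real.log q := by
    rw [Real.lt_log_iff_exp_lt (by linarith)]
    have := Real.exp_one_lt_d9
    linarith
  have hLL : 0 < Real.log (Real.log q) := Real.log_pos hL1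
  have hpr : (3 : ℝ) ≤ (p : ℝ) := by exact_mod_cast hp3
  have he : 0 ≤ (p : ℝ) / ((p : ℝ) - 1) := div_nonneg (by linarith) (by linarith)
  have hLe : 0 < Real.log q ^ ((p : ℝ) / ((p : ℝ) - 1)) :=
    Real.rpow_pos_of_pos (by linarith) _
  refine ⟨c / Real.log q ^ ((p : ℝ) / ((p : ℝ) - 1)), by positivity, fun m hm => ?_⟩
  obtain ⟨a, ha, hP⟩ := h m hm
  refine ⟨a, ha, fun P hPi hPd => le_trans ?_ (hP P hPi hPd)⟩
  have hm2 : (2 : ℝ) ≤ (m : ℝ) := by exact_mod_cast hm
  have hlm : 0 < Real.log (m : ℝ) := Real.log_pos (by linarith)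
  have h1 : Real.log (q ^ m) = m * Real.log q := by rw [Real.log_pow]
  have h2 : Real.log (Real.log (q ^ m)) = Real.log m + Real.log (Real.log q) := by
    rw [h1, Real.log_mul (by positivity) (by positivity)]
  rw [h2, h1]
  have h3 : (m : ℝ) * Real.log q / (Real.log m + Real.log (Real.log q)) ≤
      Real.log q * ((m : ℝ) / Real.log m) := by
    rw [show Real.log q * ((m : ℝ) / Real.log m) = (m : ℝ) * Real.log q / Real.log m by ring]
    exact div_le_div_of_nonneg_left (by positivity) hlm (by linarith)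
  have h4 : ((m : ℝ) * Real.log q / (Real.log m + Real.log (Real.log q))) ^
      ((p : ℝ) / ((p : ℝ) - 1)) ≤ Real.log q ^ ((p : ℝ) / ((p : ℝ) - 1)) *
      ((m : ℝ) / Real.log m) ^ ((p : ℝ) / ((p : ℝ) - 1)) := by
    rw [← Real.mul_rpow (by linarith) (by positivity)]
    exact Real.rpow_le_rpow (by positivity) h3 he
  calc c / Real.log q ^ ((p : ℝ) / ((p : ℝ) - 1)) * (q ^ m *
        ((m : ℝ) * Real.log q / (Real.log m + Real.log (Real.log q))) ^
          ((p : ℝ) / ((p : ℝ) - 1))) ≤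
      c / Real.log q ^ ((p : ℝ) / ((p : ℝ) - 1)) * (q ^ m *
        (Real.log q ^ ((p : ℝ) / ((p : ℝ) - 1)) *
          ((m : ℝ) / Real.log m) ^ ((p : ℝ) / ((p : ℝ) - 1)))) := by
        apply mul_le_mul_of_nonneg_left _ (by positivity)
        exact mul_le_mul_of_nonneg_left h4 (by positivity)
    _ = c * (q ^ m * ((m : ℝ) / Real.log m) ^ ((p : ℝ) / ((p : ℝ) - 1))) := by
        field_simp

end Pool.Agent.H524
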