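import Mathlib
import Pool.Agent.H524.OddC
import Pool.Agent.H524.EvenE
import Pool.Agent.H524.RevC
import Pool.Agent.H524.RevOddC

/-!
The bounds for all finite fields at once.
-/

namespace Pool.Agent.H524

set_option linter.unusedSectionVars false
set_option maxHeartbeats 400000

open Polynomial

lemma div_loglog_sq_le (y : ℝ) (hy : 4 / 3 ≤ y) :
    (y / Real.log y) ^ (((2 : ℕ) : ℝ) / (((2 : ℕ) : ℝ) - 1)) ≤ 16 * y ^ 2 := by
  have h1 : 1 / 4 ≤ Real.log y := by
    have h2 := Real.one_sub_inv_le_log_of_pos (show (0 : ℝ) < y by linarith)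
    have h3 : y⁻¹ ≤ (4 / 3 : ℝ)⁻¹ := inv_anti₀ (by norm_num) hy
    have h4 : (4 / 3 : ℝ)⁻¹ = 3 / 4 := by norm_num
    linarith
  have h5 : (((2 : ℕ) : ℝ) / (((2 : ℕ) : ℝ) - 1)) = ((2 : ℕ) : ℝ) := by norm_num
  rw [h5, Real.rpow_natCast]
  have hlog : 0 < Real.log y := by linarith
  have h6 : y / Real.log y ≤ 4 * y := by
    rw [div_le_iff₀ hlog]
    nlinarith
  calc (y / Real.log y) ^ 2 ≤ (4 * y) ^ 2 :=
        pow_le_pow_left₀ (by positivity) h6 2
    _ = 16 * y ^ 2 := by ring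

lemma log_pow_ge (q : ℝ) (hq : 2 ≤ q) (n : ℕ) (hn : 2 ≤ n) : 4 / 3 ≤ Real.log (q ^ n) := by
  rw [Real.log_pow]
  have h1 : Real.log 2 ≤ Real.log q := Real.log_le_log (by norm_num) hq
  have h2 := Real.log_two_gt_d9
  have hn2 : (2 : ℝ) ≤ (n : ℝ) := by exact_mod_cast hn
  nlinarith

variable {K : Type*} [Field K] [Fintype K]

/-- Long intervals without irreducible polynomials, odd characteristic. -/
theorem gaps_odd (p : ℕ) (hp : p.Prime) (hp2 : p ≠ 2) [CharP K p] :
    ∃ c : ℝ, 0 < c ∧ ∀ n : ℕ, 2 ≤ n → ∃ (A : K[X]) (h : ℕ), A.Monic ∧ A.natDegree = n ∧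
      c * (Real.log ((Fintype.card K : ℝ) ^ n) /
        Real.log (Real.log ((Fintype.card K : ℝ) ^ n))) ^ ((p : ℝ) / ((p : ℝ) - 1)) ≤
          (Fintype.card K : ℝ) ^ h ∧
      ∀ B : K[X], (B - A).degree < (h : WithBot ℕ) → ¬ Irreducible B := by
  have : Fact p.Prime := ⟨hp⟩
  obtain ⟨c, hc0, hc⟩ := Pool.Agent.H524.primefree_odd_all (K := K) p hp2
  have hp3 : 3 ≤ p := by
    have := hp.two_le
    omega
  have hpR : (3 : ℝ) ≤ p := by exact_mod_cast hp3
  have hq3 : 3 ≤ Fintype.card K := by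
    have h1 : p ≤ Fintype.card K := by
      have h2 : p ∣ Fintype.card K := by
        rw [← CharP.cast_eq_zero_iff K p]
        exact FiniteField.cast_card_eq_zero K
      exact Nat.le_of_dvd Fintype.card_pos h2
    omega
  set q : ℝ := (Fintype.card K : ℝ) with hqdef
  have hq : (3 : ℝ) ≤ q := by rw [hqdef]; exact_mod_cast hq3
  set θ : ℝ := (p : ℝ) / ((p : ℝ) - 1) with hθ
  have hθ0 : 0 < θ := by rw [hθ]; apply div_pos <;> linarith
  have hlogq : 1 < Real.log q := by
    rw [Real.lt_log_iff_exp_lt (by linarith)]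
    have := Real.exp_one_lt_d9
    linarith
  refine ⟨c / (Real.log q) ^ θ, by positivity, ?_⟩
  intro n hn
  obtain ⟨A, h, hA1, hA2, hA3, hA4⟩ := hc n hn
  refine ⟨A, h, hA1, hA2, ?_, hA4⟩
  refine le_trans ?_ hA3
  have hnR : (2 : ℝ) ≤ n := by exact_mod_cast hn
  have hlogn0 : 0 < Real.log n := Real.log_pos (by linarith)
  rw [Real.log_pow]
  have h1 : Real.log n ≤ Real.log (n * Real.log q) := by
    apply Real.log_le_log (by linarith)
    nlinarith
  have h2 : (n : ℝ) * Real.log q / Real.log (n * Real.log q) ≤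
      Real.log q * ((n : ℝ) / Real.log n) := by
    rw [mul_comm (n : ℝ) (Real.log q), mul_div_assoc]
    apply mul_le_mul_of_nonneg_left _ (by linarith)
    rw [mul_comm (Real.log q) (n : ℝ)]
    exact div_le_div_of_nonneg_left (by positivity) hlogn0 h1
  have h3 : ((n : ℝ) * Real.log q / Real.log (n * Real.log q)) ^ θ ≤
      (Real.log q) ^ θ * ((n : ℝ) / Real.log n) ^ θ := by
    rw [← Real.mul_rpow (by linarith) (by positivity)]
    apply Real.rpow_le_rpow _ h2 hθ0.le
    have : 0 ≤ Real.log (n * Real.log q) := le_trans hlogn0.le h1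
    have h5 : 0 ≤ (n : ℝ) * Real.log q := by nlinarith
    positivity
  calc c / Real.log q ^ θ * ((n : ℝ) * Real.log q / Real.log (n * Real.log q)) ^ θ
      ≤ c / Real.log q ^ θ * ((Real.log q) ^ θ * ((n : ℝ) / Real.log n) ^ θ) :=
        mul_le_mul_of_nonneg_left h3 (by positivity)
    _ = c * ((n : ℝ) / Real.log n) ^ θ := by
      have : (Real.log q) ^ θ ≠ 0 := by positivity
      field_simp

/-- Long intervals without irreducible polynomials, every finite field. -/
theorem gaps_all (p : ℕ) (hp : p.Prime) [CharP K p] :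
    ∃ c : ℝ, 0 < c ∧ ∀ n : ℕ, 2 ≤ n → ∃ (A : K[X]) (h : ℕ), A.Monic ∧ A.natDegree = n ∧
      c * (Real.log ((Fintype.card K : ℝ) ^ n) /
        Real.log (Real.log ((Fintype.card K : ℝ) ^ n))) ^ ((p : ℝ) / ((p : ℝ) - 1)) ≤
          (Fintype.card K : ℝ) ^ h ∧
      ∀ B : K[X], (B - A).degree < (h : WithBot ℕ) → ¬ Irreducible B := by
  by_cases hp2 : p = 2
  · subst hp2
    have hq2 : 2 ≤ Fintype.card K := Fintype.one_lt_card
    have hq : (2 : ℝ) ≤ (Fintype.card K : ℝ) := by exact_mod_cast hq2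
    have hlog : 0 < Real.log (Fintype.card K : ℝ) := Real.log_pos (by linarith)
    refine ⟨(16 * (121 * (Fintype.card K : ℝ) ^ 6 *
      (Real.log (Fintype.card K : ℝ)) ^ 2))⁻¹, by positivity, ?_⟩
    intro n hn
    obtain ⟨A, h, hA1, hA2, hA3, hA4⟩ := primefree_even_all (K := K) n hn
    refine ⟨A, h, hA1, hA2, ?_, hA4⟩
    have h1 : (n : ℝ) ^ 2 ≤ 121 * (Fintype.card K : ℝ) ^ (h + 6) := by exact_mod_cast hA3
    have h2 : (Fintype.card K : ℝ) ^ (h + 6) =
        (Fintype.card K : ℝ) ^ h * (Fintype.card K : ℝ) ^ 6 := pow_add _ _ _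
    rw [h2] at h1
    have h3 := div_loglog_sq_le _ (log_pow_ge (Fintype.card K : ℝ) hq n hn)
    have h4 : Real.log ((Fintype.card K : ℝ) ^ n) ^ 2 =
        (n : ℝ) ^ 2 * Real.log (Fintype.card K : ℝ) ^ 2 := by
      rw [Real.log_pow, mul_pow]
    rw [h4] at h3
    rw [inv_mul_le_iff₀ (by positivity)]
    calc _ ≤ 16 * ((n : ℝ) ^ 2 * Real.log (Fintype.card K : ℝ) ^ 2) := h3
      _ ≤ 16 * ((121 * ((Fintype.card K : ℝ) ^ h * (Fintype.card K : ℝ) ^ 6)) *
          Real.log (Fintype.card K : ℝ) ^ 2) := by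
          apply mul_le_mul_of_nonneg_left _ (by norm_num)
          exact mul_le_mul_of_nonneg_right h1 (by positivity)
      _ = _ := by ring
  · exact gaps_odd p hp hp2

/-- Least irreducible elements of the residue classes modulo the powers of `X`, every finite
field. -/
theorem rev_all_char (p : ℕ) (hp : p.Prime) [CharP K p] :
    ∃ c : ℝ, 0 < c ∧ ∀ m : ℕ, 2 ≤ m → ∃ a : K[X], a.coeff 0 ≠ 0 ∧
      ∀ P : K[X], Irreducible P → X ^ m ∣ P - a →
        c * ((Fintype.card K : ℝ) ^ m *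
          (Real.log ((Fintype.card K : ℝ) ^ m) /
            Real.log (Real.log ((Fintype.card K : ℝ) ^ m))) ^ ((p : ℝ) / ((p : ℝ) - 1))) ≤
        (Fintype.card K : ℝ) ^ P.natDegree := by
  have : Fact p.Prime := ⟨hp⟩
  by_cases hp2 : p = 2
  · subst hp2
    have hK : Even (Fintype.card K) := by
      rw [Nat.even_iff]
      exact FiniteField.even_card_iff_char_two.mp (ringChar.eq_iff.mpr inferInstance)
    have hq2 : 2 ≤ Fintype.card K := Fintype.one_lt_card
    have hq : (2 : ℝ) ≤ (Fintype.card K : ℝ) := by exact_mod_cast hq2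
    obtain ⟨c, hc, h⟩ := rev_all hK
    refine ⟨c / 16, by positivity, fun m hm => ?_⟩
    obtain ⟨a, ha, hP⟩ := h m
    refine ⟨a, ha, fun P hPi hPd => le_trans ?_ (hP P hPi hPd)⟩
    have h3 := div_loglog_sq_le _ (log_pow_ge (Fintype.card K : ℝ) hq m hm)
    calc c / 16 * ((Fintype.card K : ℝ) ^ m *
          (Real.log ((Fintype.card K : ℝ) ^ m) /
            Real.log (Real.log ((Fintype.card K : ℝ) ^ m))) ^
              (((2 : ℕ) : ℝ) / (((2 : ℕ) : ℝ) - 1))) ≤
        c / 16 * ((Fintype.card K : ℝ) ^ m *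
          (16 * Real.log ((Fintype.card K : ℝ) ^ m) ^ 2)) := by
          apply mul_le_mul_of_nonneg_left _ (by positivity)
          exact mul_le_mul_of_nonneg_left h3 (by positivity)
      _ = _ := by ring
  · exact rev_all_odd_norm p hp2

end Pool.Agent.H524
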