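import Mathlib
import Pool.Agent.H524.LexB

/-!
The constant for the gaps between the codes of irreducible polynomials.
-/

namespace Pool.Agent.H524

set_option linter.unusedSectionVars false
set_option maxHeartbeats 400000

open Polynomial

variable {K : Type*} [Field K] [Fintype K]

/-- Long blocks of consecutive codes without irreducible polynomials. -/
lemma exists_long_block (hK : Even (Fintype.card K)) (e : K ≃ Fin (Fintype.card K))
    (he : (e 0 : ℕ) = 0) (c : ℝ) (hc0 : 0 < c)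
    (hc : c < ((Fintype.card K : ℝ) - 1) ^ 3 /
      (16 * (Fintype.card K : ℝ) * (Real.log (Fintype.card K : ℝ)) ^ 2)) (N : ℕ) :
    ∃ M L : ℕ, N ≤ M ∧ c * (Real.log M) ^ 2 < L ∧
      ∀ m, IsIrreducibleCode e m → ¬ (M ≤ m ∧ m < M + L) := by
  have hchar : ringChar K = 2 :=
    FiniteField.even_card_iff_char_two.mpr (Nat.even_iff.mp hK)
  have : CharP K 2 := ringChar.eq_iff.mp hchar
  have hq2 : 2 ≤ Fintype.card K := Fintype.one_lt_card
  have hq : (2 : ℝ) ≤ (Fintype.card K : ℝ) := by exact_mod_cast hq2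
  have hlog : 0 < Real.log (Fintype.card K : ℝ) := Real.log_pos (by linarith)
  set q : ℝ := (Fintype.card K : ℝ) with hqdef
  set κ : ℝ := c * (Real.log q) ^ 2 with hκ
  set a : ℝ := 4 * q / (q - 1) with ha
  have hq1 : 0 < q - 1 := by linarith
  have ha0 : 0 < a := by rw [ha]; positivity
  have hκ0 : 0 < κ := by rw [hκ]; positivity
  -- the limit
  have hlim : κ * a ^ 2 < q * (q - 1) := by
    rw [lt_div_iff₀ (by positivity)] at hc
    rw [hκ, ha, div_pow, mul_div_assoc', div_lt_iff₀ (by positivity)]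
    have h2 : c * Real.log q ^ 2 * (4 * q) ^ 2 = q * (c * (16 * q * Real.log q ^ 2)) := by ring
    rw [h2]
    calc q * (c * (16 * q * Real.log q ^ 2)) < q * (q - 1) ^ 3 :=
          mul_lt_mul_of_pos_left hc (by linarith)
      _ = q * (q - 1) * (q - 1) ^ 2 := by ring
  have htend : Filter.Tendsto (fun D : ℕ => κ * (a + (8 * q + 2) * (q⁻¹) ^ D) ^ 2) Filter.atTop
      (nhds (κ * (a + (8 * q + 2) * 0) ^ 2)) := by
    have h1 : Filter.Tendsto (fun D : ℕ => (q⁻¹) ^ D) Filter.atTop (nhds 0) :=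
      tendsto_pow_atTop_nhds_zero_of_lt_one (by positivity)
        (inv_lt_one_of_one_lt₀ (by linarith))
    exact ((((h1.const_mul (8 * q + 2)).const_add a)).pow 2).const_mul κ
  have hev : ∀ᶠ D : ℕ in Filter.atTop,
      κ * (a + (8 * q + 2) * (q⁻¹) ^ D) ^ 2 < q * (q - 1) := by
    apply htend.eventually_lt_const
    simpa using hlim
  obtain ⟨D, hD1, hD2⟩ := (hev.and (Filter.eventually_ge_atTop N)).exists
  obtain ⟨f, hf1, hf2, hf3⟩ := exists_block e he D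
  have hDg : D ≤ (lcmPoly K D).natDegree := by
    rw [natDegree_lcmPoly]
    have : ∑ i ∈ Finset.range D, 1 ≤
        ∑ i ∈ Finset.range D, Fintype.card K ^ (i + 1) :=
      Finset.sum_le_sum (fun i _ => Nat.one_le_pow _ _ (by omega))
    simpa using this
  have hgq := natDegree_lcmPoly_mul K D
  obtain ⟨g, hg⟩ : ∃ g, (lcmPoly K D).natDegree = g := ⟨_, rfl⟩
  rw [hg] at hf2 hDg hgq
  obtain ⟨Q, hQ⟩ : ∃ Q, Fintype.card K = Q := ⟨_, rfl⟩
  have hQq : q = (Q : ℝ) := by rw [hqdef, hQ]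
  rw [hQ] at hf2 hf3 hq2 hgq
  obtain ⟨b, hb⟩ : ∃ b, code e f / Q ^ (2 * D + 2) = b := ⟨_, rfl⟩
  rw [hb] at hf3
  refine ⟨Q ^ (2 * D + 2) * b + Q ^ (2 * D + 1), (Q - 1) * Q ^ (2 * D + 1), ?_, ?_, ?_⟩
  · have h1 : 2 * D + 1 < Q ^ (2 * D + 1) := Nat.lt_pow_self (by omega)
    have h2 := Nat.zero_le (Q ^ (2 * D + 2) * b)
    omega
  · have hcode : code e f < Q ^ (f.natDegree + 1) := by
      rw [← hQ]
      exact code_lt e f
    have h1 : Q ^ (2 * D + 2) * b ≤ Q ^ (4 * g + 8 * Q + 1) := by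
      rw [← hb]
      refine (Nat.mul_div_le _ _).trans (hcode.le.trans (Nat.pow_le_pow_right (by omega) (by omega)))
    have h2 : Q ^ (2 * D + 1) ≤ Q ^ (4 * g + 8 * Q + 1) :=
      Nat.pow_le_pow_right (by omega) (by omega)
    have h3 : Q ^ (2 * D + 2) * b + Q ^ (2 * D + 1) ≤ Q ^ (4 * g + 8 * Q + 2) := by
      calc Q ^ (2 * D + 2) * b + Q ^ (2 * D + 1)
          ≤ Q ^ (4 * g + 8 * Q + 1) + Q ^ (4 * g + 8 * Q + 1) := Nat.add_le_add h1 h2
        _ = Q ^ (4 * g + 8 * Q + 1) * 2 := by ring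
        _ ≤ Q ^ (4 * g + 8 * Q + 1) * Q := Nat.mul_le_mul_left _ hq2
        _ = Q ^ (4 * g + 8 * Q + 2) := by rw [← pow_succ]
    have hpos : 0 < Q ^ (2 * D + 2) * b + Q ^ (2 * D + 1) := by
      have : 0 < Q ^ (2 * D + 1) := Nat.pow_pos (by omega)
      omega
    have h1M : (1 : ℝ) ≤ ((Q ^ (2 * D + 2) * b + Q ^ (2 * D + 1) : ℕ) : ℝ) := by
      exact_mod_cast hpos
    have h4 : Real.log ((Q ^ (2 * D + 2) * b + Q ^ (2 * D + 1) : ℕ) : ℝ) ≤
        (4 * g + 8 * Q + 2 : ℝ) * Real.log q := by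
      have h5 : Real.log ((Q ^ (2 * D + 2) * b + Q ^ (2 * D + 1) : ℕ) : ℝ) ≤
          Real.log ((Q ^ (4 * g + 8 * Q + 2) : ℕ) : ℝ) :=
        Real.log_le_log (by linarith) (by exact_mod_cast h3)
      refine h5.trans ?_
      rw [Nat.cast_pow, Real.log_pow, hQq]
      push_cast
      exact le_rfl
    have h0 : 0 ≤ Real.log ((Q ^ (2 * D + 2) * b + Q ^ (2 * D + 1) : ℕ) : ℝ) :=
      Real.log_nonneg h1M
    have hqD : 0 < q ^ D := by positivity
    have h6 : (4 * g + 8 * Q + 2 : ℝ) ≤ (a + (8 * q + 2) * (q⁻¹) ^ D) * q ^ D := by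
      have h5 : (g : ℝ) * (q - 1) + q = q ^ (D + 1) := by
        have h7 : ((g * (Q - 1) + Q : ℕ) : ℝ) = ((Q ^ (D + 1) : ℕ) : ℝ) := by rw [hgq]
        push_cast [Nat.cast_sub (by omega : 1 ≤ Q)] at h7
        rw [hQq]
        exact h7
      have h6 : (g : ℝ) ≤ q ^ (D + 1) / (q - 1) := by
        rw [le_div_iff₀ hq1]
        linarith
      have h7 : (q⁻¹) ^ D * q ^ D = 1 := by
        rw [← mul_pow, inv_mul_cancel₀ (by positivity), one_pow]
      calc (4 * g + 8 * Q + 2 : ℝ) ≤ 4 * (q ^ (D + 1) / (q - 1)) + (8 * q + 2) := by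
            rw [← hQq]; linarith
        _ = a * q ^ D + (8 * q + 2) * ((q⁻¹) ^ D * q ^ D) := by
          rw [h7, ha, pow_succ]; ring
        _ = _ := by ring
    have hn0 : (0 : ℝ) ≤ (4 * g + 8 * Q + 2 : ℝ) := by positivity
    have h8 : (4 * g + 8 * Q + 2 : ℝ) ^ 2 ≤ ((a + (8 * q + 2) * (q⁻¹) ^ D) * q ^ D) ^ 2 :=
      pow_le_pow_left₀ hn0 h6 2
    have h9 : (Real.log ((Q ^ (2 * D + 2) * b + Q ^ (2 * D + 1) : ℕ) : ℝ)) ^ 2 ≤
        ((4 * g + 8 * Q + 2 : ℝ) * Real.log q) ^ 2 := pow_le_pow_left₀ h0 h4 2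
    calc c * (Real.log ((Q ^ (2 * D + 2) * b + Q ^ (2 * D + 1) : ℕ) : ℝ)) ^ 2
        ≤ c * ((4 * g + 8 * Q + 2 : ℝ) * Real.log q) ^ 2 :=
          mul_le_mul_of_nonneg_left h9 hc0.le
      _ = κ * (4 * g + 8 * Q + 2 : ℝ) ^ 2 := by rw [hκ]; ring
      _ ≤ κ * ((a + (8 * q + 2) * (q⁻¹) ^ D) * q ^ D) ^ 2 :=
          mul_le_mul_of_nonneg_left h8 hκ0.le
      _ = (κ * (a + (8 * q + 2) * (q⁻¹) ^ D) ^ 2) * (q ^ D) ^ 2 := by ring
      _ < (q * (q - 1)) * (q ^ D) ^ 2 := mul_lt_mul_of_pos_right hD1 (by positivity)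
      _ = (((Q - 1) * Q ^ (2 * D + 1) : ℕ) : ℝ) := by
          push_cast [Nat.cast_sub (by omega : 1 ≤ Q)]
          rw [← hQq]
          ring
  · rintro m ⟨P, hP, rfl⟩ ⟨h1, h2⟩
    refine hf3 P hP ⟨h1, ?_⟩
    have h3 : Q ^ (2 * D + 2) * b + Q ^ (2 * D + 1) + (Q - 1) * Q ^ (2 * D + 1) =
        Q ^ (2 * D + 2) * b + Q ^ (2 * D + 2) := by
      obtain ⟨Q', rfl⟩ : ∃ Q', Q = Q' + 1 := ⟨Q - 1, by omega⟩
      rw [Nat.add_sub_cancel, pow_succ (Q' + 1) (2 * D + 1)]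
      ring
    omega

end Pool.Agent.H524
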