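import Mathlib
import Pool.Agent.H524.LexC

/-!
The limit superior of the gaps exceeds `1` and the constant of the random model.
-/

namespace Pool.Agent.H524

set_option linter.unusedSectionVars false
set_option maxHeartbeats 400000

open Polynomial

lemma three_mul_le_pow (j : ℕ) (hj : 3 ≤ j) : 8 * j ≤ 3 * 2 ^ j := by
  induction j, hj using Nat.le_induction with
  | base => norm_num
  | succ j hj ih =>
    rw [pow_succ]
    omega

lemma sq_le_pow (j : ℕ) (hj : 4 ≤ j) : j * j ≤ 2 ^ j := by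
  induction j, hj using Nat.le_induction with
  | base => norm_num
  | succ j hj ih =>
    rw [pow_succ]
    nlinarith

lemma model_lt_gap (j q : ℕ) (hq : q = 2 ^ j) (h8 : 8 ≤ q) :
    1 / Real.log (q : ℝ) < ((q : ℝ) - 1) ^ 3 / (16 * (q : ℝ) * Real.log (q : ℝ) ^ 2) := by
  have hj : 3 ≤ j := by
    by_contra h
    have h1 : 2 ^ j ≤ 2 ^ 2 := Nat.pow_le_pow_right (by norm_num) (by omega)
    omega
  have h1 : (8 * (j : ℝ)) ≤ 3 * (q : ℝ) := by
    rw [hq]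
    exact_mod_cast three_mul_le_pow j hj
  have hq8 : (8 : ℝ) ≤ (q : ℝ) := by exact_mod_cast h8
  have hlq : Real.log (q : ℝ) = (j : ℝ) * Real.log 2 := by
    rw [hq]
    push_cast
    rw [Real.log_pow]
  have hl2 : Real.log 2 ≤ 7 / 10 := by
    have := Real.log_two_lt_d9
    linarith
  have hlpos : 0 < Real.log (q : ℝ) := Real.log_pos (by linarith)
  have hj0 : (0 : ℝ) ≤ (j : ℝ) := Nat.cast_nonneg j
  have hle : Real.log (q : ℝ) ≤ 21 / 80 * (q : ℝ) := by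
    rw [hlq]
    nlinarith
  rw [div_lt_div_iff₀ hlpos (by positivity), one_mul]
  have h3 : 16 * (q : ℝ) * Real.log (q : ℝ) < ((q : ℝ) - 1) ^ 3 := by
    have h4 : 16 * (q : ℝ) * Real.log (q : ℝ) ≤ 16 * (q : ℝ) * (21 / 80 * (q : ℝ)) :=
      mul_le_mul_of_nonneg_left hle (by positivity)
    have h5 : 16 * (q : ℝ) * (21 / 80 * (q : ℝ)) < ((q : ℝ) - 1) ^ 3 := by
      nlinarith [mul_nonneg (sub_nonneg.2 hq8) (sub_nonneg.2 hq8),
        mul_nonneg (mul_nonneg (sub_nonneg.2 hq8) (sub_nonneg.2 hq8)) (sub_nonneg.2 hq8)]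
    exact lt_of_le_of_lt h4 h5
  calc 16 * (q : ℝ) * Real.log (q : ℝ) ^ 2 =
      (16 * (q : ℝ) * Real.log (q : ℝ)) * Real.log (q : ℝ) := by ring
    _ < ((q : ℝ) - 1) ^ 3 * Real.log (q : ℝ) := mul_lt_mul_of_pos_right h3 hlpos

lemma one_lt_gap (j q : ℕ) (hq : q = 2 ^ j) (h16 : 16 ≤ q) :
    1 < ((q : ℝ) - 1) ^ 3 / (16 * (q : ℝ) * Real.log (q : ℝ) ^ 2) := by
  have hj : 4 ≤ j := by
    by_contra h
    have h1 : 2 ^ j ≤ 2 ^ 3 := Nat.pow_le_pow_right (by norm_num) (by omega)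
    omega
  have h1 : ((j : ℝ) * (j : ℝ)) ≤ (q : ℝ) := by
    rw [hq]
    exact_mod_cast sq_le_pow j hj
  have hq16 : (16 : ℝ) ≤ (q : ℝ) := by exact_mod_cast h16
  have hlq : Real.log (q : ℝ) = (j : ℝ) * Real.log 2 := by
    rw [hq]
    push_cast
    rw [Real.log_pow]
  have hl2 : Real.log 2 ≤ 7 / 10 := by
    have := Real.log_two_lt_d9
    linarith
  have hl20 : 0 < Real.log 2 := Real.log_pos (by norm_num)
  have hlpos : 0 < Real.log (q : ℝ) := Real.log_pos (by linarith)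
  have hj0 : (0 : ℝ) ≤ (j : ℝ) := Nat.cast_nonneg j
  have hle : Real.log (q : ℝ) ^ 2 ≤ 1 / 2 * (q : ℝ) := by
    have h2 : Real.log (q : ℝ) ≤ (j : ℝ) * (7 / 10) := by
      rw [hlq]
      exact mul_le_mul_of_nonneg_left hl2 hj0
    calc Real.log (q : ℝ) ^ 2 ≤ ((j : ℝ) * (7 / 10)) ^ 2 :=
          pow_le_pow_left₀ hlpos.le h2 2
      _ = 49 / 100 * ((j : ℝ) * (j : ℝ)) := by ring
      _ ≤ 49 / 100 * (q : ℝ) := by linarith
      _ ≤ 1 / 2 * (q : ℝ) := by linarith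
  rw [lt_div_iff₀ (by positivity), one_mul]
  have h4 : 16 * (q : ℝ) * Real.log (q : ℝ) ^ 2 ≤ 16 * (q : ℝ) * (1 / 2 * (q : ℝ)) :=
    mul_le_mul_of_nonneg_left hle (by positivity)
  have h5 : 16 * (q : ℝ) * (1 / 2 * (q : ℝ)) < ((q : ℝ) - 1) ^ 3 := by
    nlinarith [mul_nonneg (sub_nonneg.2 hq16) (sub_nonneg.2 hq16),
      mul_nonneg (mul_nonneg (sub_nonneg.2 hq16) (sub_nonneg.2 hq16)) (sub_nonneg.2 hq16)]
  exact lt_of_le_of_lt h4 h5

lemma card_eq_two_pow {K : Type*} [Field K] [Fintype K] (hK : Even (Fintype.card K)) :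
    ∃ j : ℕ, Fintype.card K = 2 ^ j := by
  have hchar : ringChar K = 2 := by
    apply FiniteField.even_card_iff_char_two.mpr
    exact Nat.even_iff.mp hK
  have : CharP K 2 := ringChar.eq_iff.mp hchar
  obtain ⟨n, -, hn⟩ := FiniteField.card K 2
  exact ⟨n, hn⟩

end Pool.Agent.H524
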