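import Mathlib
import Pool.Agent.H524.ProgE
import Pool.Agent.H524.LexB

/-!
Residue classes modulo fourth powers: the asymptotic formula fails.
-/

namespace Pool.Agent.H524

set_option linter.unusedSectionVars false
set_option maxHeartbeats 400000

open Polynomial

variable {K : Type*} [Field K] [Fintype K]

/-- The number of reduced classes is at most the number of classes. -/
lemma card_units_quot_le (M : K[X]) (hM : M ≠ 0) :
    Nat.card (K[X] ⧸ Ideal.span {M})ˣ ≤ Fintype.card K ^ M.natDegree := by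
  have hfin : Module.Finite K (AdjoinRoot M) := (AdjoinRoot.powerBasis hM).finite
  have h1 : Nat.card (AdjoinRoot M) = Fintype.card K ^ M.natDegree := by
    rw [Module.natCard_eq_pow_finrank (K := K) (V := AdjoinRoot M), Nat.card_eq_fintype_card,
      (AdjoinRoot.powerBasis hM).finrank, AdjoinRoot.powerBasis_dim]
  have hf : Finite (AdjoinRoot M) := Module.finite_of_finite K
  have hf' : Finite (K[X] ⧸ Ideal.span {M}) := hf
  have h2 : Nat.card (K[X] ⧸ Ideal.span {M})ˣ ≤ Nat.card (K[X] ⧸ Ideal.span {M}) :=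
    Nat.card_le_card_of_injective _ Units.val_injective
  exact h2.trans h1.le

/-- There are monic irreducible polynomials of every positive degree. -/
lemma exists_monic_irreducible_natDegree (n : ℕ) (hn : 0 < n) :
    ∃ P : K[X], P.Monic ∧ Irreducible P ∧ P.natDegree = n := by
  obtain ⟨R₀, hR₀, hR₀d⟩ := exists_irreducible_natDegree (K := K) n hn
  have h0 : R₀.leadingCoeff⁻¹ ≠ 0 := inv_ne_zero (leadingCoeff_ne_zero.mpr hR₀.ne_zero)
  refine ⟨R₀ * C R₀.leadingCoeff⁻¹, monic_mul_leadingCoeff_inv hR₀.ne_zero, ?_, ?_⟩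
  · rw [mul_comm]
    exact (irreducible_isUnit_mul ((IsUnit.mk0 _ h0).map C)).mpr hR₀
  · rw [mul_comm, natDegree_C_mul h0, hR₀d]

/-- From the limit superior to a bound in terms of the number of reduced classes. -/
theorem prog_gt (k : ℕ) (hK : Fintype.card K = 2 ^ (2 * k + 1)) (c : ℝ) (hc0 : 0 ≤ c)
    (hc : c < ((Fintype.card K : ℝ) - 1) ^ 2 / (16 * Real.log (Fintype.card K : ℝ) ^ 2))
    (B : ℕ) : ∃ M : K[X], M.Monic ∧ B ≤ M.natDegree ∧
      ∃ a : K[X], IsCoprime a M ∧ ∀ P : K[X], Irreducible P → M ∣ P - a →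
        c * ((Nat.card (K[X] ⧸ Ideal.span {M})ˣ : ℝ) *
          Real.log ((Fintype.card K : ℝ) ^ M.natDegree) ^ 2) <
        (Fintype.card K : ℝ) ^ P.natDegree := by
  obtain ⟨ν, hνB, hνodd, hν⟩ := prog_limsup (K := K) k hK c hc (B + 1)
  obtain ⟨N, hNm, hNi, hNd⟩ := exists_monic_irreducible_natDegree (K := K) ν (by omega)
  obtain ⟨a, ha, hP⟩ := hν N hNm hNi hNd
  have hM0 : (N ^ 4 : K[X]) ≠ 0 := pow_ne_zero 4 hNm.ne_zero
  refine ⟨N ^ 4, hNm.pow 4, ?_, a, ha.pow_right, fun P hPi hPd => ?_⟩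
  · rw [natDegree_pow, hNd]
    omega
  · refine lt_of_le_of_lt ?_ (hP P hPi hPd)
    have h2 : (Nat.card (K[X] ⧸ Ideal.span {(N ^ 4 : K[X])})ˣ : ℝ) ≤
        (Fintype.card K : ℝ) ^ (N ^ 4 : K[X]).natDegree := by
      exact_mod_cast card_units_quot_le (N ^ 4 : K[X]) hM0
    apply mul_le_mul_of_nonneg_left _ hc0
    exact mul_le_mul_of_nonneg_right h2 (by positivity)

lemma pow_gt_aux (k : ℕ) (hk : 2 ≤ k) : 4 * (2 * k + 1) + 1 < 2 ^ (2 * k + 1) := by
  induction k, hk using Nat.le_induction with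
  | base => norm_num
  | succ k hk ih =>
    have : 2 ^ (2 * (k + 1) + 1) = 4 * 2 ^ (2 * k + 1) := by
      rw [show 2 * (k + 1) + 1 = (2 * k + 1) + 2 by ring, pow_add]
      ring
    rw [this]
    omega

lemma pow_gt_aux' (k : ℕ) (hk : 3 ≤ k) : 16 * (2 * k + 1) + 1 < 2 ^ (2 * k + 1) := by
  induction k, hk using Nat.le_induction with
  | base => norm_num
  | succ k hk ih =>
    have : 2 ^ (2 * (k + 1) + 1) = 4 * 2 ^ (2 * k + 1) := by
      rw [show 2 * (k + 1) + 1 = (2 * k + 1) + 2 by ring, pow_add]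
      ring
    rw [this]
    omega

lemma log_card_bounds (k q : ℕ) (hq : q = 2 ^ (2 * k + 1)) :
    0 < Real.log (q : ℝ) ∧ Real.log (q : ℝ) ≤ 2 * (k : ℝ) + 1 := by
  have hlq : Real.log (q : ℝ) = (2 * (k : ℝ) + 1) * Real.log 2 := by
    rw [hq]
    push_cast
    rw [Real.log_pow]
    push_cast
    ring
  have hl2 : Real.log 2 ≤ 1 := by
    have := Real.log_two_lt_d9
    linarith
  have hl20 : 0 < Real.log 2 := Real.log_pos (by norm_num)
  have hk0 : (0 : ℝ) ≤ (k : ℝ) := Nat.cast_nonneg k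
  refine ⟨by rw [hlq]; positivity, ?_⟩
  rw [hlq]
  nlinarith

lemma one_lt_const (k : ℕ) (q : ℕ) (hq : q = 2 ^ (2 * k + 1)) (h32 : 32 ≤ q) :
    1 < ((q : ℝ) - 1) ^ 2 / (16 * Real.log (q : ℝ) ^ 2) := by
  have hk : 2 ≤ k := by
    by_contra h
    have h1 : 2 ^ (2 * k + 1) ≤ 2 ^ 3 := Nat.pow_le_pow_right (by norm_num) (by omega)
    omega
  have h1 := pow_gt_aux k hk
  rw [← hq] at h1
  have h2 : (4 * (2 * (k : ℝ) + 1) + 1) < (q : ℝ) := by exact_mod_cast h1
  obtain ⟨hlpos, hle⟩ := log_card_bounds k q hq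
  rw [lt_div_iff₀ (by positivity), one_mul]
  have h3 : 4 * Real.log (q : ℝ) < (q : ℝ) - 1 := by linarith
  have h4 : (4 * Real.log (q : ℝ)) ^ 2 < ((q : ℝ) - 1) ^ 2 :=
    pow_lt_pow_left₀ h3 (by positivity) (by norm_num)
  calc 16 * Real.log (q : ℝ) ^ 2 = (4 * Real.log (q : ℝ)) ^ 2 := by ring
    _ < _ := h4

lemma model_lt_const (k : ℕ) (q : ℕ) (hq : q = 2 ^ (2 * k + 1)) (h128 : 128 ≤ q) :
    ((q : ℝ) - 1) / Real.log (q : ℝ) < ((q : ℝ) - 1) ^ 2 / (16 * Real.log (q : ℝ) ^ 2) := by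
  have hk : 3 ≤ k := by
    by_contra h
    have h1 : 2 ^ (2 * k + 1) ≤ 2 ^ 5 := Nat.pow_le_pow_right (by norm_num) (by omega)
    omega
  have h1 := pow_gt_aux' k hk
  rw [← hq] at h1
  have h2 : (16 * (2 * (k : ℝ) + 1) + 1) < (q : ℝ) := by exact_mod_cast h1
  obtain ⟨hlpos, hle⟩ := log_card_bounds k q hq
  have h3 : 16 * Real.log (q : ℝ) < (q : ℝ) - 1 := by linarith
  rw [div_lt_div_iff₀ hlpos (by positivity)]
  have h4 : 0 < ((q : ℝ) - 1) * Real.log (q : ℝ) := mul_pos (by linarith) hlpos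
  calc ((q : ℝ) - 1) * (16 * Real.log (q : ℝ) ^ 2) =
      (16 * Real.log (q : ℝ)) * (((q : ℝ) - 1) * Real.log (q : ℝ)) := by ring
    _ < ((q : ℝ) - 1) * (((q : ℝ) - 1) * Real.log (q : ℝ)) :=
        mul_lt_mul_of_pos_right h3 h4
    _ = ((q : ℝ) - 1) ^ 2 * Real.log (q : ℝ) := by ring

/-- The asymptotic formula fails for `q ≥ 32`. -/
theorem prog_not_asymp (k : ℕ) (hK : Fintype.card K = 2 ^ (2 * k + 1))
    (h32 : 32 ≤ Fintype.card K) :
    ∃ ε : ℝ, 0 < ε ∧ ∀ B : ℕ, ∃ M : K[X], M.Monic ∧ B ≤ M.natDegree ∧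
      ∃ a : K[X], IsCoprime a M ∧ ∀ P : K[X], Irreducible P → M ∣ P - a →
        (1 + ε) * ((Nat.card (K[X] ⧸ Ideal.span {M})ˣ : ℝ) *
          Real.log ((Fintype.card K : ℝ) ^ M.natDegree) ^ 2) <
        (Fintype.card K : ℝ) ^ P.natDegree := by
  obtain ⟨c, hc1, hc2⟩ := exists_between (one_lt_const k (Fintype.card K) hK h32)
  refine ⟨c - 1, by linarith, fun B => ?_⟩
  have h3 : 1 + (c - 1) = c := by ring
  rw [h3]
  exact prog_gt k hK c (by linarith) hc2 B

/-- The constant of the random model is exceeded for `q ≥ 128`. -/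
theorem prog_not_model (k : ℕ) (hK : Fintype.card K = 2 ^ (2 * k + 1))
    (h128 : 128 ≤ Fintype.card K) :
    ∃ ε : ℝ, 0 < ε ∧ ∀ B : ℕ, ∃ M : K[X], M.Monic ∧ B ≤ M.natDegree ∧
      ∃ a : K[X], IsCoprime a M ∧ ∀ P : K[X], Irreducible P → M ∣ P - a →
        (1 + ε) * (((Fintype.card K : ℝ) - 1) / Real.log (Fintype.card K : ℝ)) *
          ((Nat.card (K[X] ⧸ Ideal.span {M})ˣ : ℝ) *
          Real.log ((Fintype.card K : ℝ) ^ M.natDegree) ^ 2) <
        (Fintype.card K : ℝ) ^ P.natDegree := by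
  have h0 := model_lt_const k (Fintype.card K) hK h128
  have hq : (128 : ℝ) ≤ (Fintype.card K : ℝ) := by exact_mod_cast h128
  have hlog : 0 < Real.log (Fintype.card K : ℝ) := Real.log_pos (by linarith)
  have hc0 : 0 < ((Fintype.card K : ℝ) - 1) / Real.log (Fintype.card K : ℝ) :=
    div_pos (by linarith) hlog
  obtain ⟨c, hc1, hc2⟩ := exists_between h0
  refine ⟨c / (((Fintype.card K : ℝ) - 1) / Real.log (Fintype.card K : ℝ)) - 1, ?_,
    fun B => ?_⟩
  · have : 1 < c / (((Fintype.card K : ℝ) - 1) / Real.log (Fintype.card K : ℝ)) := by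
      rw [one_lt_div hc0]
      exact hc1
    linarith
  · have h3 : (1 + (c / (((Fintype.card K : ℝ) - 1) / Real.log (Fintype.card K : ℝ)) - 1)) *
        (((Fintype.card K : ℝ) - 1) / Real.log (Fintype.card K : ℝ)) = c := by
      rw [add_sub_cancel, div_mul_cancel₀ _ hc0.ne']
    rw [h3]
    exact prog_gt k hK c (by linarith) hc2 B

end Pool.Agent.H524
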